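import Pool.Agent.Lib.MP_af3a4a_an.P1.CHK.Curve.Sound

/-!
# The T2 curve: the loops and the final theorem (council 2, helper62)
-/

set_option autoImplicit false

namespace Pool.Agent.Lib.MP_af3a4a_an.P1.CHK.Curve

open Pool.Agent.Lib.MP_af3a4a_an.P1.CHK.Arith
open Pool.Agent.Lib.MP_af3a4a_an.SV (av)
open Pool.Agent.Lib.MP_af3a4a_an.P1.H80
open Pool.Agent.Lib.MP_af3a4a_an.P1.CHK.H80

/-! ### one step of every loop -/

theorem ploop_succ {Na Nb Q mp mn lp ln s0 s1 c1 phi K : ℕ}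
    {fin : ℕ → ℕ → ℕ → ℕ → ℕ → ℕ → ℕ → Bool} {j JJ Tl Tu ka psa Wa Xa G st cs : ℕ}
    (h : ploop Na Nb Q mp mn lp ln s0 s1 c1 phi (K + 1) fin j JJ Tl Tu ka psa Wa Xa G st cs =
      true) :
    (st % 256 ≤ 100 ∧ PM Nb Q c1 (JJ + (ka * (3 * j + 1) +
      kN Q (gN Q mp mn (j + 1)) (j + 1) * (3 * j + 2))) * (cN (st % 256) + 1) ≤
        1099511627776 * 1099511627776) ∧
    ((psa + del Na Nb Q mp mn lp ln s0 s1 j ≤ Wa ∧
      psi Na Nb s0 s1 phi phi (Tl + tinc Q (dN Q lp ln j)) (Tu + (wN Q (dN Q mp mn j) + 1)) +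
        del Na Nb Q mp mn lp ln s0 s1 j ≤ WN (PM Nb Q c1 (JJ + (ka * (3 * j + 1) +
          kN Q (gN Q mp mn (j + 1)) (j + 1) * (3 * j + 2)))) (st % 256)) ∧
      16 * 1099511627776 ≤ mN Q mp mn j * (Q * Q)) ∧
    (cs % 4294967296) * (Q * (1099511627776 * 1099511627776)) ≤
      ((Na + 1) * 16777216) * (G + posC Na Nb Q (mN Q mp mn j)
        (Xa + XN (PM Nb Q c1 (JJ + (ka * (3 * j + 1) +
          kN Q (gN Q mp mn (j + 1)) (j + 1) * (3 * j + 2)))) (st % 256))) ∧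
    ploop Na Nb Q mp mn lp ln s0 s1 c1 phi K fin (j + 1)
      (JJ + (ka * (3 * j + 1) + kN Q (gN Q mp mn (j + 1)) (j + 1) * (3 * j + 2)))
      (Tl + tinc Q (dN Q lp ln j)) (Tu + (wN Q (dN Q mp mn j) + 1))
      (kN Q (gN Q mp mn (j + 1)) (j + 1))
      (psi Na Nb s0 s1 phi phi (Tl + tinc Q (dN Q lp ln j)) (Tu + (wN Q (dN Q mp mn j) + 1)))
      (WN (PM Nb Q c1 (JJ + (ka * (3 * j + 1) +
          kN Q (gN Q mp mn (j + 1)) (j + 1) * (3 * j + 2)))) (st % 256))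
      (XN (PM Nb Q c1 (JJ + (ka * (3 * j + 1) +
          kN Q (gN Q mp mn (j + 1)) (j + 1) * (3 * j + 2)))) (st % 256))
      (G + posC Na Nb Q (mN Q mp mn j)
        (Xa + XN (PM Nb Q c1 (JJ + (ka * (3 * j + 1) +
          kN Q (gN Q mp mn (j + 1)) (j + 1) * (3 * j + 2)))) (st % 256)))
      (st / 256) (cs / 4294967296) = true := by
  have h' : bi (bi (bi (Nat.ble (st % 256) 100) (Nat.ble (PM Nb Q c1 (JJ + (ka * (3 * j + 1) +
      kN Q (gN Q mp mn (j + 1)) (j + 1) * (3 * j + 2))) * (cN (st % 256) + 1))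
        (1099511627776 * 1099511627776)) false)
      (bi (bi (Nat.ble (psa + del Na Nb Q mp mn lp ln s0 s1 j) Wa)
        (Nat.ble (psi Na Nb s0 s1 phi phi (Tl + tinc Q (dN Q lp ln j))
          (Tu + (wN Q (dN Q mp mn j) + 1)) +
        del Na Nb Q mp mn lp ln s0 s1 j) (WN (PM Nb Q c1 (JJ + (ka * (3 * j + 1) +
          kN Q (gN Q mp mn (j + 1)) (j + 1) * (3 * j + 2)))) (st % 256))) false)
        (Nat.ble (16 * 1099511627776) (mN Q mp mn j * (Q * Q))) false) false)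
      (bi (Nat.ble ((cs % 4294967296) * (Q * (1099511627776 * 1099511627776)))
        (((Na + 1) * 16777216) * (G + posC Na Nb Q (mN Q mp mn j)
        (Xa + XN (PM Nb Q c1 (JJ + (ka * (3 * j + 1) +
          kN Q (gN Q mp mn (j + 1)) (j + 1) * (3 * j + 2)))) (st % 256)))))
      (ploop Na Nb Q mp mn lp ln s0 s1 c1 phi K fin (j + 1)
      (JJ + (ka * (3 * j + 1) + kN Q (gN Q mp mn (j + 1)) (j + 1) * (3 * j + 2)))
      (Tl + tinc Q (dN Q lp ln j)) (Tu + (wN Q (dN Q mp mn j) + 1))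
      (kN Q (gN Q mp mn (j + 1)) (j + 1))
      (psi Na Nb s0 s1 phi phi (Tl + tinc Q (dN Q lp ln j)) (Tu + (wN Q (dN Q mp mn j) + 1)))
      (WN (PM Nb Q c1 (JJ + (ka * (3 * j + 1) +
          kN Q (gN Q mp mn (j + 1)) (j + 1) * (3 * j + 2)))) (st % 256))
      (XN (PM Nb Q c1 (JJ + (ka * (3 * j + 1) +
          kN Q (gN Q mp mn (j + 1)) (j + 1) * (3 * j + 2)))) (st % 256))
      (G + posC Na Nb Q (mN Q mp mn j)
        (Xa + XN (PM Nb Q c1 (JJ + (ka * (3 * j + 1) +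
          kN Q (gN Q mp mn (j + 1)) (j + 1) * (3 * j + 2)))) (st % 256)))
      (st / 256) (cs / 4294967296)) false) false = true := h
  rw [bi_and, bi_and, bi_and, bi_and, bi_and, bi_and] at h'
  simp only [Nat.ble_eq] at h'
  exact ⟨h'.1.1, h'.1.2, h'.2.1, h'.2.2⟩

theorem nloop_succ {Na Nb Q mp mn lp ln s0 s1 c1 phi Gp K : ℕ} {fin : ℕ → ℕ → ℕ → Bool}
    {j JJ Tl Tu ka Gm st cs : ℕ}
    (h : nloop Na Nb Q mp mn lp ln s0 s1 c1 phi Gp (K + 1) fin j JJ Tl Tu ka Gm st cs = true) :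
    ∃ Gmb : ℕ, (cs % 4294967296) * (Q * (1099511627776 * 1099511627776)) ≤
      ((Na + 1) * 16777216) * (Gp - Gmb) ∧
    ((st % 256 ≤ 100 ∧ tdN (del Na Nb Q mp mn lp ln s0 s1 j) (st % 256) < 1099511627776 ∧
      Gmb = Gm + negC (uE Na Nb Q lp ln j) (uE Na Nb Q lp ln (j + 1))
        (LN (PM Nb Q c1 JJ) (psi Na Nb s0 s1 (phi + st / 256 % 256 * 6908435304716)
          (phi + st / 256 % 256 * 6908435304715) Tl Tu) (st % 256))
        (LN (PM Nb Q c1 (JJ + (ka * (3 * j + 1) +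
            kN Q (gN Q mp mn (j + 1)) (j + 1) * (3 * j + 2))))
          (psi Na Nb s0 s1 (phi + st / 256 % 256 * 6908435304716)
          (phi + st / 256 % 256 * 6908435304715)
          (Tl + tinc Q (dN Q lp ln j)) (Tu + (wN Q (dN Q mp mn j) + 1))) (st % 256))
        (tdN (del Na Nb Q mp mn lp ln s0 s1 j) (st % 256)) (st % 256)) ∨
      Gmb = Gm + amC Na Nb Q lp ln j) ∧
    nloop Na Nb Q mp mn lp ln s0 s1 c1 phi Gp K fin (j + 1)
      (JJ + (ka * (3 * j + 1) + kN Q (gN Q mp mn (j + 1)) (j + 1) * (3 * j + 2)))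
      (Tl + tinc Q (dN Q lp ln j)) (Tu + (wN Q (dN Q mp mn j) + 1))
      (kN Q (gN Q mp mn (j + 1)) (j + 1)) Gmb (st / 65536) (cs / 4294967296) = true := by
  refine ⟨bi (Nat.ble (st % 256) 100) (Gm + negC (uE Na Nb Q lp ln j) (uE Na Nb Q lp ln (j + 1))
        (LN (PM Nb Q c1 JJ) (psi Na Nb s0 s1 (phi + st / 256 % 256 * 6908435304716)
          (phi + st / 256 % 256 * 6908435304715) Tl Tu) (st % 256))
        (LN (PM Nb Q c1 (JJ + (ka * (3 * j + 1) +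
            kN Q (gN Q mp mn (j + 1)) (j + 1) * (3 * j + 2))))
          (psi Na Nb s0 s1 (phi + st / 256 % 256 * 6908435304716)
          (phi + st / 256 % 256 * 6908435304715)
          (Tl + tinc Q (dN Q lp ln j)) (Tu + (wN Q (dN Q mp mn j) + 1))) (st % 256))
        (tdN (del Na Nb Q mp mn lp ln s0 s1 j) (st % 256)) (st % 256))
        (Gm + amC Na Nb Q lp ln j), ?_⟩
  have h' : bi (bi (Nat.ble ((cs % 4294967296) * (Q * (1099511627776 * 1099511627776)))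
      (((Na + 1) * 16777216) * (Gp - (bi (Nat.ble (st % 256) 100)
        (Gm + negC (uE Na Nb Q lp ln j) (uE Na Nb Q lp ln (j + 1))
        (LN (PM Nb Q c1 JJ) (psi Na Nb s0 s1 (phi + st / 256 % 256 * 6908435304716)
          (phi + st / 256 % 256 * 6908435304715) Tl Tu) (st % 256))
        (LN (PM Nb Q c1 (JJ + (ka * (3 * j + 1) +
            kN Q (gN Q mp mn (j + 1)) (j + 1) * (3 * j + 2))))
          (psi Na Nb s0 s1 (phi + st / 256 % 256 * 6908435304716)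
          (phi + st / 256 % 256 * 6908435304715)
          (Tl + tinc Q (dN Q lp ln j)) (Tu + (wN Q (dN Q mp mn j) + 1))) (st % 256))
        (tdN (del Na Nb Q mp mn lp ln s0 s1 j) (st % 256)) (st % 256))
        (Gm + amC Na Nb Q lp ln j)))))
      (bi (Nat.ble (st % 256) 100)
        (Nat.blt (tdN (del Na Nb Q mp mn lp ln s0 s1 j) (st % 256)) 1099511627776) true) false)
      (nloop Na Nb Q mp mn lp ln s0 s1 c1 phi Gp K fin (j + 1)
      (JJ + (ka * (3 * j + 1) + kN Q (gN Q mp mn (j + 1)) (j + 1) * (3 * j + 2)))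
      (Tl + tinc Q (dN Q lp ln j)) (Tu + (wN Q (dN Q mp mn j) + 1))
      (kN Q (gN Q mp mn (j + 1)) (j + 1)) (bi (Nat.ble (st % 256) 100)
        (Gm + negC (uE Na Nb Q lp ln j) (uE Na Nb Q lp ln (j + 1))
        (LN (PM Nb Q c1 JJ) (psi Na Nb s0 s1 (phi + st / 256 % 256 * 6908435304716)
          (phi + st / 256 % 256 * 6908435304715) Tl Tu) (st % 256))
        (LN (PM Nb Q c1 (JJ + (ka * (3 * j + 1) +
            kN Q (gN Q mp mn (j + 1)) (j + 1) * (3 * j + 2))))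
          (psi Na Nb s0 s1 (phi + st / 256 % 256 * 6908435304716)
          (phi + st / 256 % 256 * 6908435304715)
          (Tl + tinc Q (dN Q lp ln j)) (Tu + (wN Q (dN Q mp mn j) + 1))) (st % 256))
        (tdN (del Na Nb Q mp mn lp ln s0 s1 j) (st % 256)) (st % 256))
        (Gm + amC Na Nb Q lp ln j)) (st / 65536) (cs / 4294967296)) false = true := h
  rw [bi_and, bi_and] at h'
  obtain ⟨⟨hc, hd⟩, hr⟩ := h'
  rw [Nat.ble_eq] at hc
  refine ⟨hc, ?_, hr⟩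
  rcases Bool.eq_false_or_eq_true (Nat.ble (st % 256) 100) with hb | hb
  · left
    rw [hb] at hd ⊢
    rw [bi_true] at hd ⊢
    exact ⟨Nat.ble_eq.mp hb, by rwa [Nat.blt_eq] at hd, rfl⟩
  · right
    rw [hb, bi_false]

theorem tloop_succ {Na Nb Q lp ln Gp K j Gm cs : ℕ}
    (h : tloop Na Nb Q lp ln Gp (K + 1) j Gm cs = true) :
    (cs % 4294967296) * (Q * (1099511627776 * 1099511627776)) ≤
      ((Na + 1) * 16777216) * (Gp - (Gm + amC Na Nb Q lp ln j)) ∧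
    tloop Na Nb Q lp ln Gp K (j + 1) (Gm + amC Na Nb Q lp ln j) (cs / 4294967296) = true := by
  have h' : bi (Nat.ble ((cs % 4294967296) * (Q * (1099511627776 * 1099511627776)))
      (((Na + 1) * 16777216) * (Gp - (Gm + amC Na Nb Q lp ln j))))
      (tloop Na Nb Q lp ln Gp K (j + 1) (Gm + amC Na Nb Q lp ln j) (cs / 4294967296)) false =
      true := h
  rw [bi_and, Nat.ble_eq] at h'
  exact h'

section ctx

variable {Na Nb Q mp mn lp ln s0 s1 c1 N : ℕ} {u : Fin N → ℂ}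

theorem tloop_ok (H : Ctx Na Nb Q mp mn lp ln s0 s1 c1 N u) {Gp phi : ℕ} : ∀ K j Gm cs : ℕ,
    ((Gp : ℝ) - Gm) / (Q * (1099511627776 * 1099511627776)) ≤
      RR u ((phi : ℝ) / 1099511627776) (nd Q j) →
    tloop Na Nb Q lp ln Gp K j Gm cs = true → CL N Q u j cs K := by
  intro K
  induction K with
  | zero => intro j Gm cs _ _; exact CL_zero
  | succ K ih =>
    intro j Gm cs hG h
    obtain ⟨h1, h2⟩ := tloop_succ h
    have hG' := cell_am H hG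
    exact CL_succ (claim_of_sub H h1 hG') (ih _ _ _ hG' h2)

theorem nloop_ok (H : Ctx Na Nb Q mp mn lp ln s0 s1 c1 N u) {Gp phi K' : ℕ}
    {fin : ℕ → ℕ → ℕ → Bool} : ∀ K j J Tl Tu ka Gm st cs : ℕ,
    Inv Q mp mn lp ln j J Tl Tu ka →
    ((Gp : ℝ) - Gm) / (Q * (1099511627776 * 1099511627776)) ≤
      RR u ((phi : ℝ) / 1099511627776) (nd Q j) →
    j + K < Q →
    nloop Na Nb Q mp mn lp ln s0 s1 c1 phi Gp K fin j J Tl Tu ka Gm st cs = true →
    (∀ Gm' cs' : ℕ, ((Gp : ℝ) - Gm') / (Q * (1099511627776 * 1099511627776)) ≤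
      RR u ((phi : ℝ) / 1099511627776) (nd Q (j + K)) → fin (j + K) Gm' cs' = true →
      CL N Q u (j + K) cs' K') →
    CL N Q u j cs (K' + K) := by
  intro K
  induction K with
  | zero =>
    intro j J Tl Tu ka Gm st cs _ hG _ h hf
    exact hf Gm cs hG h
  | succ K ih =>
    intro j J Tl Tu ka Gm st cs I hG hj h hf
    obtain ⟨Gmb, h1, h2, h3⟩ := nloop_succ h
    have hG' : ((Gp : ℝ) - Gmb) / (Q * (1099511627776 * 1099511627776)) ≤
        RR u ((phi : ℝ) / 1099511627776) (nd Q (j + 1)) := by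
      rcases h2 with ⟨ha, hb, hc⟩ | hc
      · rw [hc]
        exact cell_q H (by omega) I ha hb hG
      · rw [hc]
        exact cell_am H hG
    apply CL_succ (claim_of_sub H h1 hG')
    refine ih _ _ _ _ _ _ _ _ (Inv_succ H (by omega) I) hG' (by omega) h3 ?_
    intro Gm' cs' g1 g2
    have e : j + 1 + K = j + (K + 1) := by omega
    rw [e] at g1 g2 ⊢
    exact hf Gm' cs' g1 g2

/-- the invariants of the positive loop -/
structure InvP (Na Nb Q mp mn lp ln s0 s1 c1 N : ℕ) (u : Fin N → ℂ)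
    (phi j J Tl Tu ka psa Wa Xa G : ℕ) : Prop where
  I : Inv Q mp mn lp ln j J Tl Tu ka
  ps : psa = psi Na Nb s0 s1 phi phi Tl Tu
  t : ∃ t, t ≤ 100 ∧ PM Nb Q c1 J * (cN t + 1) ≤ 1099511627776 * 1099511627776 ∧
    Wa = WN (PM Nb Q c1 J) t ∧ Xa = XN (PM Nb Q c1 J) t
  G : (G : ℝ) / (Q * (1099511627776 * 1099511627776)) ≤
    RR u ((phi : ℝ) / 1099511627776) (nd Q j)

theorem ploop_ok (H : Ctx Na Nb Q mp mn lp ln s0 s1 c1 N u) {phi K' : ℕ}
    {fin : ℕ → ℕ → ℕ → ℕ → ℕ → ℕ → ℕ → Bool} :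
    ∀ K j J Tl Tu ka psa Wa Xa G st cs : ℕ,
    InvP Na Nb Q mp mn lp ln s0 s1 c1 N u phi j J Tl Tu ka psa Wa Xa G →
    j + K < Q →
    ploop Na Nb Q mp mn lp ln s0 s1 c1 phi K fin j J Tl Tu ka psa Wa Xa G st cs = true →
    (∀ J' Tl' Tu' ka' G' cs' : ℕ, Inv Q mp mn lp ln (j + K) J' Tl' Tu' ka' →
      (G' : ℝ) / (Q * (1099511627776 * 1099511627776)) ≤
        RR u ((phi : ℝ) / 1099511627776) (nd Q (j + K)) →
      fin (j + K) J' Tl' Tu' ka' G' cs' = true → CL N Q u (j + K) cs' K') →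
    CL N Q u j cs (K' + K) := by
  intro K
  induction K with
  | zero =>
    intro j J Tl Tu ka psa Wa Xa G st cs I _ h hf
    exact hf J Tl Tu ka G cs I.I I.G h
  | succ K ih =>
    intro j J Tl Tu ka psa Wa Xa G st cs I hj h hf
    obtain ⟨⟨ht, hc⟩, ⟨⟨hWa, hWb⟩, hD⟩, hcl, hr⟩ := ploop_succ h
    obtain ⟨ta, hta, hca, eW, eX⟩ := I.t
    have I' := Inv_succ H (show j + 1 < Q by omega) I.I
    rw [eW, I.ps] at hWa
    rw [eX] at hcl hr
    have hG' := cell_p H (show j + 1 < Q by omega) I.I I'.J hta ht hca hc hWa hWb hD I.G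
    apply CL_succ (claim_of H hcl hG')
    refine ih _ _ _ _ _ _ _ _ _ _ _ ⟨I', rfl, ⟨_, ht, hc, rfl, rfl⟩, hG'⟩ (by omega) hr ?_
    intro J' Tl' Tu' ka' G' cs' g1 g2 g3
    have e : j + 1 + K = j + (K + 1) := by omega
    rw [e] at g1 g2 g3 ⊢
    exact hf J' Tl' Tu' ka' G' cs' g1 g2 g3

end ctx

theorem cN_lt (t : ℕ) : cN t < 281474976710656 := Nat.mod_lt _ (by norm_num)

/-- **soundness of the curve** -/
theorem curve_CL {Na Nb Q mp mn lp ln s0 s1 c1 phi K0 K1 K2 t0 st1 st2 cs N : ℕ} {u : Fin N → ℂ}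
    (hu : ∀ k, ‖u k‖ ≤ 1) (hNa : Na ≤ N) (hNb : N ≤ Nb)
    (h1 : (av u).re ≤ mr mp mn) (h2 : mr lp ln ≤ (av u).re)
    (h3 : (s0 : ℝ) / 1099511627776 ≤ (av u).im) (h4 : (av u).im ≤ (s1 : ℝ) / 1099511627776)
    (h5 : 1 - ‖av u‖ ^ 2 ≤ (c1 : ℝ) / 1099511627776)
    (h : curve Na Nb Q mp mn lp ln s0 s1 c1 phi K0 K1 K2 t0 st1 st2 cs = true) :
    CL N Q u 0 cs (K0 + K1 + K2) := by
  unfold curve at h
  rw [bi_and, bi_and, bi_and, bi_and, bi_and] at h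
  obtain ⟨⟨⟨c1', c2'⟩, ⟨c3', c4'⟩, c5'⟩, hl⟩ := h
  rw [Nat.ble_eq] at c1' c2' c4' c5'
  rw [Nat.blt_eq] at c3'
  change K0 + K1 < Q at c3'
  have c1r : (mp : ℝ) ≤ mn + 1099511627776 := by
    have : (mp : ℝ) ≤ ((mn + 1099511627776 : ℕ) : ℝ) := by exact_mod_cast c1'
    push_cast at this
    exact this
  have c2r : (ln : ℝ) ≤ lp + 1099511627776 := by
    have : (ln : ℝ) ≤ ((lp + 1099511627776 : ℕ) : ℝ) := by exact_mod_cast c2'
    push_cast at this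
    exact this
  have hN : 1 ≤ N := c5'.trans hNa
  have hm := re_av_abs hN hu
  have hm' := abs_le.1 hm
  have hQ : 0 < Q := by
    have : K0 + K1 < Q := c3'
    omega
  have hmh : |mr mp mn| ≤ 1 := by
    rw [abs_le]
    refine ⟨hm'.1.trans h1, ?_⟩
    unfold mr
    rw [div_le_one (by norm_num)]
    linarith
  have hml : |mr lp ln| ≤ 1 := by
    rw [abs_le]
    refine ⟨?_, h2.trans hm'.2⟩
    unfold mr
    rw [le_div_iff₀ (by norm_num)]
    linarith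
  have H : Ctx Na Nb Q mp mn lp ln s0 s1 c1 N u :=
    ⟨c5', hNa, hNb, hQ, hu, hmh, hml, h1, h2, h3, h4, h5⟩
  have e0 : nd Q 0 = 0 := by unfold nd; simp
  have hP : PM Nb Q c1 0 = 1 := by
    rw [PM_def]
    simp
  have hc0 : PM Nb Q c1 0 * (cN t0 + 1) ≤ 1099511627776 * 1099511627776 := by
    rw [hP]
    have := cN_lt t0
    omega
  have I0 : InvP Na Nb Q mp mn lp ln s0 s1 c1 N u phi 0 0 0 0 (kN Q (gN Q mp mn 0) 0)
      (psi Na Nb s0 s1 phi phi 0 0) (WN (PM Nb Q c1 0) t0) (XN (PM Nb Q c1 0) t0) 0 :=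
    ⟨Inv_zero H, rfl, ⟨t0, c4', hc0, rfl, rfl⟩, by rw [e0, RR_zero]; simp⟩
  have e : K0 + K1 + K2 = (K2 + K1) + K0 := by omega
  rw [e]
  refine ploop_ok H K0 0 _ _ _ _ _ _ _ _ _ _ I0 (by omega) hl ?_
  intro J' Tl' Tu' ka' G' cs' g1 g2 g3
  rw [zero_add] at g1 g2 g3 ⊢
  refine nloop_ok H (Gp := G') (phi := phi) K1 K0 _ _ _ _ _ _ _ g1 (by simpa using g2) c3' g3 ?_
  intro Gm'' cs'' k1 k2
  exact tloop_ok H K2 _ _ _ k1 k2

/-- **soundness of the curve**, second form -/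
theorem curve_sound {Na Nb Q mp mn lp ln s0 s1 c1 phi K0 K1 K2 t0 st1 st2 cs N : ℕ}
    {u : Fin N → ℂ} (hu : ∀ k, ‖u k‖ ≤ 1) (hNa : Na ≤ N) (hNb : N ≤ Nb)
    (h1 : (av u).re ≤ mr mp mn) (h2 : mr lp ln ≤ (av u).re)
    (h3 : (s0 : ℝ) / 1099511627776 ≤ (av u).im) (h4 : (av u).im ≤ (s1 : ℝ) / 1099511627776)
    (h5 : 1 - ‖av u‖ ^ 2 ≤ (c1 : ℝ) / 1099511627776)
    (h : curve Na Nb Q mp mn lp ln s0 s1 c1 phi K0 K1 K2 t0 st1 st2 cs = true) {j : ℕ}
    (hj1 : 1 ≤ j) (hj2 : j ≤ K0 + K1 + K2) :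
    ((cs >>> (32 * (j - 1)) % 4294967296 : ℕ) : ℝ) / 2 ^ 24 ≤
      (N + 1) * ‖∫ t in (0 : ℝ)..(j : ℝ) / Q, qq u t‖ := by
  have hc := curve_CL hu hNa hNb h1 h2 h3 h4 h5 h (j - 1) (by omega)
  have e1 : clm cs (j - 1) = cs >>> (32 * (j - 1)) % 4294967296 := by
    unfold clm
    rw [Nat.shiftRight_eq_div_pow, pow_mul]
    norm_num
  have e2 : nd Q (0 + (j - 1) + 1) = (j : ℝ) / Q := by
    unfold nd
    rw [show 0 + (j - 1) + 1 = j by omega]
  rw [e1, e2] at hc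
  have e3 : (2 : ℝ) ^ 24 = 16777216 := by norm_num
  rw [e3]
  exact hc

end Pool.Agent.Lib.MP_af3a4a_an.P1.CHK.Curve
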