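import Pool.Agent.Lib.MP_af3a4a_an.P1.CHK.Curve.Real
import Pool.Agent.Lib.MP_af3a4a_an.P1.CHK.H80.F5b
import Pool.Agent.Lib.MP_af3a4a_an.P1.H80.OffRay

/-!
# The T2 curve: the cells (council 2, helper62)
-/

set_option autoImplicit false

namespace Pool.Agent.Lib.MP_af3a4a_an.P1.CHK.Curve

open MeasureTheory intervalIntegral
open Pool.Agent.Lib.MP_af3a4a_an.SV (av)
open Pool.Agent.Lib.MP_af3a4a_an.P1.H80
open Pool.Agent.Lib.MP_af3a4a_an.P1.CHK.H80

variable {N : ℕ} {u : Fin N → ℂ}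

/-- the real part which is accumulated -/
noncomputable def RR (u : Fin N → ℂ) (φ x : ℝ) : ℝ :=
  (Complex.exp ((φ : ℂ) * Complex.I) * ∫ t in (0 : ℝ)..x, qq u t).re

theorem RR_zero (φ : ℝ) : RR u φ 0 = 0 := by
  unfold RR
  simp

theorem RR_le_norm (φ x : ℝ) : RR u φ x ≤ ‖∫ t in (0 : ℝ)..x, qq u t‖ := re_le_norm' le_rfl

theorem re_av_abs (hN : 1 ≤ N) (hu : ∀ k, ‖u k‖ ≤ 1) : |(av u).re| ≤ 1 :=
  (Complex.abs_re_le_norm _).trans (av_norm_le hN hu)

theorem norm_qq_le_EN (hN : 1 ≤ N) (hu : ∀ k, ‖u k‖ ≤ 1) (x : ℝ) :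
    ‖qq u x‖ ≤ EN N (av u).re x := by
  have h := qq_sq_le hN hu x
  have hg : 0 ≤ gg (av u).re x := by
    unfold gg
    have h1 := re_av_abs hN hu
    have := sq_abs (av u).re
    have h2 : |(av u).re| ^ 2 ≤ 1 := pow_le_one₀ (abs_nonneg _) h1
    linarith only [this, h2, sq_nonneg (x - (av u).re)]
  have h2 : ‖qq u x‖ ^ 2 ≤ (EN N (av u).re x) ^ 2 := by
    refine h.trans (le_of_eq ?_)
    unfold EN
    rw [← pow_mul, mul_comm N 2, pow_mul, Real.sq_sqrt hg]
  exact (pow_le_pow_iff_left₀ (norm_nonneg _) (EN_nonneg _ _ _) two_ne_zero).1 h2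

/-- a cell with a bound of the modulus -/
theorem cell_abs {φ G a b I : ℝ} (hab : a ≤ b) (hG : G ≤ RR u φ a) {e : ℝ → ℝ}
    (hec : ContinuousOn e (Set.Icc a b))
    (he : ∀ x ∈ Set.Icc a b, ‖qq u x‖ ≤ e x) (hI : ∫ x in a..b, e x ≤ I) :
    G - I ≤ RR u φ b := by
  have h := re_step_fun (c := fun x => -(e x)) (I := -I) hab hec.neg hG (fun x hx => by
    have h1 := he x hx
    have h2 : |(Complex.exp ((φ : ℂ) * Complex.I) * qq u x).re| ≤ ‖qq u x‖ := by
      refine (Complex.abs_re_le_norm _).trans (le_of_eq ?_)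
      rw [norm_mul, Complex.norm_exp_ofReal_mul_I, one_mul]
    have h3 := (abs_le.1 h2).1
    linarith only [h1, h3]) (by rw [intervalIntegral.integral_neg]; linarith only [hI])
  unfold RR
  linarith only [h]

/-- a cell with an external cap -/
theorem cell_cap {φ G a b c : ℝ} (hab : a ≤ b) (hG : G ≤ RR u φ a)
    (hc : ∀ x ∈ Set.Icc a b, ‖qq u x‖ ≤ c) : G - (b - a) * c ≤ RR u φ b := by
  apply cell_abs hab hG (e := fun _ => c) continuousOn_const hc
  simp

/-- a cell with the AM-GM bound -/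
theorem cell_amgm (hN : 1 ≤ N) (hu : ∀ k, ‖u k‖ ≤ 1) {φ G a b Ea Eb : ℝ} (hab : a < b)
    (hG : G ≤ RR u φ a) (hEa : EN N (av u).re a ≤ Ea) (hEb : EN N (av u).re b ≤ Eb) :
    G - (b - a) * (Ea + Eb) / 2 ≤ RR u φ b := by
  apply cell_abs hab.le hG (e := EN N (av u).re) (EN_cont _ _).continuousOn
    (fun x _ => norm_qq_le_EN hN hu x)
  refine (EN_trap (re_av_abs hN hu) N hab).trans ?_
  have : 0 ≤ b - a := by linarith only [hab]
  have h2 := mul_le_mul_of_nonneg_left (add_le_add hEa hEb) this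
  linarith only [h2]

theorem one_sub_sq_nonneg (hN : 1 ≤ N) (hu : ∀ k, ‖u k‖ ≤ 1) : 0 ≤ 1 - ‖av u‖ ^ 2 := by
  have h := av_norm_le hN hu
  have := pow_le_one₀ (n := 2) (norm_nonneg _) h
  linarith only [this]

/-- a cell with `cos θ ≤ 0` -/
theorem cell_neg (hN : 1 ≤ N) (hu : ∀ k, ‖u k‖ ≤ 1) {φ G a b θ P Ea Eb : ℝ}
    (h0 : 0 ≤ a) (hab : a < b) (h1 : b < 1) (hG : G ≤ RR u φ a) (hθ0 : 0 ≤ θ)
    (hθ1 : θ ≤ Real.pi) (hcos : Real.cos θ ≤ 0)
    (hP : N * (1 - ‖av u‖ ^ 2) * JJ (av u).re b ≤ P)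
    (hψ : ∀ x ∈ Set.Icc a b, |φ - N * (av u).im * Th (av u).re x| ≤ θ - P * Real.sin θ)
    (hEa : EN N (av u).re a ≤ Ea) (hEb : EN N (av u).re b ≤ Eb) :
    G - (b - a) * (Ea + Eb) / 2 * (|Real.cos θ| * Real.exp (-(P * (1 - |Real.cos θ|)))) ≤
      RR u φ b := by
  have hm := re_av_abs hN hu
  have hr := one_sub_sq_nonneg hN hu
  have hNr : (0 : ℝ) ≤ N := Nat.cast_nonneg N
  have hJb := JJ_nonneg hm (h0.trans hab.le) h1
  have hP0 : 0 ≤ P := le_trans (by positivity) hP
  have habs : |Real.cos θ| = -Real.cos θ := abs_of_nonpos hcos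
  set κ := |Real.cos θ| * Real.exp (-(P * (1 - |Real.cos θ|))) with hκ
  have hκ0 : 0 ≤ κ := by rw [hκ]; positivity
  have h := re_step_fun (c := fun x => -(EN N (av u).re x * κ))
    (I := -((b - a) * (Ea + Eb) / 2 * κ)) hab.le
    ((((EN_cont _ _).mul_const κ).neg).continuousOn) hG (fun x hx => ?_) ?_
  · unfold RR
    linarith only [h]
  · have hx0 : 0 ≤ x := h0.trans hx.1
    have hx1 : x < 1 := hx.2.trans_lt h1
    have hρ : N * (1 - ‖av u‖ ^ 2) * JJ (av u).re x ≤ P := by
      refine le_trans ?_ hP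
      apply mul_le_mul_of_nonneg_left _ (by positivity)
      rw [JJ_sub hm hx0 hx.2 h1]
      have : 0 ≤ ∫ t in x..b, t * kk (av u).re t := by
        apply intervalIntegral.integral_nonneg hx.2
        intro t ht
        exact mul_nonneg (hx0.trans ht.1) (kk_pos hm (hx0.trans ht.1) (ht.2.trans_lt h1)).le
      linarith only [this]
    have hc : P * Real.cos θ ≤ 1 := by
      have := mul_nonneg hP0 (neg_nonneg.2 hcos)
      linarith only [h0, hab, h1, this]
    have h5 := f5_pi hN hu hx0 hx1 hθ0 hθ1 hρ hc (hψ x hx)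
    refine le_trans (le_of_eq ?_) h5
    have hg := gg_pos hm (by linarith only [h0, hab, h1, hx0] : -1 < x) hx1
    rw [sub_eq_add_neg, Real.exp_add, EN_exp hg, hκ, habs]
    have e : -(P * (1 + Real.cos θ)) = -(P * (1 - -Real.cos θ)) := by ring
    rw [e]
    ring
  · rw [intervalIntegral.integral_neg, intervalIntegral.integral_mul_const, neg_le_neg_iff]
    apply mul_le_mul_of_nonneg_right _ hκ0
    refine (EN_trap hm N hab).trans ?_
    have : 0 ≤ b - a := by linarith only [hab]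
    have h2 := mul_le_mul_of_nonneg_left (add_le_add hEa hEb) this
    linarith only [h2]

set_option maxHeartbeats 1000000 in
/-- a cell with `cos θ ≥ 0` -/
theorem cell_pos (hN : 1 ≤ N) (hu : ∀ k, ‖u k‖ ≤ 1) {φ G a b θ P γ c Ja Jb : ℝ}
    (h0 : 0 ≤ a) (hab : a < b) (h1 : b < 1) (hG : G ≤ RR u φ a) (hθ0 : 0 ≤ θ)
    (hθ1 : θ ≤ Real.pi) (hcos : 0 ≤ Real.cos θ)
    (hc1 : 1 - ‖av u‖ ^ 2 ≤ c) (hJa : JJ (av u).re a ≤ Ja) (hJb : JJ (av u).re b ≤ Jb)
    (hP : N * c * Jb ≤ P) (hc : P * Real.cos θ ≤ 1)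
    (hψ : ∀ x ∈ Set.Icc a b, |φ - N * (av u).im * Th (av u).re x| ≤ θ - P * Real.sin θ)
    (hγ0 : 0 < γ) (hγ : γ ≤ gg (av u).re ((a + b) / 2)) (hD : 16 * (b - a) ^ 2 ≤ γ) :
    G + (b - a) * (Real.exp (N * (Real.log γ / 2) - N * c * (Ja + Jb) / 2 * (1 + Real.cos θ)
      - N * (b - a) ^ 2 / (6 * γ)) * Real.cos θ) ≤ RR u φ b := by
  have hm := re_av_abs hN hu
  have hr := one_sub_sq_nonneg hN hu
  have hNr : (0 : ℝ) ≤ N := Nat.cast_nonneg N
  have hba : 0 < b - a := by linarith only [hab]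
  have hsin : 0 ≤ Real.sin θ := Real.sin_nonneg_of_nonneg_of_le_pi hθ0 hθ1
  set m := (av u).re with hmdef
  set r := 1 - ‖av u‖ ^ 2 with hrdef
  set M := (a + b) / 2 with hM
  have hJ0 : ∀ x ∈ Set.Icc a b, 0 ≤ JJ m x := fun x hx =>
    JJ_nonneg hm (h0.trans hx.1) (hx.2.trans_lt h1)
  have hJle : ∀ x ∈ Set.Icc a b, JJ m x ≤ JJ m b := by
    intro x hx
    rw [JJ_sub hm (h0.trans hx.1) hx.2 h1]
    have : 0 ≤ ∫ t in x..b, t * kk m t := by
      apply intervalIntegral.integral_nonneg hx.2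
      intro t ht
      exact mul_nonneg ((h0.trans hx.1).trans ht.1)
        (kk_pos hm ((h0.trans hx.1).trans ht.1) (ht.2.trans_lt h1)).le
    linarith only [this]
  have hJbb : JJ m b ∈ Set.Icc 0 Jb := ⟨hJ0 b ⟨hab.le, le_rfl⟩, hJb⟩
  have hρP : ∀ x ∈ Set.Icc a b, N * r * JJ m x ≤ P := by
    intro x hx
    refine le_trans ?_ hP
    have h2 : N * r * JJ m x ≤ N * r * Jb := by
      apply mul_le_mul_of_nonneg_left ((hJle x hx).trans hJb) (by positivity)
    have h3 : N * r * Jb ≤ N * c * Jb := by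
      apply mul_le_mul_of_nonneg_right _ (hJbb.1.trans hJbb.2)
      exact mul_le_mul_of_nonneg_left hc1 hNr
    linarith only [h2, h3]
  have hggc : ContinuousOn (fun x => Real.log (gg m x)) (Set.Icc a b) := by
    apply ContinuousOn.log (gg_cont m).continuousOn
    intro x hx
    exact (gg_pos hm (by linarith only [h0, hab, h1, hx, hx.1]) (hx.2.trans_lt h1)).ne'
  have hJc : ContinuousOn (JJ m) (Set.Icc a b) := by
    intro x hx
    exact (JJ_hasDerivAt hm (by linarith only [h0, hab, h1, hx, hx.1]) (hx.2.trans_lt h1)).continuousAt.continuousWithinAt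
  set F : ℝ → ℝ := fun x => N * (Real.log (gg m x) / 2) - N * r * JJ m x * (1 + Real.cos θ)
    with hF
  have hFc : ContinuousOn F (Set.Icc a b) :=
    (continuousOn_const.mul (hggc.div_const 2)).sub
      ((continuousOn_const.mul hJc).mul continuousOn_const)
  set L := N * (Real.log γ / 2) - N * c * (Ja + Jb) / 2 * (1 + Real.cos θ)
      - N * (b - a) ^ 2 / (6 * γ) with hL
  -- the mean of `F`
  have hmean : (b - a) * L ≤ ∫ x in a..b, F x := by
    have i1 : IntervalIntegrable (fun x => N * (Real.log (gg m x) / 2)) volume a b := by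
      apply ContinuousOn.intervalIntegrable
      rw [Set.uIcc_of_le hab.le]
      exact continuousOn_const.mul (hggc.div_const 2)
    have i2 : IntervalIntegrable (fun x => N * r * JJ m x * (1 + Real.cos θ)) volume a b := by
      apply ContinuousOn.intervalIntegrable
      rw [Set.uIcc_of_le hab.le]
      exact (continuousOn_const.mul hJc).mul continuousOn_const
    have e1 : ∫ x in a..b, F x = N / 2 * (∫ x in a..b, Real.log (gg m x)) -
        N * r * (∫ x in a..b, JJ m x) * (1 + Real.cos θ) := by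
      rw [hF, intervalIntegral.integral_sub i1 i2, intervalIntegral.integral_mul_const,
        intervalIntegral.integral_const_mul, intervalIntegral.integral_const_mul,
        intervalIntegral.integral_div]
      ring
    rw [e1]
    have e2 := log_gg_mean hm h0 hab h1 (hD.trans hγ)
    rw [← hM] at e2
    have e3 := trap (JJ_convex hm) ⟨h0, by linarith only [hab, h1]⟩ ⟨by linarith only [h0, hab], h1⟩ hab hJc
    have e4 : Real.log γ - (b - a) ^ 2 / (3 * γ) ≤
        Real.log (gg m M) - (b - a) ^ 2 / (3 * gg m M) := by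
      have f1 := Real.log_le_log hγ0 hγ
      have f2 : (b - a) ^ 2 / (3 * gg m M) ≤ (b - a) ^ 2 / (3 * γ) := by
        apply div_le_div_of_nonneg_left (by positivity) (by positivity)
        linarith only [hγ]
      linarith only [f1, f2]
    have e5 : (b - a) * (Real.log γ - (b - a) ^ 2 / (3 * γ)) ≤ ∫ x in a..b, Real.log (gg m x) :=
      (mul_le_mul_of_nonneg_left e4 hba.le).trans e2
    have e6 : r * ∫ x in a..b, JJ m x ≤ c * ((b - a) * (Ja + Jb) / 2) := by
      have g1 : ∫ x in a..b, JJ m x ≤ (b - a) * (Ja + Jb) / 2 := by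
        have := mul_le_mul_of_nonneg_left (add_le_add hJa hJb) hba.le
        linarith only [e3, this]
      have g2 : 0 ≤ (b - a) * (Ja + Jb) / 2 := by
        have g3 := hJ0 a ⟨le_rfl, hab.le⟩
        have g4 : 0 ≤ Ja + Jb := by linarith only [hJa, hJb, hJbb, g3, hJbb.1, hJbb.2]
        positivity
      exact (mul_le_mul_of_nonneg_left g1 hr).trans (mul_le_mul_of_nonneg_right hc1 g2)
    have hcos1 : 0 ≤ 1 + Real.cos θ := by linarith only [h0, hab, h1, hcos]
    have e7 := mul_le_mul_of_nonneg_left e5 (by positivity : (0 : ℝ) ≤ N / 2)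
    have e8 := mul_le_mul_of_nonneg_left (mul_le_mul_of_nonneg_right e6 hcos1) hNr
    rw [hL]
    have e9 : N * (b - a) ^ 2 / (6 * γ) = N / 2 * ((b - a) ^ 2 / (3 * γ)) := by
      field_simp
      norm_num
    rw [e9]
    have e10 : (b - a) * (N * (Real.log γ / 2) - N * c * (Ja + Jb) / 2 * (1 + Real.cos θ) -
        N / 2 * ((b - a) ^ 2 / (3 * γ))) =
        N / 2 * ((b - a) * (Real.log γ - (b - a) ^ 2 / (3 * γ))) -
          N * (c * ((b - a) * (Ja + Jb) / 2) * (1 + Real.cos θ)) := by ring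
    have e11 : N / 2 * (∫ x in a..b, Real.log (gg m x)) -
        N * r * (∫ x in a..b, JJ m x) * (1 + Real.cos θ) =
        N / 2 * (∫ x in a..b, Real.log (gg m x)) -
        N * (r * (∫ x in a..b, JJ m x) * (1 + Real.cos θ)) := by ring
    rw [e10, e11]
    linarith only [e7, e8]
  -- exponential
  have hexp : (b - a) * Real.exp L ≤ ∫ x in a..b, Real.exp (F x) := by
    have i3 : ContinuousOn (fun x => Real.exp (F x)) (Set.Icc a b) := hFc.rexp
    have h2 : ∫ x in a..b, Real.exp L * (1 + (F x - L)) ≤ ∫ x in a..b, Real.exp (F x) := by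
      apply intervalIntegral.integral_mono_on hab.le
      · apply ContinuousOn.intervalIntegrable
        rw [Set.uIcc_of_le hab.le]
        exact continuousOn_const.mul (continuousOn_const.add (hFc.sub continuousOn_const))
      · apply ContinuousOn.intervalIntegrable
        rwa [Set.uIcc_of_le hab.le]
      · intro x _
        have e : Real.exp (F x) = Real.exp L * Real.exp (F x - L) := by
          rw [← Real.exp_add]
          congr 1
          ring
        rw [e]
        apply mul_le_mul_of_nonneg_left _ (Real.exp_pos L).le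
        have := Real.add_one_le_exp (F x - L)
        linarith only [this]
    refine le_trans ?_ h2
    have iF : IntervalIntegrable F volume a b := by
      apply ContinuousOn.intervalIntegrable
      rwa [Set.uIcc_of_le hab.le]
    have e1 : ∫ x in a..b, Real.exp L * (1 + (F x - L)) =
        Real.exp L * ((b - a) + ((∫ x in a..b, F x) - (b - a) * L)) := by
      rw [intervalIntegral.integral_const_mul, intervalIntegral.integral_add
        (by simp) (iF.sub (by simp)), intervalIntegral.integral_sub iF (by simp)]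
      simp
    rw [e1]
    have := mul_nonneg (Real.exp_pos L).le (sub_nonneg.2 hmean)
    linarith only [this]
  have h := re_step_fun (c := fun x => Real.exp (F x) * Real.cos θ)
    (I := (b - a) * (Real.exp L * Real.cos θ)) hab.le (hFc.rexp.mul continuousOn_const) hG
    (fun x hx => ?_) ?_
  · exact h
  · have hx0 : 0 ≤ x := h0.trans hx.1
    have hx1 : x < 1 := hx.2.trans_lt h1
    have hρ := hρP x hx
    have hc' : (N * r * JJ m x) * Real.cos θ ≤ 1 :=
      (mul_le_mul_of_nonneg_right hρ hcos).trans hc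
    have hψ' : |φ - N * (av u).im * Th (av u).re x| ≤ θ - (N * r * JJ m x) * Real.sin θ := by
      have := mul_le_mul_of_nonneg_right hρ hsin
      linarith only [hψ, hx, this, hψ x hx]
    exact f5_pi hN hu hx0 hx1 hθ0 hθ1 le_rfl hc' hψ'
  · rw [intervalIntegral.integral_mul_const, ← mul_assoc]
    exact mul_le_mul_of_nonneg_right hexp hcos

end Pool.Agent.Lib.MP_af3a4a_an.P1.CHK.Curve
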