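import Pool.Agent.Lib.MP_af3a4a_an.P1.CHK.Curve.Core

/-!
# The T2 curve: second order cells (rules P and Q of helper88)
-/

set_option autoImplicit false

namespace Pool.Agent.Lib.MP_af3a4a_an.P1.CHK.Curve

open MeasureTheory intervalIntegral
open Pool.Agent.Lib.MP_af3a4a_an.SV (av)
open Pool.Agent.Lib.MP_af3a4a_an.P1.H80
open Pool.Agent.Lib.MP_af3a4a_an.P1.CHK.H80

/-! ### chords of `Th` -/

theorem mul_quarter {a b x : ℝ} : (x - a) * (b - x) ≤ (b - a) ^ 2 / 4 := by
  linarith only [sq_nonneg ((x - a) - (b - x))]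

theorem Th_chord_up {m : ℝ} (hm : |m| ≤ 1) {a b x : ℝ} (h0 : 0 ≤ a) (hab : a < b) (h1 : b < 1)
    (hx1 : a ≤ x) (hx2 : x ≤ b) :
    Th m x ≤ Th m a + (x - a) / (b - a) * ((b - a) / dd m a b) +
      (b - a) ^ 2 / 4 * max (a - m) 0 / gg m a ^ 2 := by
  have hba : 0 < b - a := by linarith only [hab]
  have hg := gg_pos hm (by linarith only [h0, hab, h1] : -1 < a) (by linarith only [hab, h1])
  have hdx := dd_pos hm h0 hx1 (hx2.trans_lt h1)
  have hdb := dd_pos hm h0 hab.le h1
  have h := Th_step_up hm h0 hx1 (hx2.trans_lt h1)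
  have e : (x - a) / dd m a x = (x - a) / (b - a) * ((b - a) / dd m a b) +
      (x - a) * (b - x) * (a - m) / (dd m a x * dd m a b) := by
    have e1 : dd m a b = dd m a x + (b - x) * (a - m) := by
      unfold dd
      ring
    rw [e1] at hdb ⊢
    field_simp
  have h2 : (x - a) * (b - x) * (a - m) / (dd m a x * dd m a b) ≤
      (b - a) ^ 2 / 4 * max (a - m) 0 / gg m a ^ 2 := by
    have hxx : 0 ≤ (x - a) * (b - x) := mul_nonneg (by linarith only [hx1]) (by linarith only [hx2])
    rcases le_total a m with h3 | h3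
    · have h4 : (x - a) * (b - x) * (a - m) / (dd m a x * dd m a b) ≤ 0 := by
        apply div_nonpos_of_nonpos_of_nonneg
        · exact mul_nonpos_of_nonneg_of_nonpos hxx (by linarith only [h3])
        · positivity
      have h5 : 0 ≤ (b - a) ^ 2 / 4 * max (a - m) 0 / gg m a ^ 2 := by
        have := le_max_right (a - m) 0
        positivity
      linarith only [h4, h5]
    · rw [max_eq_left (by linarith only [h3])]
      have ex : gg m a ≤ dd m a x := by
        have : dd m a x = gg m a + (x - a) * (a - m) := by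
          unfold dd gg
          ring
        have := mul_nonneg (by linarith only [hx1] : 0 ≤ x - a) (by linarith only [h3] : 0 ≤ a - m)
        linarith
      have eb : gg m a ≤ dd m a b := by
        have : dd m a b = gg m a + (b - a) * (a - m) := by
          unfold dd gg
          ring
        have := mul_nonneg hba.le (by linarith only [h3] : 0 ≤ a - m)
        linarith
      have h6 : gg m a ^ 2 ≤ dd m a x * dd m a b := by
        rw [sq]
        exact mul_le_mul ex eb hg.le hdx.le
      have h7 : (x - a) * (b - x) * (a - m) ≤ (b - a) ^ 2 / 4 * (a - m) :=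
        mul_le_mul_of_nonneg_right mul_quarter (by linarith only [h3])
      have h8 : 0 ≤ (b - a) ^ 2 / 4 * (a - m) := mul_nonneg (by positivity) (by linarith only [h3])
      exact div_le_div₀ h8 h7 (by positivity) h6
  rw [e] at h
  linarith only [h, h2]

theorem Th_mono_x {m : ℝ} (hm : |m| ≤ 1) {a x : ℝ} (h0 : 0 ≤ a) (h1 : a ≤ x) (h2 : x < 1) :
    Th m a ≤ Th m x := by
  have hmono : MonotoneOn (Th m) (Set.Icc a x) := by
    apply monotoneOn_of_deriv_nonneg (convex_Icc a x)
    · intro y hy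
      exact (Th_hasDerivAt hm (by linarith only [h0, hy, hy.1]) (hy.2.trans_lt h2)).continuousAt.continuousWithinAt
    · intro y hy
      rw [interior_Icc] at hy
      exact (Th_hasDerivAt hm (by linarith only [h0, hy, hy.1])
        (hy.2.trans h2)).differentiableAt.differentiableWithinAt
    · intro y hy
      rw [interior_Icc] at hy
      rw [(Th_hasDerivAt hm (by linarith only [h0, hy, hy.1]) (hy.2.trans h2)).deriv]
      have := gg_pos hm (by linarith only [h0, hy, hy.1] : -1 < y) (hy.2.trans h2)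
      positivity
  exact hmono ⟨le_rfl, h1⟩ ⟨h1, le_rfl⟩ h1

theorem Th_chord_dn {m : ℝ} (hm : |m| ≤ 1) {a b x τ : ℝ} (h0 : 0 ≤ a) (hab : a < b) (h1 : b < 1)
    (hx1 : a ≤ x) (hx2 : x ≤ b)
    (hτ : τ ≤ 0 ∨ τ ≤ (b - a) / dd m a b - ((b - a) / dd m a b) ^ 3 / 3) :
    Th m a + (x - a) / (b - a) * τ - (b - a) ^ 2 / 4 * max (m - a) 0 / dd m a b ^ 2 ≤ Th m x := by
  have hba : 0 < b - a := by linarith only [hab]
  have hg := gg_pos hm (by linarith only [h0, hab, h1] : -1 < a) (by linarith only [hab, h1])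
  have hdx := dd_pos hm h0 hx1 (hx2.trans_lt h1)
  have hdb := dd_pos hm h0 hab.le h1
  have hmono := Th_mono_x hm h0 hx1 (hx2.trans_lt h1)
  have ht0 : 0 ≤ (x - a) / (b - a) := div_nonneg (by linarith only [hx1]) hba.le
  have h5 : 0 ≤ (b - a) ^ 2 / 4 * max (m - a) 0 / dd m a b ^ 2 := by
    have := le_max_right (m - a) 0
    positivity
  set wb := (b - a) / dd m a b with hwb
  have hwb0 : 0 < wb := by rw [hwb]; positivity
  -- trivial cases
  by_cases hneg : τ ≤ 0
  · have := mul_nonpos_of_nonneg_of_nonpos ht0 hneg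
    linarith only [hmono, h5, this]
  push Not at hneg
  have hτ' : τ ≤ wb - wb ^ 3 / 3 := by
    rcases hτ with h | h
    · linarith only [hneg, h]
    · exact h
  have hw3 : 0 < 1 - wb ^ 2 / 3 := by
    have : 0 < wb * (1 - wb ^ 2 / 3) := by
      have e : wb * (1 - wb ^ 2 / 3) = wb - wb ^ 3 / 3 := by ring
      rw [e]
      linarith only [hneg, hτ']
    exact (mul_pos_iff_of_pos_left hwb0).1 this
  have h := Th_step_dn hm h0 hx1 (hx2.trans_lt h1)
  set wx := (x - a) / dd m a x with hwx
  have hwx0 : 0 ≤ wx := by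
    rw [hwx]
    exact div_nonneg (by linarith only [hx1]) hdx.le
  have e1 : dd m a b = dd m a x + (b - x) * (a - m) := by
    unfold dd
    ring
  have e : wx = (x - a) / (b - a) * wb -
      (x - a) * (b - x) * (m - a) / (dd m a x * dd m a b) := by
    rw [hwx, hwb]
    rw [e1] at hdb ⊢
    field_simp
    ring
  have hxx : 0 ≤ (x - a) * (b - x) := mul_nonneg (by linarith only [hx1]) (by linarith only [hx2])
  have hle : wx ≤ wb := by
    rw [hwx, hwb, div_le_div_iff₀ hdx hdb, e1]
    have e2 : dd m a x = gg m a + (x - a) * (a - m) := by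
      unfold dd gg
      ring
    have e3 : (b - a) * dd m a x - (x - a) * (dd m a x + (b - x) * (a - m)) =
        (b - x) * gg m a := by
      rw [e2]
      ring
    have := mul_nonneg (by linarith only [hx2] : 0 ≤ b - x) hg.le
    linarith only [e3, this]
  have he : (x - a) * (b - x) * (m - a) / (dd m a x * dd m a b) ≤
      (b - a) ^ 2 / 4 * max (m - a) 0 / dd m a b ^ 2 := by
    rcases le_total m a with h3 | h3
    · have h4 : (x - a) * (b - x) * (m - a) / (dd m a x * dd m a b) ≤ 0 := by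
        apply div_nonpos_of_nonpos_of_nonneg
        · exact mul_nonpos_of_nonneg_of_nonpos hxx (by linarith only [h3])
        · positivity
      linarith only [h5, h4]
    · rw [max_eq_left (by linarith only [h3])]
      have ex : dd m a b ≤ dd m a x := by
        have := mul_nonneg (by linarith only [hx2] : 0 ≤ b - x) (by linarith only [h3] : 0 ≤ m - a)
        linarith only [e1, this]
      have h6 : dd m a b ^ 2 ≤ dd m a x * dd m a b := by
        rw [sq]
        exact mul_le_mul_of_nonneg_right ex hdb.le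
      have h7 : (x - a) * (b - x) * (m - a) ≤ (b - a) ^ 2 / 4 * (m - a) :=
        mul_le_mul_of_nonneg_right mul_quarter (by linarith only [h3])
      have h8 : 0 ≤ (b - a) ^ 2 / 4 * (m - a) := mul_nonneg (by positivity) (by linarith only [h3])
      exact div_le_div₀ h8 h7 (by positivity) h6
  -- `wx (1 - wb²/3) ≤ wx - wx³/3`
  have h9 : wx * (1 - wb ^ 2 / 3) ≤ wx - wx ^ 3 / 3 := by
    have := mul_nonneg hwx0 (mul_nonneg (sub_nonneg.2 hle) (add_nonneg hwx0 hwb0.le))
    linarith only [this]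
  have h10 : (x - a) / (b - a) * τ ≤ (x - a) / (b - a) * wb * (1 - wb ^ 2 / 3) := by
    have : wb * (1 - wb ^ 2 / 3) = wb - wb ^ 3 / 3 := by ring
    rw [mul_assoc, this]
    exact mul_le_mul_of_nonneg_left hτ' ht0
  set E := (x - a) * (b - x) * (m - a) / (dd m a x * dd m a b) with hE
  have h11 : E * (1 - wb ^ 2 / 3) ≤ (b - a) ^ 2 / 4 * max (m - a) 0 / dd m a b ^ 2 := by
    rcases le_total E 0 with h12 | h12
    · have := mul_nonpos_of_nonpos_of_nonneg h12 hw3.le
      linarith only [h5, this]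
    · have : E * (1 - wb ^ 2 / 3) ≤ E * 1 := by
        apply mul_le_mul_of_nonneg_left _ h12
        have := sq_nonneg wb
        linarith only [this]
      linarith only [he, this]
  have h12 : wx * (1 - wb ^ 2 / 3) = (x - a) / (b - a) * wb * (1 - wb ^ 2 / 3) -
      E * (1 - wb ^ 2 / 3) := by
    rw [e]
    ring
  linarith only [h, h9, h10, h11, h12]

/-! ### chords -/

/-- the chord through `(a, A)` and `(b, B)` -/
noncomputable def ch (a b A B x : ℝ) : ℝ := (A * (b - x) + B * (x - a)) / (b - a)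

theorem ch_eq {a b A B x : ℝ} :
    ch a b A B x = (b - x) / (b - a) * A + (x - a) / (b - a) * B := by
  unfold ch
  ring

theorem ch_cont (a b A B : ℝ) : Continuous (ch a b A B) := by
  unfold ch
  fun_prop

theorem ch_mono {a b A B A' B' x : ℝ} (hab : a < b) (hx1 : a ≤ x) (hx2 : x ≤ b) (hA : A ≤ A')
    (hB : B ≤ B') : ch a b A B x ≤ ch a b A' B' x := by
  unfold ch
  apply div_le_div_of_nonneg_right _ (by linarith only [hab])
  have h1 := mul_le_mul_of_nonneg_right hA (by linarith only [hx2] : 0 ≤ b - x)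
  have h2 := mul_le_mul_of_nonneg_right hB (by linarith only [hx1] : 0 ≤ x - a)
  linarith only [h1, h2]

theorem ch_nonneg {a b A B x : ℝ} (hab : a < b) (hx1 : a ≤ x) (hx2 : x ≤ b) (hA : 0 ≤ A)
    (hB : 0 ≤ B) : 0 ≤ ch a b A B x := by
  unfold ch
  apply div_nonneg _ (by linarith only [hab])
  have h1 := mul_nonneg hA (by linarith only [hx2] : 0 ≤ b - x)
  have h2 := mul_nonneg hB (by linarith only [hx1] : 0 ≤ x - a)
  linarith only [h1, h2]

theorem ch_add_const {a b A B x c : ℝ} (hab : a < b) : ch a b (A + c) (B + c) x = ch a b A B x + c := by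
  unfold ch
  have : b - a ≠ 0 := by linarith only [hab]
  field_simp
  ring

theorem ch_mul {a b A B x c : ℝ} : ch a b (c * A) (c * B) x = c * ch a b A B x := by
  unfold ch
  ring

theorem ch_add {a b A B A' B' x : ℝ} :
    ch a b (A + A') (B + B') x = ch a b A B x + ch a b A' B' x := by
  unfold ch
  ring

theorem ch_int {a b A B : ℝ} (hab : a < b) :
    ∫ x in a..b, ch a b A B x = (b - a) * (A + B) / 2 := by
  have hba : b - a ≠ 0 := by linarith only [hab]
  have hd : ∀ t ∈ Set.uIcc a b, HasDerivAt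
      (fun t : ℝ => (A * (b * t - t ^ 2 / 2) + B * (t ^ 2 / 2 - a * t)) / (b - a))
      (ch a b A B t) t := by
    intro t _
    have e1 := ((hasDerivAt_id t).const_mul b).sub (((hasDerivAt_id t).pow 2).div_const 2)
    have e2 := (((hasDerivAt_id t).pow 2).div_const 2).sub ((hasDerivAt_id t).const_mul a)
    have e3 := ((e1.const_mul A).add (e2.const_mul B)).div_const (b - a)
    refine e3.congr_deriv ?_
    unfold ch
    simp
  rw [intervalIntegral.integral_eq_sub_of_hasDerivAt hd ((ch_cont _ _ _ _).intervalIntegrable _ _)]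
  field_simp
  ring

/-- integral of a product of two chords -/
theorem ch_ch_int {a b A B C D : ℝ} (hab : a < b) :
    ∫ x in a..b, ch a b A B x * ch a b C D x =
      (b - a) * (2 * (A * C + B * D) + (A * D + B * C)) / 6 := by
  have hba : b - a ≠ 0 := by linarith only [hab]
  have hd : ∀ t ∈ Set.uIcc a b, HasDerivAt
      (fun t : ℝ => (A * C * ((t - b) ^ 3 / 3) +
        (A * D + B * C) * (-((t - a) ^ 3 / 3) + (b - a) * (t - a) ^ 2 / 2) +
        B * D * ((t - a) ^ 3 / 3)) / (b - a) ^ 2)
      (ch a b A B t * ch a b C D t) t := by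
    intro t _
    have f1 : HasDerivAt (fun t => t - b) 1 t := (hasDerivAt_id t).sub_const b
    have f2 : HasDerivAt (fun t => t - a) 1 t := (hasDerivAt_id t).sub_const a
    have e1 := ((f1.pow 3).div_const 3).const_mul (A * C)
    have e2 := (((f2.pow 3).div_const 3).neg.add
      (((f2.pow 2).const_mul (b - a)).div_const 2)).const_mul (A * D + B * C)
    have e3 := ((f2.pow 3).div_const 3).const_mul (B * D)
    refine (((e1.add e2).add e3).div_const ((b - a) ^ 2)).congr_deriv ?_
    unfold ch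
    field_simp
    simp
    ring
  rw [intervalIntegral.integral_eq_sub_of_hasDerivAt hd]
  · field_simp
    ring
  · exact ((ch_cont _ _ _ _).mul (ch_cont _ _ _ _)).intervalIntegrable _ _

theorem ch_le_convex {f : ℝ → ℝ} {s : Set ℝ} (hf : ConvexOn ℝ s f) {a b A B x : ℝ} (ha : a ∈ s)
    (hb : b ∈ s) (hab : a < b) (h1 : a ≤ x) (h2 : x ≤ b) (hA : f a ≤ A) (hB : f b ≤ B) :
    f x ≤ ch a b A B x :=
  (chord hf ha hb hab h1 h2).trans (ch_mono hab h1 h2 hA hB)

/-- `Re (e^{iφ} q)` through the representation of `q` -/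
theorem re_repr {N : ℕ} (hN : 1 ≤ N) {u : Fin N → ℂ} (hu : ∀ k, ‖u k‖ ≤ 1) {x P : ℝ} (φ : ℝ)
    (h0 : 0 ≤ x) (h1 : x < 1) (hρ : N * (1 - ‖av u‖ ^ 2) * JJ (av u).re x ≤ P) :
    ∃ Z : ℂ, ‖Z‖ ≤ P ∧ (Complex.exp ((φ : ℂ) * Complex.I) * qq u x).re =
      Real.exp (N * (Real.log (gg (av u).re x) / 2) - P) *
        (Complex.exp (Z + ((φ - N * (av u).im * Th (av u).re x : ℝ) : ℂ) * Complex.I)).re := by
  obtain ⟨Z, hZ, hq⟩ := q_repr5 hN hu h0 h1
  set ρ := N * (1 - ‖av u‖ ^ 2) * JJ (av u).re x with hρdef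
  refine ⟨Z + ((P - ρ : ℝ) : ℂ), ?_, ?_⟩
  · refine (norm_add_le _ _).trans ?_
    rw [Complex.norm_real, Real.norm_of_nonneg (by linarith only [hρ])]
    linarith only [hZ]
  · rw [← Complex.re_ofReal_mul, hq]
    congr 1
    rw [Complex.ofReal_exp, ← Complex.exp_add, ← Complex.exp_add]
    congr 1
    push_cast
    ring

section cells

variable {N : ℕ} {u : Fin N → ℂ}

set_option maxHeartbeats 1000000 in
/-- **cell of rule P** -/
theorem cellP (hN : 1 ≤ N) (hu : ∀ k, ‖u k‖ ≤ 1) {φ G a b θa θb Pa Pb Ψa Ψb Xa Xb γ : ℝ}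
    (h0 : 0 ≤ a) (hab : a < b) (h1 : b < 1) (hG : G ≤ RR u φ a)
    (ha0 : 0 ≤ θa) (ha1 : θa < Real.pi / 2) (hb0 : 0 ≤ θb) (hb1 : θb < Real.pi / 2)
    (hPa : 0 ≤ Pa) (hPb : 0 ≤ Pb) (hca : Pa * Real.cos θa ≤ 1) (hcb : Pb * Real.cos θb ≤ 1)
    (hΨa0 : 0 ≤ Ψa) (hΨb0 : 0 ≤ Ψb)
    (hΨa : Ψa ≤ θa - Pa * Real.sin θa) (hΨb : Ψb ≤ θb - Pb * Real.sin θb)
    (hρ : ∀ x ∈ Set.Icc a b, N * (1 - ‖av u‖ ^ 2) * JJ (av u).re x ≤ ch a b Pa Pb x)
    (hψ : ∀ x ∈ Set.Icc a b, |φ - N * (av u).im * Th (av u).re x| ≤ ch a b Ψa Ψb x)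
    (hXa : Pa * (1 + Real.cos θa) - Real.log (Real.cos θa) ≤ Xa)
    (hXb : Pb * (1 + Real.cos θb) - Real.log (Real.cos θb) ≤ Xb)
    (hγ0 : 0 < γ) (hγ : γ ≤ gg (av u).re ((a + b) / 2)) (hD : 16 * (b - a) ^ 2 ≤ γ) :
    G + (b - a) * Real.exp (N * (Real.log γ / 2) - (Xa + Xb) / 2 -
      N * (b - a) ^ 2 / (6 * γ)) ≤ RR u φ b := by
  have hm := re_av_abs hN hu
  have hNr : (0 : ℝ) ≤ N := Nat.cast_nonneg N
  have hba : 0 < b - a := by linarith only [hab]
  set m := (av u).re with hmdef
  set M := (a + b) / 2 with hM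
  have hggc : ContinuousOn (fun x => Real.log (gg m x)) (Set.Icc a b) := by
    apply ContinuousOn.log (gg_cont m).continuousOn
    intro x hx
    exact (gg_pos hm (by linarith only [h0, hab, h1, hx, hx.1]) (hx.2.trans_lt h1)).ne'
  set F : ℝ → ℝ := fun x => N * (Real.log (gg m x) / 2) - ch a b Xa Xb x with hF
  have hFc : ContinuousOn F (Set.Icc a b) :=
    (continuousOn_const.mul (hggc.div_const 2)).sub (ch_cont _ _ _ _).continuousOn
  set L := N * (Real.log γ / 2) - (Xa + Xb) / 2 - N * (b - a) ^ 2 / (6 * γ) with hL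
  have hmean : (b - a) * L ≤ ∫ x in a..b, F x := by
    have i1 : IntervalIntegrable (fun x => N * (Real.log (gg m x) / 2)) volume a b := by
      apply ContinuousOn.intervalIntegrable
      rw [Set.uIcc_of_le hab.le]
      exact continuousOn_const.mul (hggc.div_const 2)
    have e1 : ∫ x in a..b, F x = N / 2 * (∫ x in a..b, Real.log (gg m x)) -
        (b - a) * (Xa + Xb) / 2 := by
      rw [hF, intervalIntegral.integral_sub i1 ((ch_cont _ _ _ _).intervalIntegrable _ _),
        ch_int hab, intervalIntegral.integral_const_mul, intervalIntegral.integral_div]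
      ring
    rw [e1]
    have e2 := log_gg_mean hm h0 hab h1 (hD.trans hγ)
    rw [← hM] at e2
    have e4 : Real.log γ - (b - a) ^ 2 / (3 * γ) ≤
        Real.log (gg m M) - (b - a) ^ 2 / (3 * gg m M) := by
      have f1 := Real.log_le_log hγ0 hγ
      have f2 : (b - a) ^ 2 / (3 * gg m M) ≤ (b - a) ^ 2 / (3 * γ) := by
        apply div_le_div_of_nonneg_left (by positivity) (by positivity)
        linarith only [hγ]
      linarith only [f1, f2]
    have e5 : (b - a) * (Real.log γ - (b - a) ^ 2 / (3 * γ)) ≤ ∫ x in a..b, Real.log (gg m x) :=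
      (mul_le_mul_of_nonneg_left e4 hba.le).trans e2
    have e7 := mul_le_mul_of_nonneg_left e5 (by positivity : (0 : ℝ) ≤ N / 2)
    rw [hL]
    have e9 : N * (b - a) ^ 2 / (6 * γ) = N / 2 * ((b - a) ^ 2 / (3 * γ)) := by
      field_simp
      norm_num
    rw [e9]
    have e10 : (b - a) * (N * (Real.log γ / 2) - (Xa + Xb) / 2 -
        N / 2 * ((b - a) ^ 2 / (3 * γ))) =
        N / 2 * ((b - a) * (Real.log γ - (b - a) ^ 2 / (3 * γ))) - (b - a) * (Xa + Xb) / 2 := by
      ring
    rw [e10]
    linarith only [e7]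
  have hexp : (b - a) * Real.exp L ≤ ∫ x in a..b, Real.exp (F x) := by
    have i3 : ContinuousOn (fun x => Real.exp (F x)) (Set.Icc a b) := hFc.rexp
    have h2 : ∫ x in a..b, Real.exp L * (1 + (F x - L)) ≤ ∫ x in a..b, Real.exp (F x) := by
      apply intervalIntegral.integral_mono_on hab.le
      · apply ContinuousOn.intervalIntegrable
        rw [Set.uIcc_of_le hab.le]
        exact continuousOn_const.mul (continuousOn_const.add (hFc.sub continuousOn_const))
      · apply ContinuousOn.intervalIntegrable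
        rwa [Set.uIcc_of_le hab.le]
      · intro x _
        have e : Real.exp (F x) = Real.exp L * Real.exp (F x - L) := by
          rw [← Real.exp_add]
          congr 1
          ring
        rw [e]
        apply mul_le_mul_of_nonneg_left _ (Real.exp_pos L).le
        have := Real.add_one_le_exp (F x - L)
        linarith only [this]
    refine le_trans ?_ h2
    have iF : IntervalIntegrable F volume a b := by
      apply ContinuousOn.intervalIntegrable
      rwa [Set.uIcc_of_le hab.le]
    have e1 : ∫ x in a..b, Real.exp L * (1 + (F x - L)) =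
        Real.exp L * ((b - a) + ((∫ x in a..b, F x) - (b - a) * L)) := by
      rw [intervalIntegral.integral_const_mul, intervalIntegral.integral_add
        (by simp) (iF.sub (by simp)), intervalIntegral.integral_sub iF (by simp)]
      simp
    rw [e1]
    have := mul_nonneg (Real.exp_pos L).le (sub_nonneg.2 hmean)
    linarith only [this]
  have h := re_step_fun (c := fun x => Real.exp (F x))
    (I := (b - a) * Real.exp L) hab.le hFc.rexp hG (fun x hx => ?_) hexp
  · exact h
  · have hx0 : 0 ≤ x := h0.trans hx.1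
    have hx1 : x < 1 := hx.2.trans_lt h1
    obtain ⟨Z, hZ, hre⟩ := re_repr hN hu φ hx0 hx1 (hρ x hx)
    rw [hre]
    have hs : 0 ≤ (b - x) / (b - a) := div_nonneg (by linarith only [hx, hx.2]) hba.le
    have ht : 0 ≤ (x - a) / (b - a) := div_nonneg (by linarith only [hx, hx.1]) hba.le
    have hst : (b - x) / (b - a) + (x - a) / (b - a) = 1 := by
      rw [← add_div]
      have : b - x + (x - a) = b - a := by ring
      rw [this, div_self hba.ne']
    have hψx := hψ x hx
    rw [ch_eq] at hψx hZ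
    have hP := ruleP hs ht hst ha0 ha1 hb0 hb1 hPa hPb hca hcb hΨa0 hΨb0 hΨa hΨb hψx hZ
    refine le_trans ?_ (mul_le_mul_of_nonneg_left hP (Real.exp_pos _).le)
    rw [← Real.exp_add]
    apply Real.exp_le_exp.2
    have e1 := mul_le_mul_of_nonneg_left hXa hs
    have e2 := mul_le_mul_of_nonneg_left hXb ht
    simp only [hF]
    rw [ch_eq, ch_eq]
    linarith only [e1, e2]

set_option maxHeartbeats 1000000 in
/-- **cell of rule Q** -/
theorem cellQ (hN : 1 ≤ N) (hu : ∀ k, ‖u k‖ ≤ 1) {φ G a b α Pa Pb Ψa Ψb δ Ea Eb La Lb K : ℝ}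
    (k : ℕ) (h0 : 0 ≤ a) (hab : a < b) (h1 : b < 1) (hG : G ≤ RR u φ a)
    (ha0 : 0 ≤ α) (ha1 : α < Real.pi / 2)
    (hρ : ∀ x ∈ Set.Icc a b, N * (1 - ‖av u‖ ^ 2) * JJ (av u).re x ≤ ch a b Pa Pb x)
    (hψ : ∀ x ∈ Set.Icc a b,
      |φ + 2 * Real.pi * k - N * (av u).im * Th (av u).re x| ≤ ch a b Ψa Ψb x + δ)
    (hLa : Real.exp (Pa * (1 / Real.cos α - 1) + Real.tan α * (Ψa + α - Real.pi)) ≤ La)
    (hLb : Real.exp (Pb * (1 / Real.cos α - 1) + Real.tan α * (Ψb + α - Real.pi)) ≤ Lb)
    (hEa : EN N (av u).re a ≤ Ea) (hEb : EN N (av u).re b ≤ Eb)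
    (hK : Real.exp (Real.tan α * δ) ≤ K) :
    G - (b - a) * (Real.cos α * (2 * (Ea * La + Eb * Lb) + (Ea * Lb + Eb * La)) / 6 * K) ≤
      RR u φ b := by
  have hm := re_av_abs hN hu
  have hba : 0 < b - a := by linarith only [hab]
  have hpi := Real.pi_pos
  have hcos : 0 < Real.cos α := Real.cos_pos_of_mem_Ioo ⟨by linarith only [ha0, ha1], ha1⟩
  have hsin : 0 ≤ Real.sin α := Real.sin_nonneg_of_nonneg_of_le_pi ha0 (by linarith only [ha0, ha1])
  have htan : 0 ≤ Real.tan α := by
    rw [Real.tan_eq_sin_div_cos]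
    positivity
  have hsec : 0 ≤ 1 / Real.cos α - 1 := by
    rw [sub_nonneg, le_div_iff₀ hcos, one_mul]
    exact Real.cos_le_one α
  have hK0 : 0 < K := lt_of_lt_of_le (Real.exp_pos _) hK
  have hLa0 : 0 < La := lt_of_lt_of_le (Real.exp_pos _) hLa
  have hLb0 : 0 < Lb := lt_of_lt_of_le (Real.exp_pos _) hLb
  have hEa0 : 0 ≤ Ea := (EN_nonneg _ _ _).trans hEa
  have hEb0 : 0 ≤ Eb := (EN_nonneg _ _ _).trans hEb
  set m := (av u).re with hmdef
  have h := re_step_fun
    (c := fun x => -(Real.cos α * K * (ch a b Ea Eb x * ch a b La Lb x)))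
    (I := -((b - a) * (Real.cos α * (2 * (Ea * La + Eb * Lb) + (Ea * Lb + Eb * La)) / 6 * K)))
    hab.le ((continuous_const.mul ((ch_cont _ _ _ _).mul (ch_cont _ _ _ _))).neg.continuousOn)
    hG (fun x hx => ?_) ?_
  · unfold RR
    linarith only [h]
  · have hx0 : 0 ≤ x := h0.trans hx.1
    have hx1 : x < 1 := hx.2.trans_lt h1
    obtain ⟨Z, hZ, hre⟩ := re_repr hN hu (φ + 2 * Real.pi * k) hx0 hx1 (hρ x hx)
    have hper : Complex.exp (((φ + 2 * Real.pi * k : ℝ) : ℂ) * Complex.I) =
        Complex.exp ((φ : ℂ) * Complex.I) := by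
      have e : ((φ + 2 * Real.pi * k : ℝ) : ℂ) * Complex.I =
          (φ : ℂ) * Complex.I + ((k : ℤ) : ℂ) * (2 * Real.pi * Complex.I) := by
        push_cast
        ring
      rw [e, Complex.exp_add, Complex.exp_int_mul_two_pi_mul_I, mul_one]
    rw [hper] at hre
    rw [hre]
    have hQ := ruleQ (ψ := φ + 2 * Real.pi * k - N * (av u).im * Th m x) ha0 ha1 hZ
    set R := (Complex.exp (Z + ((φ + 2 * Real.pi * k - N * (av u).im * Th m x : ℝ) : ℂ) *
      Complex.I)).re with hR
    have hg := gg_pos hm (by linarith only [h0, hab, h1, hx0] : -1 < x) hx1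
    have hE : EN N m x ≤ ch a b Ea Eb x :=
      ch_le_convex (EN_convex hm N) (Set.mem_univ _) (Set.mem_univ _) hab hx.1 hx.2 hEa hEb
    set la := Pa * (1 / Real.cos α - 1) + Real.tan α * (Ψa + α - Real.pi) with hla
    set lb := Pb * (1 / Real.cos α - 1) + Real.tan α * (Ψb + α - Real.pi) with hlb
    have hL : Real.exp (ch a b la lb x) ≤ ch a b La Lb x := by
      have hs : 0 ≤ (b - x) / (b - a) := div_nonneg (by linarith only [hx, hx.2]) hba.le
      have ht : 0 ≤ (x - a) / (b - a) := div_nonneg (by linarith only [hx, hx.1]) hba.le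
      have hst : (b - x) / (b - a) + (x - a) / (b - a) = 1 := by
        rw [← add_div]
        have : b - x + (x - a) = b - a := by ring
        rw [this, div_self hba.ne']
      have h3 := convexOn_exp.2 (Set.mem_univ la) (Set.mem_univ lb) hs ht hst
      simp only [smul_eq_mul] at h3
      rw [ch_eq, ch_eq]
      refine h3.trans ?_
      exact add_le_add (mul_le_mul_of_nonneg_left hLa hs) (mul_le_mul_of_nonneg_left hLb ht)
    -- the exponent
    have hexp : (N * (Real.log (gg m x) / 2) - ch a b Pa Pb x) + (ch a b Pa Pb x / Real.cos α +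
        Real.tan α * (|φ + 2 * Real.pi * k - N * (av u).im * Th m x| + α - Real.pi)) ≤
        N * (Real.log (gg m x) / 2) + ch a b la lb x + Real.tan α * δ := by
      have h4 := mul_le_mul_of_nonneg_left (hψ x hx) htan
      have h5 : ch a b la lb x = ch a b Pa Pb x * (1 / Real.cos α - 1) +
          Real.tan α * (ch a b Ψa Ψb x + α - Real.pi) := by
        rw [hla, hlb]
        unfold ch
        field_simp
        ring
      rw [h5]
      have h6 : ch a b Pa Pb x / Real.cos α = ch a b Pa Pb x * (1 / Real.cos α) := by ring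
      rw [h6]
      linarith only [h4]
    have hfin : -(Real.exp (N * (Real.log (gg m x) / 2) - ch a b Pa Pb x) * R) ≤
        Real.cos α * K * (ch a b Ea Eb x * ch a b La Lb x) := by
      calc -(Real.exp (N * (Real.log (gg m x) / 2) - ch a b Pa Pb x) * R) =
          Real.exp (N * (Real.log (gg m x) / 2) - ch a b Pa Pb x) * -R := by ring
        _ ≤ Real.exp (N * (Real.log (gg m x) / 2) - ch a b Pa Pb x) * (Real.cos α * Real.exp
            (ch a b Pa Pb x / Real.cos α +
        Real.tan α * (|φ + 2 * Real.pi * k - N * (av u).im * Th m x| + α - Real.pi))) :=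
            mul_le_mul_of_nonneg_left hQ (Real.exp_pos _).le
        _ = Real.cos α * Real.exp ((N * (Real.log (gg m x) / 2) - ch a b Pa Pb x) +
            (ch a b Pa Pb x / Real.cos α +
        Real.tan α * (|φ + 2 * Real.pi * k - N * (av u).im * Th m x| + α - Real.pi))) := by
            rw [Real.exp_add (N * (Real.log (gg m x) / 2) - ch a b Pa Pb x)]
            ring
        _ ≤ Real.cos α * Real.exp (N * (Real.log (gg m x) / 2) + ch a b la lb x +
            Real.tan α * δ) := by
            apply mul_le_mul_of_nonneg_left _ hcos.le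
            exact Real.exp_le_exp.2 hexp
        _ = Real.cos α * (EN N m x * Real.exp (ch a b la lb x) * Real.exp (Real.tan α * δ)) := by
            rw [Real.exp_add, Real.exp_add, EN_exp hg]
        _ ≤ Real.cos α * (ch a b Ea Eb x * ch a b La Lb x * K) := by
            apply mul_le_mul_of_nonneg_left _ hcos.le
            apply mul_le_mul _ hK (Real.exp_pos _).le
            · exact mul_nonneg (ch_nonneg hab hx.1 hx.2 hEa0 hEb0)
                (ch_nonneg hab hx.1 hx.2 hLa0.le hLb0.le)
            · exact mul_le_mul hE hL (Real.exp_pos _).le (ch_nonneg hab hx.1 hx.2 hEa0 hEb0)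
        _ = _ := by ring
    linarith only [hfin]
  · rw [intervalIntegral.integral_neg, intervalIntegral.integral_const_mul, ch_ch_int hab,
      neg_le_neg_iff]
    apply le_of_eq
    ring

end cells

end Pool.Agent.Lib.MP_af3a4a_an.P1.CHK.Curve
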