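import Pool.Agent.Lib.MP_af3a4a_an.P1.CHK.Curve.Cells

/-!
# The T2 curve: pointwise bounds (rules P and Q of helper88)
-/

set_option autoImplicit false

namespace Pool.Agent.Lib.MP_af3a4a_an.P1.CHK.Curve

open Pool.Agent.Lib.MP_af3a4a_an.SV (av)
open Pool.Agent.Lib.MP_af3a4a_an.P1.H80
open Pool.Agent.Lib.MP_af3a4a_an.P1.CHK.H80

/-! ### rule P -/

theorem re_exp_add (Z : ℂ) (ψ : ℝ) :
    (Complex.exp (Z + (ψ : ℂ) * Complex.I)).re = Real.exp Z.re * Real.cos (Z.im + ψ) := by
  rw [Complex.exp_re]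
  simp

/-- weighted version for two values -/
theorem cos_geom {c d s t : ℝ} (hc : |c| ≤ Real.pi / 2) (hd : |d| ≤ Real.pi / 2)
    (hc0 : 0 < Real.cos c) (hd0 : 0 < Real.cos d) (hs : 0 ≤ s) (ht : 0 ≤ t) (hst : s + t = 1) :
    Real.exp (s * Real.log (Real.cos c) + t * Real.log (Real.cos d)) ≤
      Real.cos (s * c + t * d) := by
  have h1 := strictConcaveOn_cos_Icc.concaveOn.2 (abs_le.1 hc) (abs_le.1 hd) hs ht hst
  simp only [smul_eq_mul] at h1
  have h2 := strictConcaveOn_log_Ioi.concaveOn.2 (Set.mem_Ioi.2 hc0) (Set.mem_Ioi.2 hd0) hs ht hst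
  simp only [smul_eq_mul] at h2
  have h3 : 0 < s * Real.cos c + t * Real.cos d := by
    rcases hs.eq_or_lt with h | h
    · have : t = 1 := by linarith
      rw [← h, this]
      linarith
    · have := mul_pos h hc0
      have := mul_nonneg ht hd0.le
      linarith
  calc Real.exp (s * Real.log (Real.cos c) + t * Real.log (Real.cos d)) ≤
      Real.exp (Real.log (s * Real.cos c + t * Real.cos d)) := Real.exp_le_exp.2 h2
    _ = s * Real.cos c + t * Real.cos d := Real.exp_log h3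
    _ ≤ _ := h1

/-- scaling of a number bounded by a convex combination -/
theorem split_le {E : Type*} [NormedAddCommGroup E] [NormedSpace ℝ E] {s t A B : ℝ} {z : E}
    (hs : 0 ≤ s) (ht : 0 ≤ t) (hA : 0 ≤ A) (hB : 0 ≤ B) (hz : ‖z‖ ≤ s * A + t * B) :
    ∃ a b : E, ‖a‖ ≤ A ∧ ‖b‖ ≤ B ∧ s • a + t • b = z := by
  set P := s * A + t * B with hP
  have hP0 : 0 ≤ P := by positivity
  rcases hP0.eq_or_lt with h | h
  · rw [← h] at hz
    have hz0 : z = 0 := norm_le_zero_iff.1 hz
    exact ⟨0, 0, by simpa using hA, by simpa using hB, by simp [hz0]⟩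
  · refine ⟨(A / P) • z, (B / P) • z, ?_, ?_, ?_⟩
    · rw [norm_smul, Real.norm_of_nonneg (by positivity), div_mul_eq_mul_div, div_le_iff₀ h]
      exact mul_le_mul_of_nonneg_left hz hA
    · rw [norm_smul, Real.norm_of_nonneg (by positivity), div_mul_eq_mul_div, div_le_iff₀ h]
      exact mul_le_mul_of_nonneg_left hz hB
    · rw [smul_smul, smul_smul, ← add_smul]
      have : s * (A / P) + t * (B / P) = 1 := by
        field_simp
        exact hP.symm
      rw [this, one_smul]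

/-- the data at one node -/
theorem node_bound {P θ ψ : ℝ} {Z : ℂ} (h0 : 0 ≤ θ) (h1 : θ < Real.pi / 2) (hP : 0 ≤ P)
    (hc : P * Real.cos θ ≤ 1) (hψ : |ψ| ≤ θ - P * Real.sin θ) (hZ : ‖Z‖ ≤ P) :
    |Z.im + ψ| ≤ Real.pi / 2 ∧ 0 < Real.cos (Z.im + ψ) ∧
      -(P * Real.cos θ) + Real.log (Real.cos θ) ≤ Z.re + Real.log (Real.cos (Z.im + ψ)) := by
  have h2 := exp_min h0 h1 hP hc hψ hZ
  rw [re_exp_add] at h2
  have hcos : 0 < Real.cos θ := Real.cos_pos_of_mem_Ioo ⟨by linarith [Real.pi_pos], h1⟩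
  have h3 : 0 < Real.exp Z.re * Real.cos (Z.im + ψ) := lt_of_lt_of_le (by positivity) h2
  have h4 : 0 < Real.cos (Z.im + ψ) := by
    by_contra hcon
    push Not at hcon
    have := mul_nonpos_of_nonneg_of_nonpos (Real.exp_pos Z.re).le hcon
    linarith
  refine ⟨?_, h4, ?_⟩
  · have a1 := aux_half h0 h1 hP hc
    have a2 : |Z.im| ≤ P := (Complex.abs_im_le_norm Z).trans hZ
    refine (abs_add_le _ _).trans ?_
    linarith
  · have h5 := Real.log_le_log (by positivity) h2
    rw [Real.log_mul (Real.exp_pos _).ne' hcos.ne', Real.log_exp,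
      Real.log_mul (Real.exp_pos _).ne' h4.ne', Real.log_exp] at h5
    exact h5

/-- **rule P** -/
theorem ruleP {s t Pa Pb θa θb Ψa Ψb ψ : ℝ} {Z : ℂ} (hs : 0 ≤ s) (ht : 0 ≤ t) (hst : s + t = 1)
    (ha0 : 0 ≤ θa) (ha1 : θa < Real.pi / 2) (hb0 : 0 ≤ θb) (hb1 : θb < Real.pi / 2)
    (hPa : 0 ≤ Pa) (hPb : 0 ≤ Pb) (hca : Pa * Real.cos θa ≤ 1) (hcb : Pb * Real.cos θb ≤ 1)
    (hΨa0 : 0 ≤ Ψa) (hΨb0 : 0 ≤ Ψb)
    (hΨa : Ψa ≤ θa - Pa * Real.sin θa) (hΨb : Ψb ≤ θb - Pb * Real.sin θb)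
    (hψ : |ψ| ≤ s * Ψa + t * Ψb) (hZ : ‖Z‖ ≤ s * Pa + t * Pb) :
    Real.exp (s * (-(Pa * Real.cos θa) + Real.log (Real.cos θa)) +
      t * (-(Pb * Real.cos θb) + Real.log (Real.cos θb))) ≤
      (Complex.exp (Z + (ψ : ℂ) * Complex.I)).re := by
  obtain ⟨Za, Zb, hZa, hZb, hZe⟩ := split_le hs ht hPa hPb hZ
  obtain ⟨ya, yb, hya, hyb, hye⟩ := split_le (E := ℝ) hs ht hΨa0 hΨb0
    (by rwa [Real.norm_eq_abs])
  rw [Real.norm_eq_abs] at hya hyb
  obtain ⟨a1, a2, a3⟩ := node_bound ha0 ha1 hPa hca (hya.trans hΨa) hZa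
  obtain ⟨b1, b2, b3⟩ := node_bound hb0 hb1 hPb hcb (hyb.trans hΨb) hZb
  have hg := cos_geom a1 b1 a2 b2 hs ht hst
  have hre : Z.re = s * Za.re + t * Zb.re := by rw [← hZe]; simp
  have him : Z.im + ψ = s * (Za.im + ya) + t * (Zb.im + yb) := by
    rw [← hZe, ← hye]
    simp
    ring
  rw [re_exp_add, him, hre]
  refine le_trans ?_ (mul_le_mul_of_nonneg_left hg (Real.exp_pos _).le)
  rw [← Real.exp_add]
  apply Real.exp_le_exp.2
  have e1 := mul_le_mul_of_nonneg_left a3 hs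
  have e2 := mul_le_mul_of_nonneg_left b3 ht
  linarith

/-! ### rule Q -/

/-- tangent of the cosine -/
theorem cos_tangent {α d : ℝ} (ha0 : 0 ≤ α) (ha1 : α < Real.pi / 2) (hd0 : 0 ≤ d)
    (hd1 : d ≤ Real.pi / 2) : Real.cos d ≤ Real.cos α - Real.sin α * (d - α) := by
  set F : ℝ → ℝ := fun d => Real.cos α - Real.sin α * (d - α) - Real.cos d with hF
  have hd : ∀ x, HasDerivAt F (Real.sin x - Real.sin α) x := by
    intro x
    have h := ((((hasDerivAt_id x).sub_const α).const_mul (Real.sin α)).const_sub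
      (Real.cos α)).sub (Real.hasDerivAt_cos x)
    refine h.congr_deriv ?_
    simp
    ring
  have hα : F α = 0 := by simp [hF]
  rcases le_total d α with h | h
  · have hanti : AntitoneOn F (Set.Icc 0 α) := by
      apply antitoneOn_of_deriv_nonpos (convex_Icc 0 α)
      · exact fun x _ => (hd x).continuousAt.continuousWithinAt
      · exact fun x _ => (hd x).differentiableAt.differentiableWithinAt
      · intro x hx
        rw [interior_Icc] at hx
        rw [(hd x).deriv, sub_nonpos]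
        exact Real.sin_le_sin_of_le_of_le_pi_div_two (by linarith [hx.1, Real.pi_pos]) ha1.le
          hx.2.le
    have := hanti ⟨hd0, h⟩ ⟨ha0, le_rfl⟩ h
    rw [hα] at this
    simp only [hF] at this
    linarith
  · have hmono : MonotoneOn F (Set.Icc α (Real.pi / 2)) := by
      apply monotoneOn_of_deriv_nonneg (convex_Icc _ _)
      · exact fun x _ => (hd x).continuousAt.continuousWithinAt
      · exact fun x _ => (hd x).differentiableAt.differentiableWithinAt
      · intro x hx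
        rw [interior_Icc] at hx
        rw [(hd x).deriv, sub_nonneg]
        exact Real.sin_le_sin_of_le_of_le_pi_div_two (by linarith [Real.pi_pos]) hx.2.le
          hx.1.le
    have := hmono ⟨le_rfl, ha1.le⟩ ⟨h, hd1⟩ h
    rw [hα] at this
    simp only [hF] at this
    linarith

theorem neg_cos_le {α c : ℝ} (ha0 : 0 ≤ α) (ha1 : α < Real.pi / 2) (hc : 0 ≤ c) :
    -Real.cos c ≤ Real.cos α * Real.exp (Real.tan α * (c + α - Real.pi)) := by
  have hpi := Real.pi_pos
  have hcos : 0 < Real.cos α := Real.cos_pos_of_mem_Ioo ⟨by linarith, ha1⟩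
  have hsin : 0 ≤ Real.sin α := Real.sin_nonneg_of_nonneg_of_le_pi ha0 (by linarith)
  have htan : 0 ≤ Real.tan α := by
    rw [Real.tan_eq_sin_div_cos]
    positivity
  -- the case `π/2 ≤ c ≤ π`
  have key : ∀ c, Real.pi / 2 ≤ c → c ≤ Real.pi →
      -Real.cos c ≤ Real.cos α * Real.exp (Real.tan α * (c + α - Real.pi)) := by
    intro c h1 h2
    have e1 : -Real.cos c = Real.cos (Real.pi - c) := by rw [Real.cos_pi_sub]
    have h3 := cos_tangent (d := Real.pi - c) ha0 ha1 (by linarith) (by linarith)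
    have h4 := Real.add_one_le_exp (Real.tan α * (c + α - Real.pi))
    have h5 := mul_le_mul_of_nonneg_left h4 hcos.le
    have e2 : Real.cos α * (Real.tan α * (c + α - Real.pi) + 1) =
        Real.cos α - Real.sin α * (Real.pi - c - α) := by
      rw [Real.tan_eq_sin_div_cos]
      field_simp
      ring
    rw [e1]
    linarith
  rcases le_total c (Real.pi / 2) with h1 | h1
  · have : 0 ≤ Real.cos c := Real.cos_nonneg_of_mem_Icc ⟨by linarith, h1⟩
    have : 0 ≤ Real.cos α * Real.exp (Real.tan α * (c + α - Real.pi)) := by positivity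
    linarith
  · rcases le_total c Real.pi with h2 | h2
    · exact key c h1 h2
    · have h3 := key Real.pi (by linarith) le_rfl
      rw [Real.cos_pi, neg_neg] at h3
      have h4 : Real.exp (Real.tan α * (Real.pi + α - Real.pi)) ≤
          Real.exp (Real.tan α * (c + α - Real.pi)) := by
        apply Real.exp_le_exp.2
        apply mul_le_mul_of_nonneg_left _ htan
        linarith
      have h5 := mul_le_mul_of_nonneg_left h4 hcos.le
      have h6 := Real.neg_one_le_cos c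
      linarith

/-- **rule Q** -/
theorem ruleQ {α ρ ψ : ℝ} {Z : ℂ} (ha0 : 0 ≤ α) (ha1 : α < Real.pi / 2) (hZ : ‖Z‖ ≤ ρ) :
    -(Complex.exp (Z + (ψ : ℂ) * Complex.I)).re ≤
      Real.cos α * Real.exp (ρ / Real.cos α + Real.tan α * (|ψ| + α - Real.pi)) := by
  have hpi := Real.pi_pos
  have hcos : 0 < Real.cos α := Real.cos_pos_of_mem_Ioo ⟨by linarith, ha1⟩
  have hsin : 0 ≤ Real.sin α := Real.sin_nonneg_of_nonneg_of_le_pi ha0 (by linarith)
  have htan : 0 ≤ Real.tan α := by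
    rw [Real.tan_eq_sin_div_cos]
    positivity
  rw [re_exp_add]
  have h1 := neg_cos_le (c := |Z.im + ψ|) ha0 ha1 (abs_nonneg _)
  rw [Real.cos_abs] at h1
  have h2 := mul_le_mul_of_nonneg_left h1 (Real.exp_pos Z.re).le
  have h3 : Z.re * Real.cos α + |Z.im| * Real.sin α ≤ ρ := by
    refine le_trans ?_ hZ
    have h4 : (Z.re * Real.cos α + |Z.im| * Real.sin α) ^ 2 ≤ ‖Z‖ ^ 2 := by
      rw [H80.norm_sq_re_im]
      have h5 := Real.sin_sq_add_cos_sq α
      have h6 : |Z.im| ^ 2 = Z.im ^ 2 := sq_abs _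
      nlinarith [sq_nonneg (Z.re * Real.sin α - |Z.im| * Real.cos α)]
    exact le_of_sq_le_sq h4 (norm_nonneg _)
  have h4 : Z.re + Real.tan α * (|Z.im + ψ| + α - Real.pi) ≤
      ρ / Real.cos α + Real.tan α * (|ψ| + α - Real.pi) := by
    have h5 : |Z.im + ψ| ≤ |Z.im| + |ψ| := abs_add_le _ _
    have h6 := mul_le_mul_of_nonneg_left h5 htan
    have h7 : Z.re + Real.tan α * |Z.im| ≤ ρ / Real.cos α := by
      rw [le_div_iff₀ hcos, Real.tan_eq_sin_div_cos]
      have : (Z.re + Real.sin α / Real.cos α * |Z.im|) * Real.cos α =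
          Z.re * Real.cos α + |Z.im| * Real.sin α := by
        field_simp
      rw [this]
      exact h3
    linarith
  calc -(Real.exp Z.re * Real.cos (Z.im + ψ)) = Real.exp Z.re * -Real.cos (Z.im + ψ) := by ring
    _ ≤ Real.exp Z.re * (Real.cos α * Real.exp (Real.tan α * (|Z.im + ψ| + α - Real.pi))) := h2
    _ = Real.cos α * Real.exp (Z.re + Real.tan α * (|Z.im + ψ| + α - Real.pi)) := by
        rw [Real.exp_add]
        ring
    _ ≤ _ := by
        apply mul_le_mul_of_nonneg_left _ hcos.le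
        exact Real.exp_le_exp.2 h4

end Pool.Agent.Lib.MP_af3a4a_an.P1.CHK.Curve
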