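import Pool.Agent.Lib.MP_af3a4a_an.P1.CHK.Curve.Nat2

/-!
# The T2 curve: one cell
-/

set_option autoImplicit false

namespace Pool.Agent.Lib.MP_af3a4a_an.P1.CHK.Curve

open Pool.Agent.Lib.MP_af3a4a_an.P1.CHK.Arith
open Pool.Agent.Lib.MP_af3a4a_an.SV (av)
open Pool.Agent.Lib.MP_af3a4a_an.P1.H80
open Pool.Agent.Lib.MP_af3a4a_an.P1.CHK.H80

/-- the hypotheses of the curve: `u` is a point of the box -/
structure Ctx (Na Nb Q mp mn lp ln s0 s1 c1 N : ℕ) (u : Fin N → ℂ) : Prop where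
  na1 : 1 ≤ Na
  na : Na ≤ N
  nb : N ≤ Nb
  q : 0 < Q
  hu : ∀ k, ‖u k‖ ≤ 1
  mh : |mr mp mn| ≤ 1
  ml : |mr lp ln| ≤ 1
  h1 : (av u).re ≤ mr mp mn
  h2 : mr lp ln ≤ (av u).re
  i1 : (s0 : ℝ) / 1099511627776 ≤ (av u).im
  i2 : (av u).im ≤ (s1 : ℝ) / 1099511627776
  c : 1 - ‖av u‖ ^ 2 ≤ (c1 : ℝ) / 1099511627776

/-- the node `j` -/
noncomputable def nd (Q j : ℕ) : ℝ := (j : ℝ) / Q

section node

variable {Q j : ℕ}

theorem nd_nonneg (Q j : ℕ) : 0 ≤ nd Q j := by unfold nd; positivity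

theorem nd_lt (hQ : 0 < Q) (hj : j < Q) : nd Q j < 1 := by
  unfold nd
  rw [div_lt_one (by exact_mod_cast hQ)]
  exact_mod_cast hj

theorem nd_succ (hQ : 0 < Q) : nd Q (j + 1) - nd Q j = 1 / Q := by
  have hQ' : (0 : ℝ) < Q := Nat.cast_pos.2 hQ
  unfold nd
  push_cast
  field_simp
  ring

theorem nd_lt_succ (hQ : 0 < Q) : nd Q j < nd Q (j + 1) := by
  have h := nd_succ (j := j) hQ
  have hQ' : (0 : ℝ) < Q := Nat.cast_pos.2 hQ
  have : 0 < 1 / (Q : ℝ) := by positivity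
  linarith

theorem nd_mid (hQ : 0 < Q) : (nd Q j + nd Q (j + 1)) / 2 = ((2 * j + 1 : ℕ) : ℝ) / (2 * Q) := by
  have hQ' : (0 : ℝ) < Q := Nat.cast_pos.2 hQ
  unfold nd
  push_cast
  field_simp
  ring

end node

section ctx

variable {Na Nb Q mp mn lp ln s0 s1 c1 N : ℕ} {u : Fin N → ℂ}

theorem Ctx.hN (H : Ctx Na Nb Q mp mn lp ln s0 s1 c1 N u) : 1 ≤ N := H.na1.trans H.na

theorem Ctx.m1 (H : Ctx Na Nb Q mp mn lp ln s0 s1 c1 N u) : |(av u).re| ≤ 1 := re_av_abs H.hN H.hu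

theorem Ctx.rr (H : Ctx Na Nb Q mp mn lp ln s0 s1 c1 N u) : 0 ≤ 1 - ‖av u‖ ^ 2 :=
  one_sub_sq_nonneg H.hN H.hu

/-- upper bound of `P` at a node -/
theorem PM_ge (H : Ctx Na Nb Q mp mn lp ln s0 s1 c1 N u) {j J : ℕ} (hj : j < Q)
    (hJ : JJ (mr mp mn) (nd Q j) ≤ (J : ℝ) / (6 * (Q : ℝ) ^ 2 * 1099511627776)) :
    N * (1 - ‖av u‖ ^ 2) * JJ (av u).re (nd Q j) ≤ (PM Nb Q c1 J : ℝ) / 1099511627776 := by
  have hQ' : (0 : ℝ) < Q := Nat.cast_pos.2 H.q
  have hNb : (N : ℝ) ≤ Nb := by exact_mod_cast H.nb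
  have h1 := JJ_mono H.m1 H.mh H.h1 (nd_nonneg Q j) (nd_lt H.q hj)
  have h2 := JJ_nonneg H.m1 (nd_nonneg Q j) (nd_lt H.q hj)
  have h3 : N * (1 - ‖av u‖ ^ 2) * JJ (av u).re (nd Q j) ≤
      Nb * ((c1 : ℝ) / 1099511627776) * ((J : ℝ) / (6 * (Q : ℝ) ^ 2 * 1099511627776)) := by
    apply mul_le_mul _ (h1.trans hJ) h2 (by positivity)
    exact mul_le_mul hNb H.c H.rr (by positivity)
  refine h3.trans ?_
  rw [PM_def]
  have h4 := real_le_div (Nb * (c1 * J)) ((6 * (Q * Q)) * 1099511627776)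
    (by have := H.q; positivity)
  refine le_trans (le_of_eq ?_) (div_le_div_of_nonneg_right h4
    (show (0 : ℝ) ≤ 1099511627776 by norm_num))
  push_cast
  field_simp

theorem P_cell (H : Ctx Na Nb Q mp mn lp ln s0 s1 c1 N u) {j J J' : ℕ} (hj : j + 1 < Q)
    (hJ : JJ (mr mp mn) (nd Q j) ≤ (J : ℝ) / (6 * (Q : ℝ) ^ 2 * 1099511627776))
    (hJ' : JJ (mr mp mn) (nd Q (j + 1)) ≤ (J' : ℝ) / (6 * (Q : ℝ) ^ 2 * 1099511627776)) :
    ∀ x ∈ Set.Icc (nd Q j) (nd Q (j + 1)), N * (1 - ‖av u‖ ^ 2) * JJ (av u).re x ≤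
      ch (nd Q j) (nd Q (j + 1)) ((PM Nb Q c1 J : ℝ) / 1099511627776)
        ((PM Nb Q c1 J' : ℝ) / 1099511627776) x := by
  intro x hx
  have hc : 0 ≤ N * (1 - ‖av u‖ ^ 2) := mul_nonneg (Nat.cast_nonneg _) H.rr
  have hconv : ConvexOn ℝ (Set.Ico 0 1)
      (fun x => N * (1 - ‖av u‖ ^ 2) * JJ (av u).re x) := (JJ_convex H.m1).smul hc
  exact ch_le_convex hconv ⟨nd_nonneg Q j, nd_lt H.q (by omega)⟩
    ⟨nd_nonneg Q (j + 1), nd_lt H.q hj⟩ (nd_lt_succ H.q) hx.1 hx.2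
    (PM_ge H (by omega) hJ) (PM_ge H hj hJ')

/-- the two corrections -/
theorem del_ge (H : Ctx Na Nb Q mp mn lp ln s0 s1 c1 N u) {j : ℕ} (hj : j + 1 < Q) :
    Nb * ((s1 : ℝ) / 1099511627776) * ((nd Q (j + 1) - nd Q j) ^ 2 / 4 *
        max (nd Q j - mr mp mn) 0 / gg (mr mp mn) (nd Q j) ^ 2) +
      Na * ((s0 : ℝ) / 1099511627776) * ((nd Q (j + 1) - nd Q j) ^ 2 / 4 *
        max (mr lp ln - nd Q j) 0 / dd (mr lp ln) (nd Q j) (nd Q (j + 1)) ^ 2) ≤
      (del Na Nb Q mp mn lp ln s0 s1 j : ℝ) / 1099511627776 := by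
  have hQ := H.q
  have hQ' : (0 : ℝ) < Q := Nat.cast_pos.2 H.q
  have hg := gg_pos H.mh (by linarith [nd_nonneg Q j] : -1 < nd Q j) (nd_lt H.q (by omega))
  have hd := dd_pos H.ml (nd_nonneg Q j) (nd_lt_succ H.q).le (nd_lt H.q hj)
  have hgN := gN_eq (mp := mp) (mn := mn) (j := j) hQ hg.le
  have hdN := dN_eq (mp := lp) (mn := ln) (j := j) hQ hd.le
  have hgp : 0 < gN Q mp mn j := by
    have : (0 : ℝ) < (gN Q mp mn j : ℝ) := by
      rw [hgN]
      unfold nd at hg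
      positivity
    exact_mod_cast this
  have hdp : 0 < dN Q lp ln j := by
    have : (0 : ℝ) < (dN Q lp ln j : ℝ) := by
      rw [hdN]
      unfold nd at hd
      positivity
    exact_mod_cast this
  rw [del_def]
  set X := j * 1099511627776 + Q * mn - Q * mp with hX
  set Y := Q * lp - (j * 1099511627776 + Q * ln) with hY
  have hX' : max (nd Q j - mr mp mn) 0 ≤ (X : ℝ) / (Q * 1099511627776) := by
    rw [max_le_iff]
    refine ⟨?_, by positivity⟩
    have := sub_le_cast (j * 1099511627776 + Q * mn) (Q * mp)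
    rw [le_div_iff₀ (by positivity)]
    refine le_trans (le_of_eq ?_) this
    unfold nd mr
    push_cast
    field_simp
    ring
  have hY' : max (mr lp ln - nd Q j) 0 ≤ (Y : ℝ) / (Q * 1099511627776) := by
    rw [max_le_iff]
    refine ⟨?_, by positivity⟩
    have := sub_le_cast (Q * lp) (j * 1099511627776 + Q * ln)
    rw [le_div_iff₀ (by positivity)]
    refine le_trans (le_of_eq ?_) this
    unfold nd mr
    push_cast
    field_simp
    ring
  have h1 := real_le_div ((Nb * (s1 * X)) * (1099511627776 * Q))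
    (4 * ((gN Q mp mn j) * (gN Q mp mn j))) (by positivity)
  have h2 := real_le_div ((Na * (s0 * Y)) * (1099511627776 * Q))
    (4 * ((dN Q lp ln j) * (dN Q lp ln j))) (by positivity)
  have e1 : Nb * ((s1 : ℝ) / 1099511627776) * ((nd Q (j + 1) - nd Q j) ^ 2 / 4 *
        max (nd Q j - mr mp mn) 0 / gg (mr mp mn) (nd Q j) ^ 2) ≤
        (((Nb * (s1 * X)) * (1099511627776 * Q) : ℕ) : ℝ) /
          ((4 * ((gN Q mp mn j) * (gN Q mp mn j)) : ℕ) : ℝ) / 1099511627776 := by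
    have f : (nd Q (j + 1) - nd Q j) ^ 2 / 4 * max (nd Q j - mr mp mn) 0 /
        gg (mr mp mn) (nd Q j) ^ 2 ≤
        (nd Q (j + 1) - nd Q j) ^ 2 / 4 * ((X : ℝ) / (Q * 1099511627776)) /
        gg (mr mp mn) (nd Q j) ^ 2 := by
      apply div_le_div_of_nonneg_right _ (by positivity)
      exact mul_le_mul_of_nonneg_left hX' (by positivity)
    refine (mul_le_mul_of_nonneg_left f (by positivity)).trans (le_of_eq ?_)
    rw [nd_succ H.q]
    push_cast
    rw [hgN]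
    unfold nd at hg ⊢
    field_simp
  have e2 : Na * ((s0 : ℝ) / 1099511627776) * ((nd Q (j + 1) - nd Q j) ^ 2 / 4 *
        max (mr lp ln - nd Q j) 0 / dd (mr lp ln) (nd Q j) (nd Q (j + 1)) ^ 2) ≤
        (((Na * (s0 * Y)) * (1099511627776 * Q) : ℕ) : ℝ) /
          ((4 * ((dN Q lp ln j) * (dN Q lp ln j)) : ℕ) : ℝ) / 1099511627776 := by
    have f : (nd Q (j + 1) - nd Q j) ^ 2 / 4 * max (mr lp ln - nd Q j) 0 /
        dd (mr lp ln) (nd Q j) (nd Q (j + 1)) ^ 2 ≤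
        (nd Q (j + 1) - nd Q j) ^ 2 / 4 * ((Y : ℝ) / (Q * 1099511627776)) /
        dd (mr lp ln) (nd Q j) (nd Q (j + 1)) ^ 2 := by
      apply div_le_div_of_nonneg_right _ (by positivity)
      exact mul_le_mul_of_nonneg_left hY' (by positivity)
    refine (mul_le_mul_of_nonneg_left f (by positivity)).trans (le_of_eq ?_)
    rw [nd_succ H.q]
    push_cast
    rw [hdN]
    unfold nd at hd ⊢
    field_simp
  rw [Nat.cast_add, add_div]
  exact add_le_add
    (e1.trans (div_le_div_of_nonneg_right h1 (by norm_num)))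
    (e2.trans (div_le_div_of_nonneg_right h2 (by norm_num)))

theorem del_pos (Na Nb Q mp mn lp ln s0 s1 j : ℕ) : 0 < del Na Nb Q mp mn lp ln s0 s1 j := by
  rw [del_def]
  exact Nat.add_pos_left (Nat.succ_pos _) _

/-- `psi` bounds both signs -/
theorem psi_ge {pu pl Tl Tu : ℕ} {Φ : ℝ} (h1 : Φ ≤ (pu : ℝ) / 1099511627776)
    (h2 : (pl : ℝ) / 1099511627776 ≤ Φ) :
    Φ - Na * ((s0 : ℝ) / 1099511627776) * ((Tl : ℝ) / 1099511627776) ≤
      (psi Na Nb s0 s1 pu pl Tl Tu : ℝ) / 1099511627776 ∧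
    Nb * ((s1 : ℝ) / 1099511627776) * ((Tu : ℝ) / 1099511627776) - Φ ≤
      (psi Na Nb s0 s1 pu pl Tl Tu : ℝ) / 1099511627776 := by
  rw [psi_def]
  set A := pu - ((Na * (s0 * Tl)) >>> 40) with hA
  set B := (((Nb * (s1 * Tu)) >>> 40) + 1) - pl with hB
  have hAB1 : A ≤ A - B + B := by omega
  have hAB2 : B ≤ A - B + B := by omega
  have hA' : (A : ℝ) ≤ ((A - B + B : ℕ) : ℝ) := by exact_mod_cast hAB1
  have hB' : (B : ℝ) ≤ ((A - B + B : ℕ) : ℝ) := by exact_mod_cast hAB2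
  have e1 := shr_le (Na * (s0 * Tl)) 40
  have e2 := le_shr (Nb * (s1 * Tu)) 40
  rw [c40] at e1 e2
  have f1 := sub_le_cast pu ((Na * (s0 * Tl)) >>> 40)
  have f2 := sub_le_cast (((Nb * (s1 * Tu)) >>> 40) + 1) pl
  rw [← hA] at f1
  rw [← hB] at f2
  rw [div_le_iff₀ (by norm_num)] at h2
  rw [le_div_iff₀ (by norm_num)] at h1
  constructor
  · rw [le_div_iff₀ (by norm_num)]
    refine le_trans ?_ hA'
    refine le_trans ?_ f1
    have g : (Φ - Na * ((s0 : ℝ) / 1099511627776) * ((Tl : ℝ) / 1099511627776)) * 1099511627776 =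
        Φ * 1099511627776 - ((Na * (s0 * Tl) : ℕ) : ℝ) / 1099511627776 := by
      push_cast
      ring
    rw [g]
    linarith
  · rw [le_div_iff₀ (by norm_num)]
    refine le_trans ?_ hB'
    refine le_trans ?_ f2
    have g : (Nb * ((s1 : ℝ) / 1099511627776) * ((Tu : ℝ) / 1099511627776) - Φ) * 1099511627776 =
        ((Nb * (s1 * Tu) : ℕ) : ℝ) / 1099511627776 - Φ * 1099511627776 := by
      push_cast
      ring
    rw [g]
    linarith

/-- the invariants of the phase and of `JJ` -/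
structure Inv (Q mp mn lp ln j J Tl Tu ka : ℕ) : Prop where
  J : JJ (mr mp mn) (nd Q j) ≤ (J : ℝ) / (6 * (Q : ℝ) ^ 2 * 1099511627776)
  Tl : (Tl : ℝ) / 1099511627776 ≤ Th (mr lp ln) (nd Q j)
  Tu : Th (mr mp mn) (nd Q j) ≤ (Tu : ℝ) / 1099511627776
  ka : kk (mr mp mn) (nd Q j) ≤ (ka : ℝ) / 1099511627776

theorem Inv_zero (H : Ctx Na Nb Q mp mn lp ln s0 s1 c1 N u) :
    Inv Q mp mn lp ln 0 0 0 0 (kN Q (gN Q mp mn 0) 0) := by
  have e : nd Q 0 = 0 := by unfold nd; simp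
  refine ⟨?_, ?_, ?_, kN_ge H.q H.mh H.q⟩
  · rw [e, JJ_zero]; simp
  · rw [e, Th_zero]; simp
  · rw [e, Th_zero]; simp

theorem Inv_succ (H : Ctx Na Nb Q mp mn lp ln s0 s1 c1 N u) {j J Tl Tu ka : ℕ} (hj : j + 1 < Q)
    (I : Inv Q mp mn lp ln j J Tl Tu ka) :
    Inv Q mp mn lp ln (j + 1)
      (J + (ka * (3 * j + 1) + kN Q (gN Q mp mn (j + 1)) (j + 1) * (3 * j + 2)))
      (Tl + tinc Q (dN Q lp ln j)) (Tu + (wN Q (dN Q mp mn j) + 1))
      (kN Q (gN Q mp mn (j + 1)) (j + 1)) := by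
  have hQ' : (0 : ℝ) < Q := Nat.cast_pos.2 H.q
  have hk := kN_ge (mp := mp) (mn := mn) H.q H.mh hj
  have h0 := nd_nonneg Q j
  have hlt := nd_lt_succ (j := j) H.q
  have h1 := nd_lt H.q hj
  refine ⟨?_, ?_, ?_, hk⟩
  · refine (JJ_step H.mh h0 hlt h1 I.ka hk).trans ?_
    have hJ := I.J
    rw [Nat.cast_add, add_div]
    refine add_le_add hJ (le_of_eq ?_)
    rw [nd_succ H.q]
    unfold nd
    push_cast
    field_simp
    ring
  · have hT := I.Tl
    rw [Nat.cast_add, add_div]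
    rcases tinc_le (mp := lp) (mn := ln) H.q H.ml hj with h | h
    · have := Th_mono_x H.ml h0 hlt.le h1
      linarith
    · have := Th_step_dn H.ml h0 hlt.le h1
      unfold nd at this hT ⊢
      linarith
  · have hT := I.Tu
    rw [Nat.cast_add, add_div]
    have h := (wN_le (mp := mp) (mn := mn) H.q H.mh hj).2
    have := Th_step_up H.mh h0 hlt.le h1
    unfold nd at this hT ⊢
    linarith

/-- **the phase in a cell** -/
theorem phase (H : Ctx Na Nb Q mp mn lp ln s0 s1 c1 N u) {j J Tl Tu ka pu pl : ℕ} (hj : j + 1 < Q)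
    (I : Inv Q mp mn lp ln j J Tl Tu ka) {Φ : ℝ} (h1 : Φ ≤ (pu : ℝ) / 1099511627776)
    (h2 : (pl : ℝ) / 1099511627776 ≤ Φ) :
    ∀ x ∈ Set.Icc (nd Q j) (nd Q (j + 1)), |Φ - N * (av u).im * Th (av u).re x| ≤
      ch (nd Q j) (nd Q (j + 1)) ((psi Na Nb s0 s1 pu pl Tl Tu : ℝ) / 1099511627776)
        ((psi Na Nb s0 s1 pu pl (Tl + tinc Q (dN Q lp ln j)) (Tu + (wN Q (dN Q mp mn j) + 1)) : ℝ) /
          1099511627776) x + (del Na Nb Q mp mn lp ln s0 s1 j : ℝ) / 1099511627776 := by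
  intro x hx
  have h0 := nd_nonneg Q j
  have hlt := nd_lt_succ (j := j) H.q
  have hb := nd_lt H.q hj
  have hx0 : 0 ≤ x := h0.trans hx.1
  have hx1 : x < 1 := hx.2.trans_lt hb
  have hm := H.m1
  have hba : 0 < nd Q (j + 1) - nd Q j := by linarith
  set a := nd Q j with ha
  set b := nd Q (j + 1) with hbdef
  have ht0 : 0 ≤ (x - a) / (b - a) := div_nonneg (by linarith [hx.1]) hba.le
  -- bounds of `Th`
  have up := Th_chord_up H.mh h0 hlt hb hx.1 hx.2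
  have hw := (wN_le (mp := mp) (mn := mn) H.q H.mh hj).2
  have dn := Th_chord_dn (τ := (tinc Q (dN Q lp ln j) : ℝ) / 1099511627776) H.ml h0 hlt hb hx.1 hx.2
    (tinc_le (mp := lp) (mn := ln) H.q H.ml hj)
  have hThl := Th_mono H.ml hm H.h2 hx0 hx1
  have hThu := Th_mono hm H.mh H.h1 hx0 hx1
  have hTl := I.Tl
  have hTu := I.Tu
  rw [← ha] at hTl hTu
  set El := (b - a) ^ 2 / 4 * max (mr lp ln - a) 0 / dd (mr lp ln) a b ^ 2 with hEl
  set Eu := (b - a) ^ 2 / 4 * max (a - mr mp mn) 0 / gg (mr mp mn) a ^ 2 with hEu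
  have hdel := del_ge H hj
  rw [← ha, ← hbdef, ← hEl, ← hEu] at hdel
  have hTh0 : 0 ≤ Th (mr lp ln) x := by
    have := Th_mono_x H.ml le_rfl hx0 hx1
    rwa [Th_zero] at this
  have hl : ch a b ((Tl : ℝ) / 1099511627776)
      (((Tl + tinc Q (dN Q lp ln j) : ℕ) : ℝ) / 1099511627776) x - El ≤ Th (av u).re x := by
    refine le_trans ?_ (dn.trans hThl)
    apply sub_le_sub_right
    have e : ch a b ((Tl : ℝ) / 1099511627776)
      (((Tl + tinc Q (dN Q lp ln j) : ℕ) : ℝ) / 1099511627776) x =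
        (Tl : ℝ) / 1099511627776 +
          (x - a) / (b - a) * ((tinc Q (dN Q lp ln j) : ℝ) / 1099511627776) := by
      unfold ch
      push_cast
      field_simp
      ring
    rw [e]
    linarith
  have hu : Th (av u).re x ≤ ch a b ((Tu : ℝ) / 1099511627776)
      (((Tu + (wN Q (dN Q mp mn j) + 1) : ℕ) : ℝ) / 1099511627776) x + Eu := by
    refine (hThu.trans up).trans ?_
    apply add_le_add _ le_rfl
    have e : ch a b ((Tu : ℝ) / 1099511627776)
      (((Tu + (wN Q (dN Q mp mn j) + 1) : ℕ) : ℝ) / 1099511627776) x =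
        (Tu : ℝ) / 1099511627776 +
          (x - a) / (b - a) * (((wN Q (dN Q mp mn j) + 1 : ℕ) : ℝ) / 1099511627776) := by
      unfold ch
      push_cast
      field_simp
      ring
    rw [e]
    have := mul_le_mul_of_nonneg_left hw ht0
    change (x - a) / (b - a) * ((b - a) / dd (mr mp mn) a b) ≤ _ at this
    linarith
  have hEl0 : 0 ≤ El := by
    rw [hEl]
    have := le_max_right (mr lp ln - a) 0
    positivity
  have hEu0 : 0 ≤ Eu := by
    rw [hEu]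
    have := le_max_right (a - mr mp mn) 0
    positivity
  have hNa : (Na : ℝ) ≤ N := by exact_mod_cast H.na
  have hNb : (N : ℝ) ≤ Nb := by exact_mod_cast H.nb
  have hs0 : (0 : ℝ) ≤ (s0 : ℝ) / 1099511627776 := by positivity
  have him : 0 ≤ (av u).im := hs0.trans H.i1
  have hP1 := psi_ge (Na := Na) (Nb := Nb) (s0 := s0) (s1 := s1) (Tl := Tl) (Tu := Tu) h1 h2
  have hP2 := psi_ge (Na := Na) (Nb := Nb) (s0 := s0) (s1 := s1)
    (Tl := Tl + tinc Q (dN Q lp ln j)) (Tu := Tu + (wN Q (dN Q mp mn j) + 1)) h1 h2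
  set Pa := (psi Na Nb s0 s1 pu pl Tl Tu : ℝ) / 1099511627776 with hPa
  set Pb := (psi Na Nb s0 s1 pu pl (Tl + tinc Q (dN Q lp ln j))
    (Tu + (wN Q (dN Q mp mn j) + 1)) : ℝ) / 1099511627776 with hPb
  set D := (del Na Nb Q mp mn lp ln s0 s1 j : ℝ) / 1099511627776 with hD
  have hA0 : 0 ≤ Na * ((s0 : ℝ) / 1099511627776) := by positivity
  have hB0 : 0 ≤ Nb * ((s1 : ℝ) / 1099511627776) := by positivity
  have cA := mul_nonneg hA0 hEl0
  have cB := mul_nonneg hB0 hEu0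
  rw [abs_le]
  constructor
  · -- lower
    have g1 : N * (av u).im * Th (av u).re x ≤
        Nb * ((s1 : ℝ) / 1099511627776) * Th (av u).re x := by
      apply mul_le_mul_of_nonneg_right _ (hTh0.trans hThl)
      exact mul_le_mul hNb H.i2 him (by positivity)
    have g2 := mul_le_mul_of_nonneg_left hu hB0
    have g3 := ch_mono (x := x) hlt hx.1 hx.2 hP1.2 hP2.2
    have g4 : ch a b (Nb * ((s1 : ℝ) / 1099511627776) * ((Tu : ℝ) / 1099511627776) - Φ)
        (Nb * ((s1 : ℝ) / 1099511627776) *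
          (((Tu + (wN Q (dN Q mp mn j) + 1) : ℕ) : ℝ) / 1099511627776) - Φ) x =
        Nb * ((s1 : ℝ) / 1099511627776) * ch a b ((Tu : ℝ) / 1099511627776)
          (((Tu + (wN Q (dN Q mp mn j) + 1) : ℕ) : ℝ) / 1099511627776) x - Φ := by
      rw [sub_eq_add_neg, sub_eq_add_neg, ch_add_const hlt, ch_mul]
      ring
    rw [g4] at g3
    linarith
  · -- upper
    have g1 : Na * ((s0 : ℝ) / 1099511627776) * Th (av u).re x ≤
        N * (av u).im * Th (av u).re x := by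
      apply mul_le_mul_of_nonneg_right _ (hTh0.trans hThl)
      exact mul_le_mul hNa H.i1 hs0 (Nat.cast_nonneg _)
    have g2 := mul_le_mul_of_nonneg_left hl hA0
    have g3 := ch_mono (x := x) hlt hx.1 hx.2 hP1.1 hP2.1
    have g4 : ch a b (Φ - Na * ((s0 : ℝ) / 1099511627776) * ((Tl : ℝ) / 1099511627776))
        (Φ - Na * ((s0 : ℝ) / 1099511627776) *
          (((Tl + tinc Q (dN Q lp ln j) : ℕ) : ℝ) / 1099511627776)) x =
        Φ - Na * ((s0 : ℝ) / 1099511627776) * ch a b ((Tl : ℝ) / 1099511627776)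
          (((Tl + tinc Q (dN Q lp ln j) : ℕ) : ℝ) / 1099511627776) x := by
      unfold ch
      field_simp
      ring
    rw [g4] at g3
    linarith

end ctx

end Pool.Agent.Lib.MP_af3a4a_an.P1.CHK.Curve
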