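import Pool.Agent.Lib.MP_af3a4a_an.P1.CHK.Curve.Tab

/-!
# The T2 curve: definitions (council 2, helper62; rules of helper11, helper80, helper88)

Everything is a natural number; `S = 2^40 = 1099511627776`. The functions are written with
`Nat.mul`, `Nat.add`, ... for speed in the kernel; the theorems `_def` give the readable form.
-/

set_option autoImplicit false

namespace Pool.Agent.Lib.MP_af3a4a_an.P1.CHK.Curve

open Pool.Agent.Lib.MP_af3a4a_an.P1.CHK.Arith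

/-- `if c then a else b` -/
def bi {α : Type} (c : Bool) (a b : α) : α := Bool.rec b a c

theorem bi_true {α : Type} (a b : α) : bi true a b = a := rfl
theorem bi_false {α : Type} (a b : α) : bi false a b = b := rfl
theorem bi_eq {α : Type} (c : Bool) (a b : α) : bi c a b = bif c then a else b := by
  cases c <;> rfl

/-- `S Q² gg(m, j/Q)` -/
def gN (Q mp mn j : ℕ) : ℕ :=
  (Nat.sub (Nat.add (Nat.add (Nat.mul 1099511627776 (Nat.mul Q Q)) (Nat.mul 1099511627776 (Nat.mul j j))) (Nat.mul 2 (Nat.mul j (Nat.mul Q mn)))) (Nat.mul 2 (Nat.mul j (Nat.mul Q mp))))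

theorem gN_def (Q mp mn j : ℕ) : gN Q mp mn j =
    ((((1099511627776 * (Q * Q)) + (1099511627776 * (j * j))) + (2 * (j * (Q * mn)))) - (2 * (j * (Q * mp)))) := rfl

/-- upper bound of `1/((1-t²) gg)` -/
def kN (Q g j : ℕ) : ℕ :=
  (Nat.add (Nat.div (Nat.mul (Nat.mul 1099511627776 (Nat.mul Q Q)) (Nat.mul 1099511627776 (Nat.mul Q Q))) (Nat.mul (Nat.sub (Nat.mul Q Q) (Nat.mul j j)) g)) 1)

theorem kN_def (Q g j : ℕ) : kN Q g j =
    ((((1099511627776 * (Q * Q)) * (1099511627776 * (Q * Q))) / (((Q * Q) - (j * j)) * g)) + 1) := rfl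

/-- `S Q² (1 - (a+b) m + a b)` -/
def dN (Q mp mn j : ℕ) : ℕ :=
  (Nat.sub (Nat.add (Nat.add (Nat.mul 1099511627776 (Nat.mul Q Q)) (Nat.mul 1099511627776 (Nat.mul j (Nat.add j 1)))) (Nat.mul (Nat.add (Nat.mul 2 j) 1) (Nat.mul Q mn))) (Nat.mul (Nat.add (Nat.mul 2 j) 1) (Nat.mul Q mp)))

theorem dN_def (Q mp mn j : ℕ) : dN Q mp mn j =
    ((((1099511627776 * (Q * Q)) + (1099511627776 * (j * (j + 1)))) + (((2 * j) + 1) * (Q * mn))) - (((2 * j) + 1) * (Q * mp))) := rfl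

/-- the increment of `Θ`, rounded down -/
def wN (Q d : ℕ) : ℕ :=
  (Nat.div (Nat.mul (Nat.mul 1099511627776 1099511627776) Q) d)

theorem wN_def (Q d : ℕ) : wN Q d =
    (((1099511627776 * 1099511627776) * Q) / d) := rfl

/-- increment of the lower bound of `Θ` -/
def tinc (Q d : ℕ) : ℕ :=
  (Nat.sub (wN Q d) (Nat.add (Nat.div (Nat.mul (Nat.add (wN Q d) 1) (Nat.mul (Nat.add (wN Q d) 1) (Nat.add (wN Q d) 1))) (Nat.mul 3 (Nat.mul 1099511627776 1099511627776))) 1))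

theorem tinc_def (Q d : ℕ) : tinc Q d =
    ((wN Q d) - (((((wN Q d) + 1) * (((wN Q d) + 1) * ((wN Q d) + 1))) / (3 * (1099511627776 * 1099511627776))) + 1)) := rfl

/-- `gg` at the midpoint, rounded down -/
def mN (Q mp mn j : ℕ) : ℕ :=
  (Nat.div (Nat.sub (Nat.add (Nat.add (Nat.mul 4 (Nat.mul 1099511627776 (Nat.mul Q Q))) (Nat.mul 1099511627776 (Nat.mul (Nat.add (Nat.mul 2 j) 1) (Nat.add (Nat.mul 2 j) 1)))) (Nat.mul 4 (Nat.mul (Nat.add (Nat.mul 2 j) 1) (Nat.mul Q mn)))) (Nat.mul 4 (Nat.mul (Nat.add (Nat.mul 2 j) 1) (Nat.mul Q mp)))) (Nat.mul 4 (Nat.mul Q Q)))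

theorem mN_def (Q mp mn j : ℕ) : mN Q mp mn j =
    (((((4 * (1099511627776 * (Q * Q))) + (1099511627776 * (((2 * j) + 1) * ((2 * j) + 1)))) + (4 * (((2 * j) + 1) * (Q * mn)))) - (4 * (((2 * j) + 1) * (Q * mp)))) / (4 * (Q * Q))) := rfl

/-- lower bound of `g^(N/2)` -/
def pL (N g : ℕ) : ℕ :=
  (bi (Nat.beq (Nat.mod N 2) 0) (Nat.shiftRight (Nat.pow g (Nat.div N 2)) (Nat.mul 40 (Nat.sub (Nat.div N 2) 1))) (Nat.shiftRight (Nat.mul (Nat.pow g (Nat.div N 2)) (Nat.div (Nat.mul 1099511627776 (Nat.mul 4 (Nat.mul g (Nat.add 1099511627776 g)))) (Nat.add (Nat.add (Nat.mul 1099511627776 1099511627776) (Nat.mul 6 (Nat.mul 1099511627776 g))) (Nat.mul g g)))) (Nat.mul 40 (Nat.div N 2))))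

theorem pL_def (N g : ℕ) : pL N g =
    (bi (Nat.beq (N % 2) 0) ((g ^ (N / 2)) >>> (40 * ((N / 2) - 1))) (((g ^ (N / 2)) * ((1099511627776 * (4 * (g * (1099511627776 + g)))) / (((1099511627776 * 1099511627776) + (6 * (1099511627776 * g))) + (g * g)))) >>> (40 * (N / 2)))) := rfl

/-- upper bound of `g^(N/2)` -/
def pU (N g : ℕ) : ℕ :=
  (bi (Nat.beq (Nat.mod N 2) 0) (Nat.add (Nat.shiftRight (Nat.pow g (Nat.div N 2)) (Nat.mul 40 (Nat.sub (Nat.div N 2) 1))) 1) (Nat.add (Nat.shiftRight (Nat.mul (Nat.pow g (Nat.div N 2)) (Nat.add (Nat.div (Nat.add (Nat.add (Nat.mul 1099511627776 1099511627776) (Nat.mul 6 (Nat.mul 1099511627776 g))) (Nat.mul g g)) (Nat.mul 4 (Nat.add 1099511627776 g))) 1)) (Nat.mul 40 (Nat.div N 2))) 1))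

theorem pU_def (N g : ℕ) : pU N g =
    (bi (Nat.beq (N % 2) 0) (((g ^ (N / 2)) >>> (40 * ((N / 2) - 1))) + 1) ((((g ^ (N / 2)) * (((((1099511627776 * 1099511627776) + (6 * (1099511627776 * g))) + (g * g)) / (4 * (1099511627776 + g))) + 1)) >>> (40 * (N / 2))) + 1)) := rfl

/-- upper bound of `gg(m, j/Q)^(N/2)` -/
def uE (Na Nb Q lp ln j : ℕ) : ℕ :=
  ((fun g => (pU (bi (Nat.blt 1099511627776 g) Nb Na) g)) (Nat.add (Nat.div (gN Q lp ln j) (Nat.mul Q Q)) 1))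

theorem uE_def (Na Nb Q lp ln j : ℕ) : uE Na Nb Q lp ln j =
    ((fun g => (pU (bi (Nat.blt 1099511627776 g) Nb Na) g)) (((gN Q lp ln j) / (Q * Q)) + 1)) := rfl

/-- upper bound of `P` -/
def PM (Nb Q c1 JJ : ℕ) : ℕ :=
  (Nat.add (Nat.div (Nat.mul Nb (Nat.mul c1 JJ)) (Nat.mul (Nat.mul 6 (Nat.mul Q Q)) 1099511627776)) 1)

theorem PM_def (Nb Q c1 JJ : ℕ) : PM Nb Q c1 JJ =
    (((Nb * (c1 * JJ)) / ((6 * (Q * Q)) * 1099511627776)) + 1) := rfl

/-- upper bound of the phase -/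
def psi (Na Nb s0 s1 pu pl Tl Tu : ℕ) : ℕ :=
  (Nat.add (Nat.sub (Nat.sub pu (Nat.shiftRight (Nat.mul Na (Nat.mul s0 Tl)) 40)) (Nat.sub (Nat.add (Nat.shiftRight (Nat.mul Nb (Nat.mul s1 Tu)) 40) 1) pl)) (Nat.sub (Nat.add (Nat.shiftRight (Nat.mul Nb (Nat.mul s1 Tu)) 40) 1) pl))

theorem psi_def (Na Nb s0 s1 pu pl Tl Tu : ℕ) : psi Na Nb s0 s1 pu pl Tl Tu =
    (((pu - ((Na * (s0 * Tl)) >>> 40)) - ((((Nb * (s1 * Tu)) >>> 40) + 1) - pl)) + ((((Nb * (s1 * Tu)) >>> 40) + 1) - pl)) := rfl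

/-- correction for the chord of the phase -/
def del (Na Nb Q mp mn lp ln s0 s1 j : ℕ) : ℕ :=
  (Nat.add (Nat.add (Nat.div (Nat.mul (Nat.mul Nb (Nat.mul s1 (Nat.sub (Nat.add (Nat.mul j 1099511627776) (Nat.mul Q mn)) (Nat.mul Q mp)))) (Nat.mul 1099511627776 Q)) (Nat.mul 4 (Nat.mul (gN Q mp mn j) (gN Q mp mn j)))) 1) (Nat.add (Nat.div (Nat.mul (Nat.mul Na (Nat.mul s0 (Nat.sub (Nat.mul Q lp) (Nat.add (Nat.mul j 1099511627776) (Nat.mul Q ln))))) (Nat.mul 1099511627776 Q)) (Nat.mul 4 (Nat.mul (dN Q lp ln j) (dN Q lp ln j)))) 1))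

theorem del_def (Na Nb Q mp mn lp ln s0 s1 j : ℕ) : del Na Nb Q mp mn lp ln s0 s1 j =
    (((((Nb * (s1 * (((j * 1099511627776) + (Q * mn)) - (Q * mp)))) * (1099511627776 * Q)) / (4 * ((gN Q mp mn j) * (gN Q mp mn j)))) + 1) + ((((Na * (s0 * ((Q * lp) - ((j * 1099511627776) + (Q * ln))))) * (1099511627776 * Q)) / (4 * ((dN Q lp ln j) * (dN Q lp ln j)))) + 1)) := rfl

/-- lower bound of `θ - P sin θ` -/
def WN (P t : ℕ) : ℕ :=
  (Nat.sub (Nat.mul t 17179869184) (Nat.add (Nat.shiftRight (Nat.mul P (Nat.add (sN t) 1)) 40) 1))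

theorem WN_def (P t : ℕ) : WN P t =
    ((t * 17179869184) - (((P * ((sN t) + 1)) >>> 40) + 1)) := rfl

/-- upper bound of `P (1 + cos θ) - log cos θ` -/
def XN (P t : ℕ) : ℕ :=
  (Nat.add (Nat.add (Nat.shiftRight (Nat.mul P (Nat.add 1099511627776 (Nat.add (cN t) 1))) 40) 1) (lN t))

theorem XN_def (P t : ℕ) : XN P t =
    ((((P * (1099511627776 + ((cN t) + 1))) >>> 40) + 1) + (lN t)) := rfl

/-- value of a positive cell, scale `S²` -/
def posC (Na Nb Q g XX : ℕ) : ℕ :=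
  (Nat.mul (pL (bi (Nat.blt 1099511627776 g) Na Nb) g) (Arith.emL (Nat.add (Nat.add (Nat.div XX 2) 1) (Nat.add (Nat.div (Nat.mul Nb (Nat.mul 1099511627776 1099511627776)) (Nat.mul (Nat.mul 6 (Nat.mul Q Q)) g)) 1))))

theorem posC_def (Na Nb Q g XX : ℕ) : posC Na Nb Q g XX =
    ((pL (bi (Nat.blt 1099511627776 g) Na Nb) g) * (Arith.emL (((XX / 2) + 1) + (((Nb * (1099511627776 * 1099511627776)) / ((6 * (Q * Q)) * g)) + 1)))) := rfl

/-- upper bound of `exp (P (1/cos α - 1) + tan α (y + α - π))` -/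
def LN (P y al : ℕ) : ℕ :=
  (Arith.es (Nat.add (Nat.add (Nat.add (Nat.shiftRight (Nat.mul P (Nat.sub (Nat.add (Nat.div (Nat.mul 1099511627776 1099511627776) (cN al)) 1) 1099511627776)) 40) 1) (Nat.shiftRight (Nat.mul (Nat.sub (Nat.add y (Nat.mul al 17179869184)) 3454217652357) (Nat.add (Nat.div (Nat.mul (Nat.add (sN al) 1) 1099511627776) (cN al)) 1)) 40)) 1) (Nat.shiftRight (Nat.mul (Nat.sub 3454217652357 (Nat.add y (Nat.mul al 17179869184))) (Nat.div (Nat.mul (sN al) 1099511627776) (Nat.add (cN al) 1))) 40))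

theorem LN_def (P y al : ℕ) : LN P y al =
    (Arith.es (((((P * ((((1099511627776 * 1099511627776) / (cN al)) + 1) - 1099511627776)) >>> 40) + 1) + ((((y + (al * 17179869184)) - 3454217652357) * (((((sN al) + 1) * 1099511627776) / (cN al)) + 1)) >>> 40)) + 1) (((3454217652357 - (y + (al * 17179869184))) * (((sN al) * 1099511627776) / ((cN al) + 1))) >>> 40)) := rfl

/-- absolute value of a negative cell, scale `S²` -/
def negC (Ea Eb La Lb td al : ℕ) : ℕ :=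
  (Nat.add (Nat.div (Nat.mul (Nat.add (Nat.div (Nat.mul (Nat.add (cN al) 1) (Nat.add (Nat.mul 2 (Nat.add (Nat.mul Ea La) (Nat.mul Eb Lb))) (Nat.add (Nat.mul Ea Lb) (Nat.mul Eb La)))) (Nat.mul 6 1099511627776)) 1) 1099511627776) (Nat.sub 1099511627776 td)) 1)

theorem negC_def (Ea Eb La Lb td al : ℕ) : negC Ea Eb La Lb td al =
    ((((((((cN al) + 1) * ((2 * ((Ea * La) + (Eb * Lb))) + ((Ea * Lb) + (Eb * La)))) / (6 * 1099511627776)) + 1) * 1099511627776) / (1099511627776 - td)) + 1) := rfl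

/-- `tan α` times the correction -/
def tdN (dl al : ℕ) : ℕ :=
  (Nat.add (Nat.shiftRight (Nat.mul dl (Nat.add (Nat.div (Nat.mul (Nat.add (sN al) 1) 1099511627776) (cN al)) 1)) 40) 1)

theorem tdN_def (dl al : ℕ) : tdN dl al =
    (((dl * (((((sN al) + 1) * 1099511627776) / (cN al)) + 1)) >>> 40) + 1) := rfl

/-- absolute value of a cell with the AM-GM bound, scale `S²` -/
def amC (Na Nb Q lp ln j : ℕ) : ℕ :=
  (Nat.mul (Nat.add (uE Na Nb Q lp ln j) (uE Na Nb Q lp ln (Nat.add j 1))) 549755813888)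

theorem amC_def (Na Nb Q lp ln j : ℕ) : amC Na Nb Q lp ln j =
    (((uE Na Nb Q lp ln j) + (uE Na Nb Q lp ln (j + 1))) * 549755813888) := rfl

/-- Loop over the positive cells. Parameters: `Na ≤ N ≤ Nb`, grid `1/Q`, `m₁ ≤ (mp - mn)/S`,
`(lp - ln)/S ≤ m₁`, `s0/S ≤ m₂ ≤ s1/S`, `1 - |m|² ≤ c1/S`, rotation `phi/S`. `st` is the stream of the
indices of `θ` (8 bits, at the right node), `cs` the stream of claims (32 bits). -/
def ploop (Na Nb Q mp mn lp ln s0 s1 c1 phi : ℕ) (K : ℕ)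
    (fin : ℕ → ℕ → ℕ → ℕ → ℕ → ℕ → ℕ → Bool) :
    ℕ → ℕ → ℕ → ℕ → ℕ → ℕ → ℕ → ℕ → ℕ → ℕ → ℕ → Bool :=
  Nat.rec (fun j JJ Tl Tu ka _ _ _ G _ cs => fin j JJ Tl Tu ka G cs)
    (fun _ ih j JJ Tl Tu ka psa Wa Xa G st cs =>
      (fun t kb JJb Tub Tlb =>
      (fun P dl psb =>
      bi (bi (bi (Nat.ble t 100) (Nat.ble (Nat.mul P (Nat.add (cN t) 1)) (Nat.mul 1099511627776 1099511627776)) false)
          (bi (bi (Nat.ble (Nat.add psa dl) Wa) (Nat.ble (Nat.add psb dl) (WN P t)) false) (Nat.ble (Nat.mul 16 1099511627776) (Nat.mul (mN Q mp mn j) (Nat.mul Q Q))) false) false)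
        ((fun Gb => bi (Nat.ble (Nat.mul (Nat.mod cs 4294967296) (Nat.mul Q (Nat.mul 1099511627776 1099511627776))) (Nat.mul (Nat.mul (Nat.add Na 1) 16777216) Gb))
          (ih (Nat.add j 1) JJb Tlb Tub kb psb (WN P t) (XN P t) Gb (Nat.div st 256) (Nat.div cs 4294967296)) false)
          (Nat.add G (posC Na Nb Q (mN Q mp mn j) (Nat.add Xa (XN P t)))))
        false)
      (PM Nb Q c1 JJb) (del Na Nb Q mp mn lp ln s0 s1 j) (psi Na Nb s0 s1 phi phi Tlb Tub))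
      (Nat.mod st 256) (kN Q (gN Q mp mn (Nat.add j 1)) (Nat.add j 1)) (Nat.add JJ (Nat.add (Nat.mul ka (Nat.add (Nat.mul 3 j) 1)) (Nat.mul (kN Q (gN Q mp mn (Nat.add j 1)) (Nat.add j 1)) (Nat.add (Nat.mul 3 j) 2)))) (Nat.add Tu (Nat.add (wN Q (dN Q mp mn j)) 1)) (Nat.add Tl (tinc Q (dN Q lp ln j)))) K

/-- Loop over the negative cells; `st` has 16 bits per cell: index of `α` (8 bits; larger than `100`
for the AM-GM bound), number of turns (8 bits). -/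
def nloop (Na Nb Q mp mn lp ln s0 s1 c1 phi Gp : ℕ) (K : ℕ) (fin : ℕ → ℕ → ℕ → Bool) :
    ℕ → ℕ → ℕ → ℕ → ℕ → ℕ → ℕ → ℕ → Bool :=
  Nat.rec (fun j _ _ _ _ Gm _ cs => fin j Gm cs)
    (fun _ ih j JJ Tl Tu ka Gm st cs =>
      (fun al k kb JJb Tub Tlb =>
      (fun Gmb => bi (bi (Nat.ble (Nat.mul (Nat.mod cs 4294967296) (Nat.mul Q (Nat.mul 1099511627776 1099511627776))) (Nat.mul (Nat.mul (Nat.add Na 1) 16777216) (Nat.sub Gp Gmb))) (bi (Nat.ble al 100) (Nat.blt (tdN (del Na Nb Q mp mn lp ln s0 s1 j) al) 1099511627776) true) false)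
        (ih (Nat.add j 1) JJb Tlb Tub kb Gmb (Nat.div st 65536) (Nat.div cs 4294967296)) false)
      (bi (Nat.ble al 100)
        (Nat.add Gm (negC (uE Na Nb Q lp ln j) (uE Na Nb Q lp ln (Nat.add j 1)) (LN (PM Nb Q c1 JJ) (psi Na Nb s0 s1 (Nat.add phi (Nat.mul k 6908435304716)) (Nat.add phi (Nat.mul k 6908435304715)) Tl Tu) al) (LN (PM Nb Q c1 JJb) (psi Na Nb s0 s1 (Nat.add phi (Nat.mul k 6908435304716)) (Nat.add phi (Nat.mul k 6908435304715)) Tlb Tub) al) (tdN (del Na Nb Q mp mn lp ln s0 s1 j) al) al))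
        (Nat.add Gm (amC Na Nb Q lp ln j))))
      (Nat.mod st 256) (Nat.mod (Nat.div st 256) 256) (kN Q (gN Q mp mn (Nat.add j 1)) (Nat.add j 1)) (Nat.add JJ (Nat.add (Nat.mul ka (Nat.add (Nat.mul 3 j) 1)) (Nat.mul (kN Q (gN Q mp mn (Nat.add j 1)) (Nat.add j 1)) (Nat.add (Nat.mul 3 j) 2)))) (Nat.add Tu (Nat.add (wN Q (dN Q mp mn j)) 1)) (Nat.add Tl (tinc Q (dN Q lp ln j)))) K

/-- loop over the tail cells -/
def tloop (Na Nb Q lp ln Gp : ℕ) (K : ℕ) : ℕ → ℕ → ℕ → Bool :=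
  Nat.rec (fun _ _ _ => true)
    (fun _ ih j Gm cs =>
      (fun Gmb => bi (Nat.ble (Nat.mul (Nat.mod cs 4294967296) (Nat.mul Q (Nat.mul 1099511627776 1099511627776))) (Nat.mul (Nat.mul (Nat.add Na 1) 16777216) (Nat.sub Gp Gmb))) (ih (Nat.add j 1) Gmb (Nat.div cs 4294967296)) false)
        (Nat.add Gm (amC Na Nb Q lp ln j))) K

/-- the whole curve: `K0` positive cells, `K1` negative cells, `K2` tail cells; `t0` is the index of
`θ` at the node `0`; the claim number `j` is for the node `j + 1` -/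
def curve (Na Nb Q mp mn lp ln s0 s1 c1 phi K0 K1 K2 t0 st1 st2 cs : ℕ) : Bool :=
  bi (bi (bi (Nat.ble mp (Nat.add mn 1099511627776)) (Nat.ble ln (Nat.add lp 1099511627776)) false)
    (bi (bi (Nat.blt (Nat.add K0 K1) Q) (Nat.ble t0 100) false) (Nat.ble 1 Na) false) false)
  (ploop Na Nb Q mp mn lp ln s0 s1 c1 phi K0
    (fun j JJ Tl Tu ka G cs =>
      nloop Na Nb Q mp mn lp ln s0 s1 c1 phi G K1 (fun j Gm cs => tloop Na Nb Q lp ln G K2 j Gm cs)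
        j JJ Tl Tu ka 0 st2 cs)
    0 0 0 0 (kN Q (gN Q mp mn 0) 0) (psi Na Nb s0 s1 phi phi 0 0) (WN (PM Nb Q c1 0) t0)
    (XN (PM Nb Q c1 0) t0) 0 st1 cs) false

end Pool.Agent.Lib.MP_af3a4a_an.P1.CHK.Curve
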