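import Pool.Agent.Lib.MP_af3a4a_an.P1.CHK.Curve.Defs
import Pool.Agent.Lib.MP_af3a4a_an.P1.CHK.Curve.Cells2

/-!
# The T2 curve: meaning of the integer functions
-/

set_option autoImplicit false

namespace Pool.Agent.Lib.MP_af3a4a_an.P1.CHK.Curve

open Pool.Agent.Lib.MP_af3a4a_an.P1.CHK.Arith
open Pool.Agent.Lib.MP_af3a4a_an.P1.CHK.H80

theorem c40 : (2 : ℝ) ^ 40 = 1099511627776 := by norm_num

/-- the real number of a pair of mantissas -/
noncomputable def mr (p n : ℕ) : ℝ := ((p : ℝ) - n) / 1099511627776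

section basic

variable {Q mp mn j : ℕ}

theorem gN_eq (hQ : 0 < Q) (hg : 0 ≤ gg (mr mp mn) ((j : ℝ) / Q)) :
    (gN Q mp mn j : ℝ) = 1099511627776 * (Q : ℝ) ^ 2 * gg (mr mp mn) ((j : ℝ) / Q) := by
  have hQ' : (0 : ℝ) < Q := Nat.cast_pos.2 hQ
  have e : 1099511627776 * (Q : ℝ) ^ 2 * gg (mr mp mn) ((j : ℝ) / Q) =
      ((1099511627776 * (Q * Q) + 1099511627776 * (j * j) + 2 * (j * (Q * mn)) : ℕ) : ℝ) -
        ((2 * (j * (Q * mp)) : ℕ) : ℝ) := by
    unfold gg mr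
    push_cast
    field_simp
    ring
  rw [gN_def, e, Nat.cast_sub]
  have h : (0 : ℝ) ≤ 1099511627776 * (Q : ℝ) ^ 2 * gg (mr mp mn) ((j : ℝ) / Q) := by positivity
  rw [e, sub_nonneg] at h
  exact_mod_cast h

theorem dN_eq (hQ : 0 < Q) (hd : 0 ≤ dd (mr mp mn) ((j : ℝ) / Q) ((j + 1 : ℕ) / Q)) :
    (dN Q mp mn j : ℝ) = 1099511627776 * (Q : ℝ) ^ 2 *
      dd (mr mp mn) ((j : ℝ) / Q) ((j + 1 : ℕ) / Q) := by
  have hQ' : (0 : ℝ) < Q := Nat.cast_pos.2 hQ
  have e : 1099511627776 * (Q : ℝ) ^ 2 * dd (mr mp mn) ((j : ℝ) / Q) ((j + 1 : ℕ) / Q) =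
      ((1099511627776 * (Q * Q) + 1099511627776 * (j * (j + 1)) + (2 * j + 1) * (Q * mn) : ℕ) : ℝ) -
        (((2 * j + 1) * (Q * mp) : ℕ) : ℝ) := by
    unfold dd mr
    push_cast
    field_simp
    ring
  rw [dN_def, e, Nat.cast_sub]
  have h : (0 : ℝ) ≤ 1099511627776 * (Q : ℝ) ^ 2 *
      dd (mr mp mn) ((j : ℝ) / Q) ((j + 1 : ℕ) / Q) := by positivity
  rw [e, sub_nonneg] at h
  exact_mod_cast h

theorem kN_ge (hQ : 0 < Q) (hm : |mr mp mn| ≤ 1) (hj : j < Q) :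
    kk (mr mp mn) ((j : ℝ) / Q) ≤ (kN Q (gN Q mp mn j) j : ℝ) / 1099511627776 := by
  have hQ' : (0 : ℝ) < Q := Nat.cast_pos.2 hQ
  have hx0 : (0 : ℝ) ≤ (j : ℝ) / Q := by positivity
  have hx1 : (j : ℝ) / Q < 1 := by
    rw [div_lt_one hQ']
    exact_mod_cast hj
  have hg := gg_pos hm (by linarith : -1 < (j : ℝ) / Q) hx1
  have hgN := gN_eq (mp := mp) (mn := mn) (j := j) hQ hg.le
  have hgNpos : 0 < gN Q mp mn j := by
    have : (0 : ℝ) < (gN Q mp mn j : ℝ) := by rw [hgN]; positivity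
    exact_mod_cast this
  have hsub : ((Q * Q - j * j : ℕ) : ℝ) = (Q : ℝ) ^ 2 * (1 - ((j : ℝ) / Q) ^ 2) := by
    rw [Nat.cast_sub (Nat.mul_le_mul hj.le hj.le)]
    push_cast
    field_simp
  have hs : 0 < 1 - ((j : ℝ) / Q) ^ 2 := by nlinarith
  have hden : 0 < (Q * Q - j * j) * gN Q mp mn j := by
    apply Nat.mul_pos _ hgNpos
    have := Nat.mul_lt_mul'' hj hj
    omega
  rw [kN_def, le_div_iff₀ (by norm_num)]
  refine le_trans (le_of_eq ?_) (real_le_div _ _ hden)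
  rw [Nat.cast_mul (Q * Q - j * j), hsub, hgN]
  unfold kk pp
  push_cast
  field_simp

theorem wN_le (hQ : 0 < Q) (hm : |mr mp mn| ≤ 1) (hj : j + 1 < Q) :
    (wN Q (dN Q mp mn j) : ℝ) / 1099511627776 ≤
      (((j + 1 : ℕ) : ℝ) / Q - (j : ℝ) / Q) / dd (mr mp mn) ((j : ℝ) / Q) ((j + 1 : ℕ) / Q) ∧
    (((j + 1 : ℕ) : ℝ) / Q - (j : ℝ) / Q) / dd (mr mp mn) ((j : ℝ) / Q) ((j + 1 : ℕ) / Q) ≤
      ((wN Q (dN Q mp mn j) + 1 : ℕ) : ℝ) / 1099511627776 := by
  have hQ' : (0 : ℝ) < Q := Nat.cast_pos.2 hQ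
  have hx0 : (0 : ℝ) ≤ (j : ℝ) / Q := by positivity
  have hx1 : ((j + 1 : ℕ) : ℝ) / Q < 1 := by
    rw [div_lt_one hQ']
    exact_mod_cast hj
  have hab : (j : ℝ) / Q ≤ ((j + 1 : ℕ) : ℝ) / Q := by
    apply div_le_div_of_nonneg_right _ hQ'.le
    push_cast
    linarith
  have hd := dd_pos hm hx0 hab hx1
  have hdN := dN_eq (mp := mp) (mn := mn) (j := j) hQ hd.le
  have hdNpos : 0 < dN Q mp mn j := by
    have : (0 : ℝ) < (dN Q mp mn j : ℝ) := by rw [hdN]; positivity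
    exact_mod_cast this
  have e : (((j + 1 : ℕ) : ℝ) / Q - (j : ℝ) / Q) /
      dd (mr mp mn) ((j : ℝ) / Q) ((j + 1 : ℕ) / Q) =
      (((1099511627776 * 1099511627776 * Q : ℕ) : ℝ) / (dN Q mp mn j : ℝ)) / 1099511627776 := by
    rw [hdN]
    push_cast
    field_simp
    ring
  rw [wN_def, e]
  constructor
  · exact div_le_div_of_nonneg_right (div_le_real _ _) (by norm_num)
  · exact div_le_div_of_nonneg_right (real_le_div _ _ hdNpos) (by norm_num)

theorem tinc_le (hQ : 0 < Q) (hm : |mr mp mn| ≤ 1) (hj : j + 1 < Q) :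
    (tinc Q (dN Q mp mn j) : ℝ) / 1099511627776 ≤ 0 ∨
    (tinc Q (dN Q mp mn j) : ℝ) / 1099511627776 ≤
      (((j + 1 : ℕ) : ℝ) / Q - (j : ℝ) / Q) / dd (mr mp mn) ((j : ℝ) / Q) ((j + 1 : ℕ) / Q) -
      ((((j + 1 : ℕ) : ℝ) / Q - (j : ℝ) / Q) /
        dd (mr mp mn) ((j : ℝ) / Q) ((j + 1 : ℕ) / Q)) ^ 3 / 3 := by
  obtain ⟨h1, h2⟩ := wN_le hQ hm hj
  have hQ' : (0 : ℝ) < Q := Nat.cast_pos.2 hQ
  have hx0 : (0 : ℝ) ≤ (j : ℝ) / Q := by positivity
  have hx1 : ((j + 1 : ℕ) : ℝ) / Q < 1 := by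
    rw [div_lt_one hQ']
    exact_mod_cast hj
  have hab : (j : ℝ) / Q ≤ ((j + 1 : ℕ) : ℝ) / Q := by
    apply div_le_div_of_nonneg_right _ hQ'.le
    push_cast
    linarith
  have hd := dd_pos hm hx0 hab hx1
  set w := (((j + 1 : ℕ) : ℝ) / Q - (j : ℝ) / Q) /
    dd (mr mp mn) ((j : ℝ) / Q) ((j + 1 : ℕ) / Q) with hw
  have hw0 : 0 ≤ w := by
    rw [hw]
    exact div_nonneg (by linarith) hd.le
  set W := wN Q (dN Q mp mn j) with hW
  rw [tinc_def, ← hW]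
  by_cases hc : W ≤ (W + 1) * ((W + 1) * (W + 1)) / (3 * (1099511627776 * 1099511627776)) + 1
  · left
    rw [Nat.sub_eq_zero_of_le hc]
    simp
  · right
    push Not at hc
    rw [Nat.cast_sub hc.le]
    have h3 := real_le_div ((W + 1) * ((W + 1) * (W + 1))) (3 * (1099511627776 * 1099511627776))
      (by norm_num)
    have h4 : w ^ 3 ≤ (((W + 1 : ℕ) : ℝ) / 1099511627776) ^ 3 := pow_le_pow_left₀ hw0 h2 3
    have h5 : (((W + 1 : ℕ) : ℝ) / 1099511627776) ^ 3 / 3 ≤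
        (((W + 1) * ((W + 1) * (W + 1)) / (3 * (1099511627776 * 1099511627776)) + 1 : ℕ) : ℝ) /
          1099511627776 := by
      refine le_trans (le_of_eq ?_) (div_le_div_of_nonneg_right h3 (by norm_num))
      push_cast
      ring
    rw [sub_div]
    linarith

theorem mN_le (hQ : 0 < Q) (hg : 0 ≤ gg (mr mp mn) ((2 * j + 1 : ℕ) / (2 * Q))) :
    (mN Q mp mn j : ℝ) / 1099511627776 ≤ gg (mr mp mn) ((2 * j + 1 : ℕ) / (2 * Q)) := by
  have hQ' : (0 : ℝ) < Q := Nat.cast_pos.2 hQ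
  rw [mN_def, div_le_iff₀ (by norm_num)]
  refine (div_le_real _ _).trans ?_
  rw [div_le_iff₀ (by positivity)]
  apply cast_sub_le
  · positivity
  · apply le_of_eq
    unfold gg mr
    push_cast
    field_simp
    ring

end basic

/-! ### powers -/

theorem sqrt_low {γ : ℝ} (h : 0 ≤ γ) : 4 * (γ * (1 + γ)) / (1 + 6 * γ + γ * γ) ≤ Real.sqrt γ := by
  set s := Real.sqrt γ with hs
  have hs0 : 0 ≤ s := Real.sqrt_nonneg _
  have e : γ = s ^ 2 := (Real.sq_sqrt h).symm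
  rw [e, div_le_iff₀ (by positivity)]
  have : 0 ≤ s * (1 - s) ^ 4 := by positivity
  nlinarith

theorem sqrt_upp {γ : ℝ} (h : 0 ≤ γ) : Real.sqrt γ ≤ (1 + 6 * γ + γ * γ) / (4 * (1 + γ)) := by
  set s := Real.sqrt γ with hs
  have hs0 : 0 ≤ s := Real.sqrt_nonneg _
  have e : γ = s ^ 2 := (Real.sq_sqrt h).symm
  rw [e, le_div_iff₀ (by positivity)]
  have : 0 ≤ (1 - s) ^ 4 := by positivity
  nlinarith

theorem pL_le {N g : ℕ} (hN : 1 ≤ N) :
    (pL N g : ℝ) / 1099511627776 ≤ Real.sqrt ((g : ℝ) / 1099511627776) ^ N := by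
  set γ := (g : ℝ) / 1099511627776 with hγ
  have hγ0 : 0 ≤ γ := by positivity
  have hg : (g : ℝ) = γ * 2 ^ 40 := by rw [hγ, c40]; field_simp
  rw [pL_def, bi_eq]
  rcases Nat.even_or_odd' N with ⟨k, hk | hk⟩
  · have h0 : Nat.beq (N % 2) 0 = true := by
      rw [Nat.beq_eq]
      omega
    have hk2 : N / 2 = k := by omega
    rw [h0, cond_true, hk2, hk, pow_mul, Real.sq_sqrt hγ0]
    have h1 := shr_le (g ^ k) (40 * (k - 1))
    rw [Nat.cast_pow, hg, mul_pow, ← pow_mul] at h1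
    rw [div_le_iff₀ (by norm_num), ← c40]
    refine h1.trans (le_of_eq ?_)
    rw [div_eq_iff (by positivity), mul_assoc, ← pow_add]
    congr 2
    omega
  · have h0 : Nat.beq (N % 2) 0 = false := by
      rw [Bool.eq_false_iff, ne_eq, Nat.beq_eq]
      omega
    have hk2 : N / 2 = k := by omega
    rw [h0, cond_false, hk2, hk, pow_succ, pow_mul, Real.sq_sqrt hγ0]
    set r : ℕ := 1099511627776 * (4 * (g * (1099511627776 + g))) /
      (1099511627776 * 1099511627776 + 6 * (1099511627776 * g) + g * g) with hr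
    have h1 := shr_le (g ^ k * r) (40 * k)
    have h2 : (r : ℝ) / 2 ^ 40 ≤ Real.sqrt γ := by
      refine le_trans ?_ (sqrt_low hγ0)
      rw [div_le_iff₀ (by positivity)]
      refine (div_le_real _ _).trans (le_of_eq ?_)
      push_cast
      rw [hg, c40]
      field_simp
      ring
    rw [Nat.cast_mul, Nat.cast_pow, hg, mul_pow, ← pow_mul] at h1
    rw [← c40]
    calc ((((g ^ k * r) >>> (40 * k) : ℕ) : ℝ)) / 2 ^ 40 ≤
        (γ ^ k * 2 ^ (40 * k) * (r : ℝ) / 2 ^ (40 * k)) / 2 ^ 40 :=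
          div_le_div_of_nonneg_right h1 (by positivity)
      _ = γ ^ k * ((r : ℝ) / 2 ^ 40) := by
          field_simp
      _ ≤ γ ^ k * Real.sqrt γ := mul_le_mul_of_nonneg_left h2 (by positivity)

theorem pU_ge {N g : ℕ} (hN : 1 ≤ N) :
    Real.sqrt ((g : ℝ) / 1099511627776) ^ N ≤ (pU N g : ℝ) / 1099511627776 := by
  set γ := (g : ℝ) / 1099511627776 with hγ
  have hγ0 : 0 ≤ γ := by positivity
  have hg : (g : ℝ) = γ * 2 ^ 40 := by rw [hγ, c40]; field_simp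
  rw [pU_def, bi_eq]
  rcases Nat.even_or_odd' N with ⟨k, hk | hk⟩
  · have h0 : Nat.beq (N % 2) 0 = true := by
      rw [Nat.beq_eq]
      omega
    have hk2 : N / 2 = k := by omega
    rw [h0, cond_true, hk2, hk, pow_mul, Real.sq_sqrt hγ0]
    have h1 := le_shr (g ^ k) (40 * (k - 1))
    rw [Nat.cast_pow, hg, mul_pow, ← pow_mul] at h1
    rw [le_div_iff₀ (by norm_num), ← c40]
    refine le_trans (le_of_eq ?_) h1
    rw [eq_div_iff (by positivity), mul_assoc, ← pow_add]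
    congr 2
    omega
  · have h0 : Nat.beq (N % 2) 0 = false := by
      rw [Bool.eq_false_iff, ne_eq, Nat.beq_eq]
      omega
    have hk2 : N / 2 = k := by omega
    rw [h0, cond_false, hk2, hk, pow_succ, pow_mul, Real.sq_sqrt hγ0]
    set r : ℕ := (1099511627776 * 1099511627776 + 6 * (1099511627776 * g) + g * g) /
      (4 * (1099511627776 + g)) + 1 with hr
    have h1 := le_shr (g ^ k * r) (40 * k)
    have h2 : Real.sqrt γ ≤ (r : ℝ) / 2 ^ 40 := by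
      refine (sqrt_upp hγ0).trans ?_
      rw [le_div_iff₀ (by positivity)]
      refine le_trans (le_of_eq ?_) (real_le_div _ _ (by positivity))
      push_cast
      rw [hg, c40]
      field_simp
      ring
    rw [Nat.cast_mul, Nat.cast_pow, hg, mul_pow, ← pow_mul] at h1
    rw [← c40]
    calc γ ^ k * Real.sqrt γ ≤ γ ^ k * ((r : ℝ) / 2 ^ 40) :=
          mul_le_mul_of_nonneg_left h2 (by positivity)
      _ = (γ ^ k * 2 ^ (40 * k) * (r : ℝ) / 2 ^ (40 * k)) / 2 ^ 40 := by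
          field_simp
      _ ≤ ((((g ^ k * r) >>> (40 * k) + 1 : ℕ) : ℝ)) / 2 ^ 40 :=
          div_le_div_of_nonneg_right h1 (by positivity)

theorem pL_int {N Na Nb g : ℕ} (hNa : 1 ≤ Na) (h1 : Na ≤ N) (h2 : N ≤ Nb) :
    (pL (bi (Nat.blt 1099511627776 g) Na Nb) g : ℝ) / 1099511627776 ≤
      Real.sqrt ((g : ℝ) / 1099511627776) ^ N := by
  rw [bi_eq]
  by_cases h : 1099511627776 < g
  · have h0 : Nat.blt 1099511627776 g = true := by rw [Nat.blt_eq]; exact h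
    rw [h0, cond_true]
    refine (pL_le hNa).trans ?_
    apply pow_le_pow_right₀ _ h1
    rw [Real.one_le_sqrt, le_div_iff₀ (by norm_num)]
    have : ((1099511627776 : ℕ) : ℝ) < g := by exact_mod_cast h
    push_cast at this
    linarith
  · have h0 : Nat.blt 1099511627776 g = false := by
      rw [Bool.eq_false_iff, ne_eq, Nat.blt_eq]; exact h
    rw [h0, cond_false]
    refine (pL_le (by omega)).trans ?_
    apply pow_le_pow_of_le_one (Real.sqrt_nonneg _) _ h2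
    rw [Real.sqrt_le_one, div_le_one (by norm_num)]
    have : (g : ℝ) ≤ ((1099511627776 : ℕ) : ℝ) := by exact_mod_cast (not_lt.1 h)
    push_cast at this
    exact this

theorem pU_int {N Na Nb g : ℕ} (hNa : 1 ≤ Na) (h1 : Na ≤ N) (h2 : N ≤ Nb) :
    Real.sqrt ((g : ℝ) / 1099511627776) ^ N ≤
      (pU (bi (Nat.blt 1099511627776 g) Nb Na) g : ℝ) / 1099511627776 := by
  rw [bi_eq]
  by_cases h : 1099511627776 < g
  · have h0 : Nat.blt 1099511627776 g = true := by rw [Nat.blt_eq]; exact h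
    rw [h0, cond_true]
    refine le_trans ?_ (pU_ge (by omega))
    apply pow_le_pow_right₀ _ h2
    rw [Real.one_le_sqrt, le_div_iff₀ (by norm_num)]
    have : ((1099511627776 : ℕ) : ℝ) < g := by exact_mod_cast h
    push_cast at this
    linarith
  · have h0 : Nat.blt 1099511627776 g = false := by
      rw [Bool.eq_false_iff, ne_eq, Nat.blt_eq]; exact h
    rw [h0, cond_false]
    refine le_trans ?_ (pU_ge hNa)
    apply pow_le_pow_of_le_one (Real.sqrt_nonneg _) _ h1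
    rw [Real.sqrt_le_one, div_le_one (by norm_num)]
    have : (g : ℝ) ≤ ((1099511627776 : ℕ) : ℝ) := by exact_mod_cast (not_lt.1 h)
    push_cast at this
    exact this

theorem uE_ge {N Na Nb Q lp ln j : ℕ} {m : ℝ} (hNa : 1 ≤ Na) (h1 : Na ≤ N) (h2 : N ≤ Nb)
    (hQ : 0 < Q) (hm : mr lp ln ≤ m) (hml : |mr lp ln| ≤ 1) :
    EN N m ((j : ℝ) / Q) ≤ (uE Na Nb Q lp ln j : ℝ) / 1099511627776 := by
  have hQ' : (0 : ℝ) < Q := Nat.cast_pos.2 hQ
  refine (EN_anti hm (by positivity) N).trans ?_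
  rw [uE_def]
  refine le_trans ?_ (pU_int hNa h1 h2)
  unfold EN
  apply pow_le_pow_left₀ (Real.sqrt_nonneg _)
  apply Real.sqrt_le_sqrt
  have hg : 0 ≤ gg (mr lp ln) ((j : ℝ) / Q) := by
    unfold gg
    have := sq_abs (mr lp ln)
    have h3 : |mr lp ln| ^ 2 ≤ 1 := pow_le_one₀ (abs_nonneg _) hml
    nlinarith [sq_nonneg ((j : ℝ) / Q - mr lp ln)]
  rw [le_div_iff₀ (by norm_num)]
  refine le_trans (le_of_eq ?_) (real_le_div _ _ (by positivity))
  rw [gN_eq hQ hg]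
  push_cast
  field_simp

end Pool.Agent.Lib.MP_af3a4a_an.P1.CHK.Curve
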