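import Pool.Agent.Lib.MP_af3a4a_an.P1.CHK.Curve.Nat

/-!
# The T2 curve: meaning of the integer functions, second part
-/

set_option autoImplicit false

namespace Pool.Agent.Lib.MP_af3a4a_an.P1.CHK.Curve

open Pool.Agent.Lib.MP_af3a4a_an.P1.CHK.Arith
open Pool.Agent.Lib.MP_af3a4a_an.P1.CHK.H80

theorem pi_low : (3454217652357 : ℝ) / 1099511627776 ≤ Real.pi := by
  have := Real.pi_gt_d20
  norm_num at this ⊢
  linarith

theorem pi2_low : (6908435304715 : ℝ) / 1099511627776 ≤ 2 * Real.pi := by
  have := Real.pi_gt_d20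
  norm_num at this ⊢
  linarith

theorem pi2_upp : 2 * Real.pi ≤ (6908435304716 : ℝ) / 1099511627776 := by
  have := Real.pi_lt_d20
  norm_num at this ⊢
  linarith

/-- check of `0 < cN k` -/
def cgo : ℕ → ℕ → Bool
  | 0, _ => true
  | f + 1, k => bif Nat.blt 0 (cN k) then cgo f (k + 1) else false

theorem cgo_ok : cgo 101 0 = true := by decide +kernel

theorem cgo_spec : ∀ (f k : ℕ), cgo f k = true → ∀ i, i < f → 0 < cN (k + i) := by
  intro f
  induction f with
  | zero => intro k _ i hi; omega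
  | succ f ih =>
    intro k h i hi
    rw [cgo, Bool.cond_eq_ite] at h
    split_ifs at h with hc
    rcases i with _ | i
    · rw [Nat.blt_eq] at hc
      exact hc
    · have := ih (k + 1) h i (by omega)
      rwa [show k + (i + 1) = k + 1 + i by omega]

theorem cN_pos {k : ℕ} (hk : k ≤ 100) : 0 < cN k := by
  have := cgo_spec 101 0 cgo_ok k (by omega)
  rwa [zero_add] at this

section trig

variable {t : ℕ}

theorem cos_bd (ht : t ≤ 100) : (cN t : ℝ) / 1099511627776 ≤ Real.cos (t / 64) ∧
    Real.cos (t / 64) ≤ ((cN t + 1 : ℕ) : ℝ) / 1099511627776 := by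
  have h := tab_ok (show t ≤ 256 by omega)
  unfold TabOK at h
  rw [abs_of_nonneg (cos_nonneg_tab ht), c40] at h
  exact ⟨h.1, h.2.1⟩

theorem sin_bd (ht : t ≤ 100) : (sN t : ℝ) / 1099511627776 ≤ Real.sin (t / 64) ∧
    Real.sin (t / 64) ≤ ((sN t + 1 : ℕ) : ℝ) / 1099511627776 := by
  have h := tab_ok (show t ≤ 256 by omega)
  unfold TabOK at h
  rw [abs_of_nonneg (sin_nonneg_tab (by omega)), abs_of_nonneg (cos_nonneg_tab ht), c40] at h
  exact h.2.2

theorem th_lt (ht : t ≤ 100) : (t : ℝ) / 64 < Real.pi / 2 := by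
  have ht' : (t : ℝ) ≤ 100 := by exact_mod_cast ht
  have := Real.pi_gt_d6
  linarith

/-- `1/cos α` -/
theorem sec_upp (ht : t ≤ 100) :
    1 / Real.cos (t / 64) - 1 ≤
      ((1099511627776 * 1099511627776 / cN t + 1 - 1099511627776 : ℕ) : ℝ) / 1099511627776 := by
  have hc := cos_pos_tab ht
  have hcN : (0 : ℝ) < cN t := by exact_mod_cast cN_pos ht
  have h1 : 1 / Real.cos (t / 64) ≤ 1099511627776 / cN t := by
    rw [div_le_div_iff₀ hc hcN]
    have := (cos_bd ht).1
    rw [div_le_iff₀ (by norm_num)] at this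
    linarith
  have h2 := real_le_div (1099511627776 * 1099511627776) (cN t) (cN_pos ht)
  have h3 := sub_le_cast (1099511627776 * 1099511627776 / cN t + 1) 1099511627776
  rw [le_div_iff₀ (by norm_num)]
  refine le_trans ?_ h3
  have h4 : 1099511627776 / (cN t : ℝ) * 1099511627776 =
      ((1099511627776 * 1099511627776 : ℕ) : ℝ) / cN t := by
    push_cast
    ring
  have h5 : 1 / Real.cos (t / 64) * 1099511627776 ≤
      1099511627776 / (cN t : ℝ) * 1099511627776 := by
    apply mul_le_mul_of_nonneg_right h1 (by norm_num)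
  push_cast at h2 h4 ⊢
  linarith

theorem tan_nonneg (ht : t ≤ 100) : 0 ≤ Real.tan (t / 64) := by
  rw [Real.tan_eq_sin_div_cos]
  exact div_nonneg (sin_nonneg_tab (by omega)) (cos_nonneg_tab ht)

theorem tan_upp (ht : t ≤ 100) :
    Real.tan (t / 64) ≤ (((sN t + 1) * 1099511627776 / cN t + 1 : ℕ) : ℝ) / 1099511627776 := by
  have hc := cos_pos_tab ht
  have hcN : (0 : ℝ) < cN t := by exact_mod_cast cN_pos ht
  rw [Real.tan_eq_sin_div_cos]
  have h1 : Real.sin (t / 64) / Real.cos (t / 64) ≤ ((sN t + 1 : ℕ) : ℝ) / cN t := by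
    have e : ((sN t + 1 : ℕ) : ℝ) / cN t =
        (((sN t + 1 : ℕ) : ℝ) / 1099511627776) / ((cN t : ℝ) / 1099511627776) := by
      field_simp
    rw [e]
    exact div_le_div₀ (by positivity) (sin_bd ht).2 (by positivity) (cos_bd ht).1
  have h2 := real_le_div ((sN t + 1) * 1099511627776) (cN t) (cN_pos ht)
  rw [le_div_iff₀ (by norm_num)]
  refine le_trans ?_ h2
  calc Real.sin (t / 64) / Real.cos (t / 64) * 1099511627776 ≤
      ((sN t + 1 : ℕ) : ℝ) / cN t * 1099511627776 :=
        mul_le_mul_of_nonneg_right h1 (by norm_num)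
    _ = _ := by push_cast; ring

theorem tan_low (ht : t ≤ 100) :
    ((sN t * 1099511627776 / (cN t + 1) : ℕ) : ℝ) / 1099511627776 ≤ Real.tan (t / 64) := by
  have hc := cos_pos_tab ht
  rw [Real.tan_eq_sin_div_cos]
  have h1 : (sN t : ℝ) / ((cN t + 1 : ℕ) : ℝ) ≤ Real.sin (t / 64) / Real.cos (t / 64) := by
    have e : (sN t : ℝ) / ((cN t + 1 : ℕ) : ℝ) =
        ((sN t : ℝ) / 1099511627776) / (((cN t + 1 : ℕ) : ℝ) / 1099511627776) := by
      field_simp
    rw [e]
    exact div_le_div₀ (sin_nonneg_tab (by omega)) (sin_bd ht).1 hc (cos_bd ht).2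
  have h2 := div_le_real (sN t * 1099511627776) (cN t + 1)
  rw [div_le_iff₀ (by norm_num)]
  refine h2.trans ?_
  calc ((sN t * 1099511627776 : ℕ) : ℝ) / ((cN t + 1 : ℕ) : ℝ) =
      (sN t : ℝ) / ((cN t + 1 : ℕ) : ℝ) * 1099511627776 := by push_cast; ring
    _ ≤ _ := mul_le_mul_of_nonneg_right h1 (by norm_num)

theorem WN_le {P : ℕ} (ht : t ≤ 100) (hW : 0 < WN P t) :
    (WN P t : ℝ) / 1099511627776 ≤ (t : ℝ) / 64 - (P : ℝ) / 1099511627776 * Real.sin (t / 64) := by
  rw [WN_def] at hW ⊢
  rw [Nat.cast_sub (by omega)]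
  have h1 := le_shr (P * (sN t + 1)) 40
  rw [c40] at h1
  have h2 : (P : ℝ) / 1099511627776 * Real.sin (t / 64) ≤
      ((P * (sN t + 1) : ℕ) : ℝ) / 1099511627776 / 1099511627776 := by
    calc (P : ℝ) / 1099511627776 * Real.sin (t / 64) ≤
        (P : ℝ) / 1099511627776 * (((sN t + 1 : ℕ) : ℝ) / 1099511627776) :=
          mul_le_mul_of_nonneg_left (sin_bd ht).2 (by positivity)
      _ = _ := by push_cast; ring
  have h3 := div_le_div_of_nonneg_right h1 (show (0 : ℝ) ≤ 1099511627776 by norm_num)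
  rw [sub_div]
  have e : ((t * 17179869184 : ℕ) : ℝ) / 1099511627776 = t / 64 := by
    push_cast
    ring
  rw [e]
  linarith

theorem XN_ge {P : ℕ} (ht : t ≤ 100) :
    (P : ℝ) / 1099511627776 * (1 + Real.cos (t / 64)) - Real.log (Real.cos (t / 64)) ≤
      (XN P t : ℝ) / 1099511627776 := by
  rw [XN_def]
  have h1 := le_shr (P * (1099511627776 + (cN t + 1))) 40
  have h2 := log_tab ht
  rw [c40] at h1 h2
  have h3 : (P : ℝ) / 1099511627776 * (1 + Real.cos (t / 64)) ≤
      ((P * (1099511627776 + (cN t + 1)) : ℕ) : ℝ) / 1099511627776 / 1099511627776 := by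
    calc (P : ℝ) / 1099511627776 * (1 + Real.cos (t / 64)) ≤
        (P : ℝ) / 1099511627776 * (1 + ((cN t + 1 : ℕ) : ℝ) / 1099511627776) := by
          apply mul_le_mul_of_nonneg_left _ (by positivity)
          linarith [(cos_bd ht).2]
      _ = _ := by push_cast; field_simp
  have h4 := div_le_div_of_nonneg_right h1 (show (0 : ℝ) ≤ 1099511627776 by norm_num)
  rw [Nat.cast_add, add_div]
  linarith

theorem LN_ge {P y : ℕ} (ht : t ≤ 100) :
    Real.exp ((P : ℝ) / 1099511627776 * (1 / Real.cos (t / 64) - 1) +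
      Real.tan (t / 64) * ((y : ℝ) / 1099511627776 + t / 64 - Real.pi)) ≤
      (LN P y t : ℝ) / 1099511627776 := by
  rw [LN_def]
  have hes := es_spec (((P * ((1099511627776 * 1099511627776) / cN t + 1 - 1099511627776)) >>> 40
    + 1) + (((y + t * 17179869184) - 3454217652357) *
      (((sN t + 1) * 1099511627776) / cN t + 1)) >>> 40 + 1)
    (((3454217652357 - (y + t * 17179869184)) * ((sN t * 1099511627776) / (cN t + 1))) >>> 40)
  rw [c40] at hes
  refine le_trans (Real.exp_le_exp.2 ?_) hes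
  have e1 := le_shr (P * ((1099511627776 * 1099511627776) / cN t + 1 - 1099511627776)) 40
  have e2 := le_shr (((y + t * 17179869184) - 3454217652357) *
      (((sN t + 1) * 1099511627776) / cN t + 1)) 40
  have e3 := shr_le ((3454217652357 - (y + t * 17179869184)) *
    ((sN t * 1099511627776) / (cN t + 1))) 40
  rw [c40] at e1 e2 e3
  have f1 : (P : ℝ) * (1 / Real.cos (t / 64) - 1) ≤
      (((P * ((1099511627776 * 1099511627776) / cN t + 1 - 1099511627776) : ℕ)) : ℝ) /
        1099511627776 := by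
    have := mul_le_mul_of_nonneg_left (sec_upp ht) (Nat.cast_nonneg P)
    refine this.trans (le_of_eq ?_)
    rw [Nat.cast_mul]
    ring
  set z : ℝ := (y : ℝ) + t * 17179869184 - 3454217652357 with hz
  have hpi : (y : ℝ) / 1099511627776 + t / 64 - Real.pi ≤ z / 1099511627776 := by
    rw [hz]
    have := pi_low
    have e : ((y : ℝ) + t * 17179869184 - 3454217652357) / 1099511627776 =
        y / 1099511627776 + t / 64 - 3454217652357 / 1099511627776 := by ring
    rw [e]
    linarith
  have htn := tan_nonneg ht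
  have f2 : Real.tan (t / 64) * ((y : ℝ) / 1099511627776 + t / 64 - Real.pi) ≤
      Real.tan (t / 64) * (z / 1099511627776) := mul_le_mul_of_nonneg_left hpi htn
  have f3 : Real.tan (t / 64) * z ≤
      ((((y + t * 17179869184) - 3454217652357) *
        (((sN t + 1) * 1099511627776) / cN t + 1) : ℕ) : ℝ) / 1099511627776 -
      (((3454217652357 - (y + t * 17179869184)) *
        ((sN t * 1099511627776) / (cN t + 1)) : ℕ) : ℝ) / 1099511627776 := by
    rcases le_total 3454217652357 (y + t * 17179869184) with h | h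
    · rw [Nat.sub_eq_zero_of_le h, Nat.zero_mul, Nat.cast_zero, zero_div, sub_zero, Nat.cast_mul,
        Nat.cast_sub h]
      have h0 : 0 ≤ z := by
        have : ((3454217652357 : ℕ) : ℝ) ≤ ((y + t * 17179869184 : ℕ) : ℝ) := by exact_mod_cast h
        push_cast at this
        rw [hz]
        linarith
      have := mul_le_mul_of_nonneg_right (tan_upp ht) h0
      refine this.trans (le_of_eq ?_)
      rw [hz]
      push_cast
      ring
    · rw [Nat.sub_eq_zero_of_le h, Nat.zero_mul, Nat.cast_zero, zero_div, zero_sub, Nat.cast_mul,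
        Nat.cast_sub h]
      have h0 : 0 ≤ -z := by
        have : ((y + t * 17179869184 : ℕ) : ℝ) ≤ ((3454217652357 : ℕ) : ℝ) := by exact_mod_cast h
        push_cast at this
        rw [hz]
        linarith
      have := mul_le_mul_of_nonneg_right (tan_low ht) h0
      have e : -((((3454217652357 : ℕ) : ℝ) - ((y + t * 17179869184 : ℕ) : ℝ)) *
          ((sN t * 1099511627776 / (cN t + 1) : ℕ) : ℝ) / 1099511627776) =
          -(((sN t * 1099511627776 / (cN t + 1) : ℕ) : ℝ) / 1099511627776 * -z) := by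
        rw [hz]
        push_cast
        ring
      rw [e]
      linarith
  have g1 : (P : ℝ) / 1099511627776 * (1 / Real.cos (t / 64) - 1) =
      ((P : ℝ) * (1 / Real.cos (t / 64) - 1)) / 1099511627776 := by ring
  have g2 : Real.tan (t / 64) * (z / 1099511627776) = (Real.tan (t / 64) * z) / 1099511627776 := by
    ring
  refine (add_le_add le_rfl f2).trans ?_
  rw [g1, g2, ← add_div, ← sub_div]
  apply div_le_div_of_nonneg_right _ (by norm_num)
  push_cast at e1 e2 e3 f1 f3 ⊢
  linarith

theorem tdN_ge {dl : ℕ} (ht : t ≤ 100) :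
    Real.tan (t / 64) * ((dl : ℝ) / 1099511627776) ≤ (tdN dl t : ℝ) / 1099511627776 := by
  rw [tdN_def]
  have h1 := le_shr (dl * (((sN t + 1) * 1099511627776) / cN t + 1)) 40
  rw [c40] at h1
  have h2 := mul_le_mul_of_nonneg_right (tan_upp ht)
    (show (0 : ℝ) ≤ (dl : ℝ) / 1099511627776 by positivity)
  refine h2.trans ?_
  refine le_trans (le_of_eq ?_) (div_le_div_of_nonneg_right h1
    (show (0 : ℝ) ≤ 1099511627776 by norm_num))
  push_cast
  ring

theorem K_ge {dl : ℕ} (ht : t ≤ 100) (htd : tdN dl t < 1099511627776) :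
    Real.exp (Real.tan (t / 64) * ((dl : ℝ) / 1099511627776)) ≤
      1099511627776 / ((1099511627776 - tdN dl t : ℕ) : ℝ) := by
  refine (Real.exp_le_exp.2 (tdN_ge ht)).trans ?_
  have h : (tdN dl t : ℝ) < 1099511627776 := by exact_mod_cast htd
  rw [Nat.cast_sub htd.le]
  push_cast
  set d : ℝ := (tdN dl t : ℝ) with hd
  have h1 := Real.add_one_le_exp (-(d / 1099511627776))
  rw [Real.exp_neg] at h1
  have h2 := Real.exp_pos (d / 1099511627776)
  rw [le_div_iff₀ (by linarith)]
  have h3 : Real.exp (d / 1099511627776) * (-(d / 1099511627776) + 1) ≤ 1 := by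
    calc Real.exp (d / 1099511627776) * (-(d / 1099511627776) + 1) ≤
        Real.exp (d / 1099511627776) * (Real.exp (d / 1099511627776))⁻¹ :=
          mul_le_mul_of_nonneg_left h1 h2.le
      _ = 1 := mul_inv_cancel₀ h2.ne'
  have e : Real.exp (d / 1099511627776) * (1099511627776 - d) =
      1099511627776 * (Real.exp (d / 1099511627776) * (-(d / 1099511627776) + 1)) := by
    ring
  rw [e]
  linarith

theorem negC_ge {Ea Eb La Lb td : ℕ} (ht : t ≤ 100) (htd : td < 1099511627776) :
    Real.cos (t / 64) * (2 * ((Ea : ℝ) / 1099511627776 * (La / 1099511627776) +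
      Eb / 1099511627776 * (Lb / 1099511627776)) +
      (Ea / 1099511627776 * (Lb / 1099511627776) + Eb / 1099511627776 * (La / 1099511627776))) / 6 *
      (1099511627776 / ((1099511627776 - td : ℕ) : ℝ)) ≤
      (negC Ea Eb La Lb td t : ℝ) / (1099511627776 * 1099511627776) := by
  rw [negC_def]
  have hd : 0 < 1099511627776 - td := by omega
  have hdr : (0 : ℝ) < ((1099511627776 - td : ℕ) : ℝ) := by exact_mod_cast hd
  set X := (cN t + 1) * (2 * (Ea * La + Eb * Lb) + (Ea * Lb + Eb * La)) with hX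
  have h1 := real_le_div X (6 * 1099511627776) (by norm_num)
  have h2 := real_le_div ((X / (6 * 1099511627776) + 1) * 1099511627776) (1099511627776 - td) hd
  have h3 : Real.cos (t / 64) * (2 * ((Ea : ℝ) / 1099511627776 * (La / 1099511627776) +
      Eb / 1099511627776 * (Lb / 1099511627776)) +
      (Ea / 1099511627776 * (Lb / 1099511627776) + Eb / 1099511627776 * (La / 1099511627776))) / 6 ≤
      ((X : ℝ) / (6 * 1099511627776)) / (1099511627776 * 1099511627776) := by
    calc _ ≤ ((cN t + 1 : ℕ) : ℝ) / 1099511627776 *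
        (2 * ((Ea : ℝ) / 1099511627776 * (La / 1099511627776) +
        Eb / 1099511627776 * (Lb / 1099511627776)) +
        (Ea / 1099511627776 * (Lb / 1099511627776) +
          Eb / 1099511627776 * (La / 1099511627776))) / 6 := by
          apply div_le_div_of_nonneg_right _ (by norm_num)
          exact mul_le_mul_of_nonneg_right (cos_bd ht).2 (by positivity)
      _ = _ := by
          rw [hX]
          push_cast
          ring
  have h4 : ((X : ℝ) / (6 * 1099511627776)) / (1099511627776 * 1099511627776) ≤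
      ((X / (6 * 1099511627776) + 1 : ℕ) : ℝ) / (1099511627776 * 1099511627776) := by
    apply div_le_div_of_nonneg_right _ (by norm_num)
    refine le_trans (le_of_eq ?_) h1
    push_cast
    ring
  have h5 := mul_le_mul_of_nonneg_right (h3.trans h4)
    (show (0 : ℝ) ≤ 1099511627776 / ((1099511627776 - td : ℕ) : ℝ) by positivity)
  refine h5.trans ?_
  refine le_trans (le_of_eq ?_) (div_le_div_of_nonneg_right h2
    (show (0 : ℝ) ≤ 1099511627776 * 1099511627776 by norm_num))
  rw [Nat.cast_mul]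
  push_cast
  ring

end trig

theorem posC_le {N Na Nb Q g XX : ℕ} (hNa : 1 ≤ Na) (h1 : Na ≤ N) (h2 : N ≤ Nb) (hQ : 0 < Q)
    (hg : 0 < g) {X : ℝ} (hX : X ≤ XX / 1099511627776) :
    (posC Na Nb Q g XX : ℝ) / (1099511627776 * 1099511627776) ≤
      Real.exp (N * (Real.log ((g : ℝ) / 1099511627776) / 2) - X / 2 -
        N * (1 / (Q : ℝ)) ^ 2 / (6 * ((g : ℝ) / 1099511627776))) := by
  have hQ' : (0 : ℝ) < Q := Nat.cast_pos.2 hQ
  have hg' : (0 : ℝ) < g := Nat.cast_pos.2 hg
  have hγ : 0 < (g : ℝ) / 1099511627776 := by positivity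
  rw [posC_def]
  have e1 := pL_int (g := g) hNa h1 h2
  have e2 := emL_spec (((XX / 2) + 1) + (((Nb * (1099511627776 * 1099511627776)) /
    ((6 * (Q * Q)) * g)) + 1))
  rw [c40] at e2
  have e3 : Real.exp (N * (Real.log ((g : ℝ) / 1099511627776) / 2)) =
      Real.sqrt ((g : ℝ) / 1099511627776) ^ N := by
    rw [Real.exp_nat_mul, Real.sqrt_eq_rpow, Real.rpow_def_of_pos hγ]
    congr 2
    ring
  rw [sub_sub, sub_eq_add_neg, Real.exp_add, e3]
  have e4 : Real.exp (-((((XX / 2) + 1) + (((Nb * (1099511627776 * 1099511627776)) /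
      ((6 * (Q * Q)) * g)) + 1) : ℕ) / 1099511627776)) ≤
      Real.exp (-(X / 2 + N * (1 / (Q : ℝ)) ^ 2 / (6 * ((g : ℝ) / 1099511627776)))) := by
    apply Real.exp_le_exp.2
    rw [neg_le_neg_iff, Nat.cast_add, add_div]
    have f1 := real_le_div XX 2 (by norm_num)
    have f2 := real_le_div (Nb * (1099511627776 * 1099511627776)) ((6 * (Q * Q)) * g)
      (by positivity)
    have f3 : X / 2 ≤ ((XX / 2 + 1 : ℕ) : ℝ) / 1099511627776 := by
      refine le_trans ?_ (div_le_div_of_nonneg_right f1
        (show (0 : ℝ) ≤ 1099511627776 by norm_num))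
      rw [div_right_comm]
      push_cast
      linarith
    have f4 : N * (1 / (Q : ℝ)) ^ 2 / (6 * ((g : ℝ) / 1099511627776)) ≤
        ((Nb * (1099511627776 * 1099511627776) / ((6 * (Q * Q)) * g) + 1 : ℕ) : ℝ) /
          1099511627776 := by
      refine le_trans ?_ (div_le_div_of_nonneg_right f2
        (show (0 : ℝ) ≤ 1099511627776 by norm_num))
      have hNb : (N : ℝ) ≤ Nb := by exact_mod_cast h2
      calc N * (1 / (Q : ℝ)) ^ 2 / (6 * ((g : ℝ) / 1099511627776)) ≤
          Nb * (1 / (Q : ℝ)) ^ 2 / (6 * ((g : ℝ) / 1099511627776)) := by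
            apply div_le_div_of_nonneg_right _ (by positivity)
            exact mul_le_mul_of_nonneg_right hNb (by positivity)
        _ = _ := by
            push_cast
            field_simp
            ring
    linarith
  calc _ = (pL (bi (Nat.blt 1099511627776 g) Na Nb) g : ℝ) / 1099511627776 *
      ((emL (((XX / 2) + 1) + (((Nb * (1099511627776 * 1099511627776)) /
        ((6 * (Q * Q)) * g)) + 1)) : ℝ) / 1099511627776) := by
        rw [Nat.cast_mul]
        ring
    _ ≤ _ := mul_le_mul e1 (e2.trans e4) (by positivity) (by positivity)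

end Pool.Agent.Lib.MP_af3a4a_an.P1.CHK.Curve
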