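import Pool.Agent.Lib.MP_af3a4a_an.P1.CHK.H80.F5

/-!
# The T2 curve: real analysis (council 2, helper62)

`gg m x = 1 - 2 x m + x²`, `JJ m x = ∫_0^x t/((1 - t²) gg)`, `Th m x = ∫_0^x 1/gg`.
-/

set_option autoImplicit false

namespace Pool.Agent.Lib.MP_af3a4a_an.P1.CHK.Curve

open MeasureTheory intervalIntegral
open Pool.Agent.Lib.MP_af3a4a_an.P1.CHK.H80

/-! ### the kernel `k(t) = 1/((1-t²) gg)` -/

/-- `(1 - t²) gg m t` -/
def pp (m t : ℝ) : ℝ := (1 - t ^ 2) * gg m t

theorem pp_eq (m t : ℝ) : pp m t = 1 - 2 * m * t + 2 * m * t ^ 3 - t ^ 4 := by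
  unfold pp gg
  ring

theorem pp_pos {m t : ℝ} (hm : |m| ≤ 1) (h0 : 0 ≤ t) (h1 : t < 1) : 0 < pp m t := by
  unfold pp
  have := gg_pos hm (by linarith only [h0] : -1 < t) h1
  have h2 : 0 < 1 - t ^ 2 := by nlinarith only [h0, h1]
  positivity

/-- derivative of `pp` -/
def pp1 (m t : ℝ) : ℝ := -2 * m + 6 * m * t ^ 2 - 4 * t ^ 3
/-- second derivative of `pp` -/
def pp2 (m t : ℝ) : ℝ := 12 * m * t - 12 * t ^ 2

theorem pp_hasDerivAt (m t : ℝ) : HasDerivAt (pp m) (pp1 m t) t := by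
  have h : HasDerivAt (fun t : ℝ => 1 - 2 * m * t + 2 * m * t ^ 3 - t ^ 4)
      (-(2 * m) + 2 * m * (3 * t ^ 2) - 4 * t ^ 3) t := by
    have h1 := ((((hasDerivAt_id t).const_mul (2 * m)).const_sub 1).add
      (((hasDerivAt_id t).pow 3).const_mul (2 * m))).sub ((hasDerivAt_id t).pow 4)
    refine h1.congr_deriv ?_
    simp
  have e : pp m = fun t : ℝ => 1 - 2 * m * t + 2 * m * t ^ 3 - t ^ 4 := funext (pp_eq m)
  rw [e]
  refine h.congr_deriv ?_
  unfold pp1
  ring

theorem pp1_hasDerivAt (m t : ℝ) : HasDerivAt (pp1 m) (pp2 m t) t := by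
  have h1 := ((((hasDerivAt_id t).pow 2).const_mul (6 * m)).const_add (-2 * m)).sub
    (((hasDerivAt_id t).pow 3).const_mul 4)
  refine (h1.congr_deriv ?_)
  unfold pp2
  simp
  ring

/-- log-convexity of `1/pp` -/
theorem pp_key (m t : ℝ) : 0 ≤ pp1 m t ^ 2 - pp m t * pp2 m t := by
  have hA : 0 < 1 + 3 * t ^ 4 := by positivity
  have key : (1 + 3 * t ^ 4) * (pp1 m t ^ 2 - pp m t * pp2 m t) =
      (2 * (1 + 3 * t ^ 4) * m - t * (3 + 2 * t ^ 2 + 3 * t ^ 4)) ^ 2
        + 3 * t ^ 2 * (1 - t ^ 2) ^ 4 := by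
    rw [pp_eq]
    unfold pp1 pp2
    ring
  have h : 0 ≤ (1 + 3 * t ^ 4) * (pp1 m t ^ 2 - pp m t * pp2 m t) := by
    rw [key]
    positivity
  exact nonneg_of_mul_nonneg_right h hA

/-- `k(t) = 1/((1 - t²) gg)` -/
noncomputable def kk (m t : ℝ) : ℝ := (pp m t)⁻¹

theorem kk_pos {m t : ℝ} (hm : |m| ≤ 1) (h0 : 0 ≤ t) (h1 : t < 1) : 0 < kk m t :=
  inv_pos.2 (pp_pos hm h0 h1)

theorem kk_convex {m : ℝ} (hm : |m| ≤ 1) : ConvexOn ℝ (Set.Ico 0 1) (kk m) := by
  have hd1 : ∀ x ∈ Set.Ico (0 : ℝ) 1, HasDerivAt (kk m) (-pp1 m x / pp m x ^ 2) x := by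
    intro x hx
    exact (pp_hasDerivAt m x).inv (pp_pos hm hx.1 hx.2).ne'
  apply convexOn_of_hasDerivWithinAt2_nonneg (convex_Ico 0 1)
    (f' := fun x => -pp1 m x / pp m x ^ 2)
    (f'' := fun x => (2 * pp1 m x ^ 2 - pp m x * pp2 m x) / pp m x ^ 3)
  · exact fun x hx => (hd1 x hx).continuousAt.continuousWithinAt
  · intro x hx
    rw [interior_Ico] at hx
    exact (hd1 x ⟨hx.1.le, hx.2⟩).hasDerivWithinAt
  · intro x hx
    rw [interior_Ico] at hx
    have hp := pp_pos hm hx.1.le hx.2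
    have h1 := ((pp1_hasDerivAt m x).neg.div ((pp_hasDerivAt m x).pow 2)
      (pow_ne_zero 2 hp.ne')).hasDerivWithinAt (s := interior (Set.Ico (0 : ℝ) 1))
    refine h1.congr_deriv ?_
    simp only [Nat.cast_ofNat, Nat.reduceSub, pow_one, Pi.neg_apply, Pi.pow_apply]
    field_simp
    ring
  · intro x hx
    rw [interior_Ico] at hx
    have hp := pp_pos hm hx.1.le hx.2
    have h2 := pp_key m x
    have h3 : 0 ≤ 2 * pp1 m x ^ 2 - pp m x * pp2 m x := by
      have := sq_nonneg (pp1 m x)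
      linarith only [h2, this]
    positivity

/-- a convex function lies below its chord -/
theorem chord {f : ℝ → ℝ} {s : Set ℝ} (hf : ConvexOn ℝ s f) {a b x : ℝ} (ha : a ∈ s) (hb : b ∈ s)
    (hab : a < b) (h1 : a ≤ x) (h2 : x ≤ b) :
    f x ≤ (f a * (b - x) + f b * (x - a)) / (b - a) := by
  have hba : 0 < b - a := by linarith only [hab]
  have w1 : 0 ≤ (b - x) / (b - a) := div_nonneg (by linarith only [h2]) hba.le
  have w2 : 0 ≤ (x - a) / (b - a) := div_nonneg (by linarith only [h1]) hba.le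
  have w3 : (b - x) / (b - a) + (x - a) / (b - a) = 1 := by
    rw [← add_div]
    have : b - x + (x - a) = b - a := by ring
    rw [this, div_self hba.ne']
  have h := hf.2 ha hb w1 w2 w3
  simp only [smul_eq_mul] at h
  have e : (b - x) / (b - a) * a + (x - a) / (b - a) * b = x := by
    field_simp
    ring
  rw [e] at h
  refine h.trans (le_of_eq ?_)
  field_simp

/-! ### `JJ` -/

theorem JJ_eq (m x : ℝ) : JJ m x = ∫ t in (0 : ℝ)..x, t * kk m t := by
  unfold JJ
  apply intervalIntegral.integral_congr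
  intro t _
  show t / ((1 - t ^ 2) * gg m t) = t * kk m t
  unfold kk pp
  rw [div_eq_mul_inv]

theorem kk_cont {m : ℝ} (hm : |m| ≤ 1) : ContinuousOn (kk m) (Set.Ico 0 1) := by
  intro t ht
  have hp := pp_pos hm ht.1 ht.2
  exact ((pp_hasDerivAt m t).continuousAt.inv₀ hp.ne').continuousWithinAt

theorem tkk_int {m : ℝ} (hm : |m| ≤ 1) {a b : ℝ} (h0 : 0 ≤ a) (hab : a ≤ b) (h1 : b < 1) :
    IntervalIntegrable (fun t => t * kk m t) volume a b := by
  apply ContinuousOn.intervalIntegrable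
  rw [Set.uIcc_of_le hab]
  apply ContinuousOn.mul continuousOn_id
  apply (kk_cont hm).mono
  intro t ht
  exact ⟨h0.trans ht.1, ht.2.trans_lt h1⟩

theorem JJ_sub {m : ℝ} (hm : |m| ≤ 1) {a b : ℝ} (h0 : 0 ≤ a) (hab : a ≤ b) (h1 : b < 1) :
    JJ m b = JJ m a + ∫ t in a..b, t * kk m t := by
  rw [JJ_eq, JJ_eq]
  exact (intervalIntegral.integral_add_adjacent_intervals
    (tkk_int hm le_rfl h0 (hab.trans_lt h1)) (tkk_int hm h0 hab h1)).symm

theorem JJ_zero (m : ℝ) : JJ m 0 = 0 := by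
  unfold JJ
  simp

/-- second order upper bound of the increment of `JJ` -/
theorem JJ_step {m : ℝ} (hm : |m| ≤ 1) {a b ka kb : ℝ} (h0 : 0 ≤ a) (hab : a < b) (h1 : b < 1)
    (hka : kk m a ≤ ka) (hkb : kk m b ≤ kb) :
    JJ m b ≤ JJ m a + (b - a) * (ka * (2 * a + b) + kb * (a + 2 * b)) / 6 := by
  rw [JJ_sub hm h0 hab.le h1]
  have hba : 0 < b - a := by linarith only [hab]
  have h2 : ∫ t in a..b, t * kk m t ≤
      ∫ t in a..b, t * ((ka * (b - t) + kb * (t - a)) / (b - a)) := by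
    apply intervalIntegral.integral_mono_on hab.le (tkk_int hm h0 hab.le h1)
    · apply Continuous.intervalIntegrable
      fun_prop
    · intro t ht
      apply mul_le_mul_of_nonneg_left _ (h0.trans ht.1)
      refine (chord (kk_convex hm) ⟨h0, by linarith only [hab, h1]⟩ ⟨by linarith only [h0, hab], h1⟩ hab ht.1 ht.2).trans ?_
      apply div_le_div_of_nonneg_right _ hba.le
      have h3 : 0 ≤ b - t := by linarith only [ht, ht.2]
      have h4 : 0 ≤ t - a := by linarith only [ht, ht.1]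
      have h5 := mul_le_mul_of_nonneg_right hka h3
      have h6 := mul_le_mul_of_nonneg_right hkb h4
      linarith only [h5, h6]
  have h3 : ∫ t in a..b, t * ((ka * (b - t) + kb * (t - a)) / (b - a)) =
      (b - a) * (ka * (2 * a + b) + kb * (a + 2 * b)) / 6 := by
    have hd : ∀ t ∈ Set.uIcc a b, HasDerivAt
        (fun t : ℝ => (ka * (b * t ^ 2 / 2 - t ^ 3 / 3) + kb * (t ^ 3 / 3 - a * t ^ 2 / 2)) / (b - a))
        (t * ((ka * (b - t) + kb * (t - a)) / (b - a))) t := by
      intro t _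
      have e1 := ((((hasDerivAt_id t).pow 2).const_mul b).div_const 2).sub
        (((hasDerivAt_id t).pow 3).div_const 3)
      have e2 := (((hasDerivAt_id t).pow 3).div_const 3).sub
        ((((hasDerivAt_id t).pow 2).const_mul a).div_const 2)
      have e3 := ((e1.const_mul ka).add (e2.const_mul kb)).div_const (b - a)
      refine e3.congr_deriv ?_
      simp
      ring
    rw [intervalIntegral.integral_eq_sub_of_hasDerivAt hd]
    · field_simp
      ring
    · apply Continuous.intervalIntegrable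
      fun_prop
  linarith only [h2, h3]

/-- `t ↦ t k(t)` is increasing -/
theorem tkk_mono {m : ℝ} (hm : |m| ≤ 1) : MonotoneOn (fun t => t * kk m t) (Set.Ico 0 1) := by
  have hm1 := (abs_le.1 hm).2
  apply monotoneOn_of_deriv_nonneg (convex_Ico 0 1)
  · exact continuousOn_id.mul (kk_cont hm)
  · intro t ht
    rw [interior_Ico] at ht
    have hp := pp_pos hm ht.1.le ht.2
    exact ((hasDerivAt_id t).mul
      ((pp_hasDerivAt m t).inv hp.ne')).differentiableAt.differentiableWithinAt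
  · intro t ht
    rw [interior_Ico] at ht
    have hp := pp_pos hm ht.1.le ht.2
    have hd : HasDerivAt (fun t => t * kk m t) ((pp m t - t * pp1 m t) / pp m t ^ 2) t := by
      refine ((hasDerivAt_id t).mul ((pp_hasDerivAt m t).inv hp.ne')).congr_deriv ?_
      simp only [id_eq, Pi.inv_apply]
      field_simp
      ring
    rw [hd.deriv]
    apply div_nonneg _ (by positivity)
    rw [pp_eq]
    unfold pp1
    -- `1 + 3 t⁴ - 4 t³ m ≥ 0`
    have h3 : 0 ≤ t ^ 3 * (1 - m) := mul_nonneg (by have := ht.1; positivity) (by linarith only [hm1])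
    have h4 : 0 ≤ (1 - t) ^ 2 * (1 + 2 * t + 3 * t ^ 2) := by
      have := ht.1
      positivity
    linarith only [h3, h4]

theorem JJ_hasDerivAt {m : ℝ} (hm : |m| ≤ 1) {x : ℝ} (h0 : -1 < x) (h1 : x < 1) :
    HasDerivAt (JJ m) (x / ((1 - x ^ 2) * gg m x)) x :=
  hasDerivAt_integral (JJ_integrand_cont hm) h0 h1

theorem JJ_convex {m : ℝ} (hm : |m| ≤ 1) : ConvexOn ℝ (Set.Ico 0 1) (JJ m) := by
  apply MonotoneOn.convexOn_of_deriv (convex_Ico 0 1)
  · exact fun x hx => (JJ_hasDerivAt hm (by linarith only [hx, hx.1]) hx.2).continuousAt.continuousWithinAt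
  · intro x hx
    rw [interior_Ico] at hx
    exact (JJ_hasDerivAt hm (by linarith only [hx, hx.1]) hx.2).differentiableAt.differentiableWithinAt
  · rw [interior_Ico]
    intro x hx y hy hxy
    rw [(JJ_hasDerivAt hm (by linarith only [hx, hx.1]) hx.2).deriv,
      (JJ_hasDerivAt hm (by linarith only [hy, hy.1]) hy.2).deriv]
    have h := tkk_mono hm ⟨hx.1.le, hx.2⟩ ⟨hy.1.le, hy.2⟩ hxy
    simp only [kk, pp] at h
    rwa [← div_eq_mul_inv, ← div_eq_mul_inv] at h

theorem gg_anti {m m' x : ℝ} (h : m ≤ m') (h0 : 0 ≤ x) : gg m' x ≤ gg m x := by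
  unfold gg
  nlinarith only [h, h0]

theorem kk_mono {m m' t : ℝ} (hm' : |m'| ≤ 1) (h : m ≤ m') (h0 : 0 ≤ t) (h1 : t < 1) :
    kk m t ≤ kk m' t := by
  unfold kk
  apply inv_anti₀ (pp_pos hm' h0 h1)
  unfold pp
  apply mul_le_mul_of_nonneg_left (gg_anti h h0)
  nlinarith only [h0, h1]

theorem JJ_mono {m m' x : ℝ} (hm : |m| ≤ 1) (hm' : |m'| ≤ 1) (h : m ≤ m') (h0 : 0 ≤ x)
    (h1 : x < 1) : JJ m x ≤ JJ m' x := by
  rw [JJ_eq, JJ_eq]
  apply intervalIntegral.integral_mono_on h0 (tkk_int hm le_rfl h0 h1)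
    (tkk_int hm' le_rfl h0 h1)
  intro t ht
  exact mul_le_mul_of_nonneg_left (kk_mono hm' h ht.1 (ht.2.trans_lt h1)) ht.1

theorem JJ_nonneg {m x : ℝ} (hm : |m| ≤ 1) (h0 : 0 ≤ x) (h1 : x < 1) : 0 ≤ JJ m x := by
  rw [JJ_eq]
  apply intervalIntegral.integral_nonneg h0
  intro t ht
  exact mul_nonneg ht.1 (kk_pos hm ht.1 (ht.2.trans_lt h1)).le

/-! ### `Th` -/

/-- `1 - (a+b) m + a b` -/
def dd (m a b : ℝ) : ℝ := 1 - (a + b) * m + a * b

theorem dd_pos {m a b : ℝ} (hm : |m| ≤ 1) (h0 : 0 ≤ a) (hab : a ≤ b) (h1 : b < 1) :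
    0 < dd m a b := by
  unfold dd
  have h2 := (abs_le.1 hm).2
  have h3 : (a + b) * m ≤ a + b := by nlinarith only [h0, hab, h2]
  linarith only [hab, h1, h3, mul_pos (by linarith : 0 < 1 - a) (by linarith : 0 < 1 - b)]

theorem dd_key (m a b : ℝ) : gg m a * gg m b = dd m a b ^ 2 + (1 - m ^ 2) * (b - a) ^ 2 := by
  unfold gg dd
  ring

theorem Th_zero (m : ℝ) : Th m 0 = 0 := by
  unfold Th
  simp

theorem Th_hasDerivAt {m : ℝ} (hm : |m| ≤ 1) {x : ℝ} (h0 : -1 < x) (h1 : x < 1) :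
    HasDerivAt (Th m) (1 / gg m x) x :=
  hasDerivAt_integral (Th_integrand_cont hm) h0 h1

theorem w_hasDerivAt {m a x : ℝ} (hd : dd m a x ≠ 0) :
    HasDerivAt (fun x => (x - a) / dd m a x) (gg m a / dd m a x ^ 2) x := by
  have h1 : HasDerivAt (fun x => x - a) 1 x := (hasDerivAt_id x).sub_const a
  have h2 : HasDerivAt (fun x => dd m a x) (-m + a) x := by
    unfold dd
    have := (((hasDerivAt_id x).const_add a).mul_const m).const_sub 1 |>.add
      ((hasDerivAt_id x).const_mul a)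
    refine this.congr_deriv ?_
    simp
  refine (h1.div h2 hd).congr_deriv ?_
  congr 1
  unfold dd gg
  ring

theorem Th_step_up {m : ℝ} (hm : |m| ≤ 1) {a b : ℝ} (h0 : 0 ≤ a) (hab : a ≤ b) (h1 : b < 1) :
    Th m b ≤ Th m a + (b - a) / dd m a b := by
  have hm2 : 0 ≤ 1 - m ^ 2 := by
    have := sq_abs m
    have h2 : |m| ^ 2 ≤ 1 := pow_le_one₀ (abs_nonneg _) hm
    linarith only [this, h2]
  have hmono : MonotoneOn (fun x => (x - a) / dd m a x - Th m x) (Set.Icc a b) := by
    have hder : ∀ x, a ≤ x → x < 1 → HasDerivAt (fun x => (x - a) / dd m a x - Th m x)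
        (gg m a / dd m a x ^ 2 - 1 / gg m x) x := by
      intro x hx1 hx2
      exact (w_hasDerivAt (dd_pos hm h0 hx1 hx2).ne').sub (Th_hasDerivAt hm (by linarith only [h0, hx1]) hx2)
    apply monotoneOn_of_deriv_nonneg (convex_Icc a b)
    · intro x hx
      exact (hder x hx.1 (hx.2.trans_lt h1)).continuousAt.continuousWithinAt
    · intro x hx
      rw [interior_Icc] at hx
      exact (hder x hx.1.le (hx.2.trans h1)).differentiableAt.differentiableWithinAt
    · intro x hx
      rw [interior_Icc] at hx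
      have hd := dd_pos hm h0 hx.1.le (hx.2.trans h1)
      rw [(hder x hx.1.le (hx.2.trans h1)).deriv]
      have hg := gg_pos hm (by linarith only [h0, hx, hx.1] : -1 < x) (hx.2.trans h1)
      rw [sub_nonneg, div_le_div_iff₀ hg (by positivity)]
      have := dd_key m a x
      linarith only [hm2, this, mul_nonneg hm2 (sq_nonneg (x - a))]
  have := hmono ⟨le_rfl, hab⟩ ⟨hab, le_rfl⟩ hab
  simp only [sub_self, zero_div, zero_sub] at this
  linarith only [this]

theorem Th_step_dn {m : ℝ} (hm : |m| ≤ 1) {a b : ℝ} (h0 : 0 ≤ a) (hab : a ≤ b) (h1 : b < 1) :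
    Th m a + ((b - a) / dd m a b - ((b - a) / dd m a b) ^ 3 / 3) ≤ Th m b := by
  have hmono : MonotoneOn (fun x => Th m x - ((x - a) / dd m a x - ((x - a) / dd m a x) ^ 3 / 3))
      (Set.Icc a b) := by
    have hder : ∀ x, a ≤ x → x < 1 → HasDerivAt
        (fun x => Th m x - ((x - a) / dd m a x - ((x - a) / dd m a x) ^ 3 / 3))
        (1 / gg m x - (gg m a / dd m a x ^ 2) * (1 - ((x - a) / dd m a x) ^ 2)) x := by
      intro x hx1 hx2
      have hd := dd_pos hm h0 hx1 hx2
      have h2 := w_hasDerivAt (m := m) (a := a) hd.ne'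
      refine ((Th_hasDerivAt hm (by linarith only [h0, hx1]) hx2).sub
        (h2.sub ((h2.pow 3).div_const 3))).congr_deriv ?_
      simp
      ring
    apply monotoneOn_of_deriv_nonneg (convex_Icc a b)
    · intro x hx
      exact (hder x hx.1 (hx.2.trans_lt h1)).continuousAt.continuousWithinAt
    · intro x hx
      rw [interior_Icc] at hx
      exact (hder x hx.1.le (hx.2.trans h1)).differentiableAt.differentiableWithinAt
    · intro x hx
      rw [interior_Icc] at hx
      rw [(hder x hx.1.le (hx.2.trans h1)).deriv]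
      have hd := dd_pos hm h0 hx.1.le (hx.2.trans h1)
      have hg := gg_pos hm (by linarith only [h0, hx, hx.1] : -1 < x) (hx.2.trans h1)
      have hga := gg_pos hm (by linarith only [h0] : -1 < a) (by linarith only [hab, h1, hx.1, hx.2])
      have hk := dd_key m a x
      set d := dd m a x with hdd
      have e : (x - a) / d = (x - a) / d := rfl
      rw [sub_nonneg, le_div_iff₀ hg]
      have e2 : gg m a / d ^ 2 * (1 - ((x - a) / d) ^ 2) * gg m x =
          (gg m a * gg m x) * (d ^ 2 - (x - a) ^ 2) / d ^ 4 := by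
        field_simp
      rw [e2, hk, div_le_one (by positivity)]
      have hm2 : 0 ≤ 1 - m ^ 2 := by
        have := sq_abs m
        have h2 : |m| ^ 2 ≤ 1 := pow_le_one₀ (abs_nonneg _) hm
        linarith only [this, h2]
      linarith only [hm2, mul_nonneg (sq_nonneg (x - a)) (sq_nonneg d), mul_nonneg hm2 (mul_nonneg (sq_nonneg (x - a)) (sq_nonneg (x - a))), mul_nonneg (sq_nonneg m) (mul_nonneg (sq_nonneg (x - a)) (sq_nonneg d))]
  have := hmono ⟨le_rfl, hab⟩ ⟨hab, le_rfl⟩ hab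
  simp only [sub_self, zero_div] at this
  norm_num at this
  linarith only [this]

theorem Th_mono {m m' x : ℝ} (hm : |m| ≤ 1) (hm' : |m'| ≤ 1) (h : m ≤ m') (h0 : 0 ≤ x)
    (h1 : x < 1) : Th m x ≤ Th m' x := by
  unfold Th
  have hI : ∀ {n : ℝ}, |n| ≤ 1 → IntervalIntegrable (fun t => 1 / gg n t) volume 0 x := by
    intro n hn
    apply ContinuousOn.intervalIntegrable
    rw [Set.uIcc_of_le h0]
    apply (Th_integrand_cont hn).mono
    intro t ht
    exact ⟨by linarith only [ht, ht.1], ht.2.trans_lt h1⟩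
  apply intervalIntegral.integral_mono_on h0 (hI hm) (hI hm')
  intro t ht
  exact one_div_le_one_div_of_le (gg_pos hm' (by linarith only [ht, ht.1]) (ht.2.trans_lt h1))
    (gg_anti h ht.1)

/-! ### `log gg` -/

theorem log_one_add_ge {z : ℝ} (hz : -(1 / 2) ≤ z) : z - z ^ 2 ≤ Real.log (1 + z) := by
  have h1 : 0 < 1 + z := by linarith only [hz]
  have h2 : Real.log (1 + z) = -Real.log ((1 + z)⁻¹) := by rw [Real.log_inv, neg_neg]
  -- `log y ≤ y - 1` is not enough; use monotonicity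
  rcases le_total 0 z with h | h
  · -- `z ≥ 0`
    have hmono : MonotoneOn (fun z => Real.log (1 + z) - (z - z ^ 2)) (Set.Ici 0) := by
      have hder : ∀ x : ℝ, 0 ≤ x → HasDerivAt (fun z => Real.log (1 + z) - (z - z ^ 2))
          (1 / (1 + x) - (1 - 2 * x)) x := by
        intro x hx
        have e1 := ((hasDerivAt_id x).const_add 1).log (by simp; linarith only [hx])
        refine (e1.sub ((hasDerivAt_id x).sub ((hasDerivAt_id x).pow 2))).congr_deriv ?_
        simp
      apply monotoneOn_of_deriv_nonneg (convex_Ici 0)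
      · intro x hx
        exact (hder x hx).continuousAt.continuousWithinAt
      · intro x hx
        rw [interior_Ici] at hx
        exact (hder x (le_of_lt hx)).differentiableAt.differentiableWithinAt
      · intro x hx
        rw [interior_Ici] at hx
        have hx' : 0 < x := hx
        rw [(hder x hx'.le).deriv, sub_nonneg, le_div_iff₀ (by linarith only [hx'])]
        nlinarith only [hx']
    have := hmono (Set.mem_Ici.2 le_rfl) (Set.mem_Ici.2 h) h
    simp at this
    linarith only [this]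
  · have hanti : AntitoneOn (fun z => Real.log (1 + z) - (z - z ^ 2)) (Set.Icc (-(1 / 2)) 0) := by
      have hder : ∀ x : ℝ, -(1 / 2) ≤ x → HasDerivAt (fun z => Real.log (1 + z) - (z - z ^ 2))
          (1 / (1 + x) - (1 - 2 * x)) x := by
        intro x hx
        have e1 := ((hasDerivAt_id x).const_add 1).log (by simp; linarith only [hx])
        refine (e1.sub ((hasDerivAt_id x).sub ((hasDerivAt_id x).pow 2))).congr_deriv ?_
        simp
      apply antitoneOn_of_deriv_nonpos (convex_Icc _ _)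
      · intro x hx
        exact (hder x hx.1).continuousAt.continuousWithinAt
      · intro x hx
        rw [interior_Icc] at hx
        exact (hder x hx.1.le).differentiableAt.differentiableWithinAt
      · intro x hx
        rw [interior_Icc] at hx
        rw [(hder x hx.1.le).deriv, sub_nonpos, div_le_iff₀ (by linarith only [hx, hx.1])]
        nlinarith only [hx, hx.1, hx.2]
    have := hanti ⟨hz, h⟩ ⟨by norm_num, le_rfl⟩ h
    simp at this
    linarith only [this]

/-- pointwise lower bound of `log gg` around the midpoint -/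
theorem log_gg_ge {m M h δ : ℝ} (hg : 0 < gg m M) (hδ : 64 * δ ^ 2 ≤ gg m M)
    (hm : |m| ≤ 1) (hh : |h| ≤ δ) :
    Real.log (gg m M) + 2 * (M - m) / gg m M * h - 4 * h ^ 2 / gg m M ≤
      Real.log (gg m (M + h)) := by
  set g := gg m M with hgdef
  have e1 : gg m (M + h) = g * (1 + (2 * (M - m) * h + h ^ 2) / g) := by
    rw [mul_add, mul_div_cancel₀ _ hg.ne', hgdef]
    unfold gg
    ring
  set z := (2 * (M - m) * h + h ^ 2) / g with hz
  have hMm : (M - m) ^ 2 ≤ g := by
    rw [hgdef]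
    unfold gg
    have := sq_abs m
    have h2 : |m| ^ 2 ≤ 1 := pow_le_one₀ (abs_nonneg _) hm
    linarith only [this, h2]
  have hh2 : h ^ 2 ≤ δ ^ 2 := by
    rw [← sq_abs h]
    exact pow_le_pow_left₀ (abs_nonneg _) hh 2
  -- `|z| ≤ 17/64`
  set s := Real.sqrt g with hs
  have hs0 : 0 < s := Real.sqrt_pos.2 hg
  have hss : s ^ 2 = g := Real.sq_sqrt hg.le
  have a1 : |M - m| ≤ s := by
    rw [hs, ← Real.sqrt_sq_eq_abs]
    exact Real.sqrt_le_sqrt hMm
  have a2 : |h| ≤ s / 8 := by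
    have h3 : h ^ 2 ≤ (s / 8) ^ 2 := by
      rw [div_pow, hss]
      linarith only [hδ, hh2]
    have h4 := Real.sqrt_le_sqrt h3
    rwa [Real.sqrt_sq_eq_abs, Real.sqrt_sq (by positivity)] at h4
  have a3 : |2 * (M - m) * h + h ^ 2| ≤ s * |h| * (17 / 8) := by
    calc |2 * (M - m) * h + h ^ 2| ≤ |2 * (M - m) * h| + |h ^ 2| := abs_add_le _ _
      _ = 2 * |M - m| * |h| + |h| * |h| := by
          rw [abs_mul, abs_mul, abs_two, abs_pow, sq]
      _ ≤ 2 * s * |h| + (s / 8) * |h| := by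
          have b1 := mul_le_mul_of_nonneg_right a1 (abs_nonneg h)
          have b2 := mul_le_mul_of_nonneg_right a2 (abs_nonneg h)
          linarith only [b1, b2]
      _ = s * |h| * (17 / 8) := by ring
  have hz1 : |z| ≤ |h| / s * (17 / 8) := by
    rw [hz, abs_div, abs_of_pos hg, div_le_iff₀ hg]
    refine a3.trans (le_of_eq ?_)
    rw [← hss]
    field_simp
  have hz2 : -(1 / 2) ≤ z := by
    have : |h| / s ≤ 1 / 8 := by
      rw [div_le_iff₀ hs0]
      linarith only [a2]
    have := (abs_le.1 hz1).1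
    linarith
  have hz3 : z ^ 2 ≤ 5 * (h ^ 2 / g) := by
    have h5 := pow_le_pow_left₀ (abs_nonneg z) hz1 2
    rw [sq_abs] at h5
    refine h5.trans ?_
    rw [mul_pow, div_pow, sq_abs, hss]
    have : 0 ≤ h ^ 2 / g := by positivity
    linarith only [this]
  have hlog := log_one_add_ge hz2
  have h1z : 0 < 1 + z := by linarith only [hz2]
  rw [e1, Real.log_mul hg.ne' h1z.ne']
  have e2 : z = 2 * (M - m) / g * h + h ^ 2 / g := by
    rw [hz]
    ring
  have e3 : 4 * h ^ 2 / g = 4 * (h ^ 2 / g) := by ring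
  rw [e3]
  have hq : 0 ≤ h ^ 2 / g := by positivity
  linarith only [hz3, hlog, e2]

/-- mean of `log gg` over a cell -/
theorem log_gg_mean {m a b : ℝ} (hm : |m| ≤ 1) (h0 : 0 ≤ a) (hab : a < b) (h1 : b < 1)
    (hD : 16 * (b - a) ^ 2 ≤ gg m ((a + b) / 2)) :
    (b - a) * (Real.log (gg m ((a + b) / 2)) - (b - a) ^ 2 / (3 * gg m ((a + b) / 2))) ≤
      ∫ x in a..b, Real.log (gg m x) := by
  set M := (a + b) / 2 with hM
  have hg : 0 < gg m M := gg_pos hm (by rw [hM]; linarith only [h0, hab, h1]) (by rw [hM]; linarith only [hab, h1])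
  set g := gg m M with hgdef
  have hle : ∫ x in a..b, (Real.log g + 2 * (M - m) / g * (x - M) - 4 * (x - M) ^ 2 / g) ≤
      ∫ x in a..b, Real.log (gg m x) := by
    apply intervalIntegral.integral_mono_on hab.le
    · apply Continuous.intervalIntegrable
      fun_prop
    · apply ContinuousOn.intervalIntegrable
      rw [Set.uIcc_of_le hab.le]
      apply ContinuousOn.log (gg_cont m).continuousOn
      intro x hx
      exact (gg_pos hm (by linarith only [h0, hab, h1, hx, hx.1]) (hx.2.trans_lt h1)).ne'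
    · intro x hx
      have h3 := log_gg_ge (m := m) (M := M) (h := x - M) (δ := (b - a) / 2) hg
        (by rw [← hgdef]; linarith only [hD]) hm (by
          rw [abs_le, hM]
          constructor <;> linarith [hx.1, hx.2])
      have e : M + (x - M) = x := by ring
      rw [e] at h3
      exact h3
  refine le_trans (le_of_eq ?_) hle
  have hd : ∀ x ∈ Set.uIcc a b, HasDerivAt
      (fun x => Real.log g * x + 2 * (M - m) / g * ((x - M) ^ 2 / 2) - 4 * ((x - M) ^ 3 / 3) / g)
      (Real.log g + 2 * (M - m) / g * (x - M) - 4 * (x - M) ^ 2 / g) x := by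
    intro x _
    have e0 : HasDerivAt (fun x => x - M) 1 x := (hasDerivAt_id x).sub_const M
    have e1 := (((hasDerivAt_id x).const_mul (Real.log g)).add
      (((e0.pow 2).div_const 2).const_mul (2 * (M - m) / g))).sub
      ((((e0.pow 3).div_const 3).const_mul 4).div_const g)
    refine e1.congr_deriv ?_
    simp
  rw [intervalIntegral.integral_eq_sub_of_hasDerivAt hd]
  · rw [hM]
    field_simp
    ring
  · apply Continuous.intervalIntegrable
    fun_prop

/-! ### trapezoids -/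

theorem trap {f : ℝ → ℝ} {s : Set ℝ} (hf : ConvexOn ℝ s f) {a b : ℝ} (ha : a ∈ s) (hb : b ∈ s)
    (hab : a < b) (hc : ContinuousOn f (Set.Icc a b)) :
    ∫ x in a..b, f x ≤ (b - a) * (f a + f b) / 2 := by
  have hba : 0 < b - a := by linarith only [hab]
  have h2 : ∫ x in a..b, f x ≤ ∫ x in a..b, (f a * (b - x) + f b * (x - a)) / (b - a) := by
    apply intervalIntegral.integral_mono_on hab.le
    · apply ContinuousOn.intervalIntegrable
      rwa [Set.uIcc_of_le hab.le]
    · apply Continuous.intervalIntegrable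
      fun_prop
    · intro x hx
      exact chord hf ha hb hab hx.1 hx.2
  refine h2.trans (le_of_eq ?_)
  have hd : ∀ t ∈ Set.uIcc a b, HasDerivAt
      (fun t : ℝ => (f a * (b * t - t ^ 2 / 2) + f b * (t ^ 2 / 2 - a * t)) / (b - a))
      ((f a * (b - t) + f b * (t - a)) / (b - a)) t := by
    intro t _
    have e1 := ((hasDerivAt_id t).const_mul b).sub (((hasDerivAt_id t).pow 2).div_const 2)
    have e2 := (((hasDerivAt_id t).pow 2).div_const 2).sub ((hasDerivAt_id t).const_mul a)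
    have e3 := ((e1.const_mul (f a)).add (e2.const_mul (f b))).div_const (b - a)
    refine e3.congr_deriv ?_
    simp
  rw [intervalIntegral.integral_eq_sub_of_hasDerivAt hd]
  · field_simp
    ring
  · apply Continuous.intervalIntegrable
    fun_prop

/-- `gg^(N/2)` -/
noncomputable def EN (N : ℕ) (m x : ℝ) : ℝ := Real.sqrt (gg m x) ^ N

theorem EN_nonneg (N : ℕ) (m x : ℝ) : 0 ≤ EN N m x := by
  unfold EN
  positivity

theorem sqrt_gg_eq {m : ℝ} (hm : |m| ≤ 1) (x : ℝ) :
    Real.sqrt (gg m x) = ‖(x : ℂ) - (⟨m, Real.sqrt (1 - m ^ 2)⟩ : ℂ)‖ := by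
  have hm2 : 0 ≤ 1 - m ^ 2 := by
    have := sq_abs m
    have h2 : |m| ^ 2 ≤ 1 := pow_le_one₀ (abs_nonneg _) hm
    linarith only [this, h2]
  rw [Complex.norm_def, Complex.normSq_apply]
  congr 1
  simp only [Complex.sub_re, Complex.sub_im, Complex.ofReal_re, Complex.ofReal_im]
  have := Real.mul_self_sqrt hm2
  unfold gg
  linarith only [this]

theorem sqrt_gg_convex {m : ℝ} (hm : |m| ≤ 1) :
    ConvexOn ℝ Set.univ fun x => Real.sqrt (gg m x) := by
  have e : (fun x => Real.sqrt (gg m x)) =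
      fun x : ℝ => ‖(x : ℂ) - (⟨m, Real.sqrt (1 - m ^ 2)⟩ : ℂ)‖ := funext (sqrt_gg_eq hm)
  rw [e]
  refine ⟨convex_univ, ?_⟩
  intro x _ y _ a b ha hb hab
  simp only [smul_eq_mul]
  set w : ℂ := ⟨m, Real.sqrt (1 - m ^ 2)⟩
  have e2 : ((a * x + b * y : ℝ) : ℂ) - w = (a : ℂ) * ((x : ℂ) - w) + (b : ℂ) * ((y : ℂ) - w) := by
    have h1 : w = ((a + b : ℝ) : ℂ) * w := by rw [hab]; simp
    conv_lhs => rw [h1]
    push_cast
    ring
  rw [e2]
  refine (norm_add_le _ _).trans (le_of_eq ?_)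
  rw [norm_mul, norm_mul, Complex.norm_real, Complex.norm_real, Real.norm_of_nonneg ha,
    Real.norm_of_nonneg hb]

theorem EN_convex {m : ℝ} (hm : |m| ≤ 1) (N : ℕ) : ConvexOn ℝ Set.univ (EN N m) := by
  have h := (sqrt_gg_convex hm).pow (fun x _ => Real.sqrt_nonneg _) N
  exact h

theorem EN_cont (m : ℝ) (N : ℕ) : Continuous (EN N m) := by
  unfold EN gg
  fun_prop

theorem EN_trap {m : ℝ} (hm : |m| ≤ 1) (N : ℕ) {a b : ℝ} (hab : a < b) :
    ∫ x in a..b, EN N m x ≤ (b - a) * (EN N m a + EN N m b) / 2 :=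
  trap (EN_convex hm N) (Set.mem_univ _) (Set.mem_univ _) hab (EN_cont m N).continuousOn

theorem EN_exp {m x : ℝ} (hg : 0 < gg m x) (N : ℕ) :
    Real.exp (N * (Real.log (gg m x) / 2)) = EN N m x := by
  unfold EN
  rw [Real.exp_nat_mul, Real.sqrt_eq_rpow, Real.rpow_def_of_pos hg]
  congr 2
  ring

theorem EN_anti {m m' x : ℝ} (h : m ≤ m') (h0 : 0 ≤ x) (N : ℕ) : EN N m' x ≤ EN N m x :=
  pow_le_pow_left₀ (Real.sqrt_nonneg _) (Real.sqrt_le_sqrt (gg_anti h h0)) N

end Pool.Agent.Lib.MP_af3a4a_an.P1.CHK.Curve
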