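import Pool.Agent.Lib.MP_af3a4a_an.P1.CHK.Curve.Ctx

/-!
# The T2 curve: soundness (council 2, helper62)

`curve_sound`: if the boolean function `curve` accepts, then every claim is a lower bound of
`(N+1) |∫_0^{j/Q} q|` for every point of the box.
-/

set_option autoImplicit false

namespace Pool.Agent.Lib.MP_af3a4a_an.P1.CHK.Curve

open Pool.Agent.Lib.MP_af3a4a_an.P1.CHK.Arith
open Pool.Agent.Lib.MP_af3a4a_an.SV (av)
open Pool.Agent.Lib.MP_af3a4a_an.P1.H80
open Pool.Agent.Lib.MP_af3a4a_an.P1.CHK.H80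

theorem bi_and (a b : Bool) : bi a b false = true ↔ a = true ∧ b = true := by
  cases a <;> cases b <;> simp [bi]

/-- claim number `i` -/
def clm (cs i : ℕ) : ℕ := cs / 4294967296 ^ i % 4294967296

/-- the meaning of the claims of the nodes `j + 1, ..., j + K` -/
def CL (N Q : ℕ) (u : Fin N → ℂ) (j cs K : ℕ) : Prop :=
  ∀ i, i < K → (clm cs i : ℝ) / 16777216 ≤
    (N + 1) * ‖∫ t in (0 : ℝ)..nd Q (j + i + 1), qq u t‖

theorem CL_zero {N Q : ℕ} {u : Fin N → ℂ} {j cs : ℕ} : CL N Q u j cs 0 := fun _ h => by omega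

theorem CL_succ {N Q : ℕ} {u : Fin N → ℂ} {j cs K : ℕ}
    (h : ((cs % 4294967296 : ℕ) : ℝ) / 16777216 ≤
      (N + 1) * ‖∫ t in (0 : ℝ)..nd Q (j + 1), qq u t‖)
    (h2 : CL N Q u (j + 1) (cs / 4294967296) K) : CL N Q u j cs (K + 1) := by
  intro i hi
  rcases i with _ | i
  · simpa [clm] using h
  · have := h2 i (by omega)
    have e : clm cs (i + 1) = clm (cs / 4294967296) i := by
      unfold clm
      rw [Nat.div_div_eq_div_mul, pow_succ']
    rw [e, show j + (i + 1) + 1 = j + 1 + i + 1 by omega]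
    exact this

section ctx

variable {Na Nb Q mp mn lp ln s0 s1 c1 N : ℕ} {u : Fin N → ℂ}

theorem claim_of (H : Ctx Na Nb Q mp mn lp ln s0 s1 c1 N u) {v G : ℕ} {φ x : ℝ}
    (h : v * (Q * (1099511627776 * 1099511627776)) ≤ ((Na + 1) * 16777216) * G)
    (hG : (G : ℝ) / (Q * (1099511627776 * 1099511627776)) ≤ RR u φ x) :
    (v : ℝ) / 16777216 ≤ (N + 1) * ‖∫ t in (0 : ℝ)..x, qq u t‖ := by
  have hQ' : (0 : ℝ) < Q := Nat.cast_pos.2 H.q
  have h' : ((v * (Q * (1099511627776 * 1099511627776)) : ℕ) : ℝ) ≤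
      ((((Na + 1) * 16777216) * G : ℕ) : ℝ) := by exact_mod_cast h
  have h1 : (v : ℝ) / 16777216 ≤
      (Na + 1) * ((G : ℝ) / (Q * (1099511627776 * 1099511627776))) := by
    rw [← mul_div_assoc, div_le_div_iff₀ (by norm_num) (by positivity)]
    push_cast at h'
    linarith
  refine h1.trans ?_
  have hNa : (Na : ℝ) ≤ N := by exact_mod_cast H.na
  calc (Na + 1) * ((G : ℝ) / (Q * (1099511627776 * 1099511627776))) ≤
      (N + 1) * ((G : ℝ) / (Q * (1099511627776 * 1099511627776))) :=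
        mul_le_mul_of_nonneg_right (by linarith) (by positivity)
    _ ≤ (N + 1) * ‖∫ t in (0 : ℝ)..x, qq u t‖ :=
        mul_le_mul_of_nonneg_left (hG.trans (RR_le_norm φ x)) (by positivity)

theorem claim_of_sub (H : Ctx Na Nb Q mp mn lp ln s0 s1 c1 N u) {v Gp Gm : ℕ} {φ x : ℝ}
    (h : v * (Q * (1099511627776 * 1099511627776)) ≤ ((Na + 1) * 16777216) * (Gp - Gm))
    (hG : ((Gp : ℝ) - Gm) / (Q * (1099511627776 * 1099511627776)) ≤ RR u φ x) :
    (v : ℝ) / 16777216 ≤ (N + 1) * ‖∫ t in (0 : ℝ)..x, qq u t‖ := by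
  rcases le_total Gm Gp with hc | hc
  · apply claim_of H h
    rwa [Nat.cast_sub hc]
  · rw [Nat.sub_eq_zero_of_le hc, Nat.mul_zero, Nat.le_zero] at h
    have hQ := H.q
    have : v = 0 := by
      rcases Nat.mul_eq_zero.1 h with h1 | h1
      · exact h1
      · exfalso
        rcases Nat.mul_eq_zero.1 h1 with h2 | h2
        · omega
        · omega
    rw [this]
    simp only [Nat.cast_zero, zero_div]
    positivity

/-! ### the cells -/

theorem cell_am (H : Ctx Na Nb Q mp mn lp ln s0 s1 c1 N u) {j Gp Gm : ℕ} {φ : ℝ}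
    (hG : ((Gp : ℝ) - Gm) / (Q * (1099511627776 * 1099511627776)) ≤ RR u φ (nd Q j)) :
    ((Gp : ℝ) - ((Gm + amC Na Nb Q lp ln j : ℕ) : ℝ)) / (Q * (1099511627776 * 1099511627776)) ≤
      RR u φ (nd Q (j + 1)) := by
  have hQ' : (0 : ℝ) < Q := Nat.cast_pos.2 H.q
  have h := cell_amgm H.hN H.hu (nd_lt_succ (j := j) H.q) hG
    (uE_ge (j := j) H.na1 H.na H.nb H.q H.h2 H.ml)
    (uE_ge (j := j + 1) H.na1 H.na H.nb H.q H.h2 H.ml)
  refine le_trans (le_of_eq ?_) h
  rw [amC_def, nd_succ H.q]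
  push_cast
  field_simp
  ring

theorem cell_q (H : Ctx Na Nb Q mp mn lp ln s0 s1 c1 N u) {j J Tl Tu ka Gp Gm al k phi : ℕ}
    (hj : j + 1 < Q) (I : Inv Q mp mn lp ln j J Tl Tu ka) (hal : al ≤ 100)
    (htd : tdN (del Na Nb Q mp mn lp ln s0 s1 j) al < 1099511627776)
    (hG : ((Gp : ℝ) - Gm) / (Q * (1099511627776 * 1099511627776)) ≤
      RR u ((phi : ℝ) / 1099511627776) (nd Q j)) :
    ((Gp : ℝ) - ((Gm + negC (uE Na Nb Q lp ln j) (uE Na Nb Q lp ln (j + 1))
      (LN (PM Nb Q c1 J) (psi Na Nb s0 s1 (phi + k * 6908435304716) (phi + k * 6908435304715)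
        Tl Tu) al)
      (LN (PM Nb Q c1 (J + (ka * (3 * j + 1) + kN Q (gN Q mp mn (j + 1)) (j + 1) * (3 * j + 2))))
        (psi Na Nb s0 s1 (phi + k * 6908435304716) (phi + k * 6908435304715)
        (Tl + tinc Q (dN Q lp ln j)) (Tu + (wN Q (dN Q mp mn j) + 1))) al)
      (tdN (del Na Nb Q mp mn lp ln s0 s1 j) al) al : ℕ) : ℝ)) /
      (Q * (1099511627776 * 1099511627776)) ≤
      RR u ((phi : ℝ) / 1099511627776) (nd Q (j + 1)) := by
  have hQ' : (0 : ℝ) < Q := Nat.cast_pos.2 H.q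
  have I' := Inv_succ H hj I
  have hΦ1 : (phi : ℝ) / 1099511627776 + 2 * Real.pi * k ≤
      ((phi + k * 6908435304716 : ℕ) : ℝ) / 1099511627776 := by
    have := mul_le_mul_of_nonneg_right pi2_upp (Nat.cast_nonneg (α := ℝ) k)
    push_cast
    rw [add_div]
    linarith
  have hΦ2 : ((phi + k * 6908435304715 : ℕ) : ℝ) / 1099511627776 ≤
      (phi : ℝ) / 1099511627776 + 2 * Real.pi * k := by
    have := mul_le_mul_of_nonneg_right pi2_low (Nat.cast_nonneg (α := ℝ) k)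
    push_cast
    rw [add_div]
    linarith
  have h := cellQ H.hN H.hu k (nd_nonneg Q j) (nd_lt_succ (j := j) H.q) (nd_lt H.q hj) hG
    (by positivity : (0 : ℝ) ≤ (al : ℝ) / 64) (th_lt hal) (P_cell H hj I.J I'.J)
    (phase H hj I hΦ1 hΦ2) (LN_ge hal) (LN_ge hal)
    (uE_ge (j := j) H.na1 H.na H.nb H.q H.h2 H.ml)
    (uE_ge (j := j + 1) H.na1 H.na H.nb H.q H.h2 H.ml)
    (K_ge hal htd)
  refine le_trans ?_ h
  have hn := negC_ge (Ea := uE Na Nb Q lp ln j) (Eb := uE Na Nb Q lp ln (j + 1))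
    (La := LN (PM Nb Q c1 J) (psi Na Nb s0 s1 (phi + k * 6908435304716)
      (phi + k * 6908435304715) Tl Tu) al)
    (Lb := LN (PM Nb Q c1 (J + (ka * (3 * j + 1) +
        kN Q (gN Q mp mn (j + 1)) (j + 1) * (3 * j + 2))))
      (psi Na Nb s0 s1 (phi + k * 6908435304716) (phi + k * 6908435304715)
      (Tl + tinc Q (dN Q lp ln j)) (Tu + (wN Q (dN Q mp mn j) + 1))) al) hal htd
  rw [nd_succ H.q]
  set V := negC (uE Na Nb Q lp ln j) (uE Na Nb Q lp ln (j + 1))
    (LN (PM Nb Q c1 J) (psi Na Nb s0 s1 (phi + k * 6908435304716)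
      (phi + k * 6908435304715) Tl Tu) al)
    (LN (PM Nb Q c1 (J + (ka * (3 * j + 1) +
        kN Q (gN Q mp mn (j + 1)) (j + 1) * (3 * j + 2))))
      (psi Na Nb s0 s1 (phi + k * 6908435304716) (phi + k * 6908435304715)
      (Tl + tinc Q (dN Q lp ln j)) (Tu + (wN Q (dN Q mp mn j) + 1))) al)
    (tdN (del Na Nb Q mp mn lp ln s0 s1 j) al) al with hV
  have e : ((Gp : ℝ) - ((Gm + V : ℕ) : ℝ)) / (Q * (1099511627776 * 1099511627776)) =
      ((Gp : ℝ) - Gm) / (Q * (1099511627776 * 1099511627776)) -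
        1 / Q * ((V : ℝ) / (1099511627776 * 1099511627776)) := by
    push_cast
    field_simp
    ring
  rw [e]
  exact sub_le_sub_left (mul_le_mul_of_nonneg_left hn (by positivity)) _

theorem cell_p (H : Ctx Na Nb Q mp mn lp ln s0 s1 c1 N u) {j J J' Tl Tu ka G ta t phi : ℕ}
    (hj : j + 1 < Q) (I : Inv Q mp mn lp ln j J Tl Tu ka)
    (I' : JJ (mr mp mn) (nd Q (j + 1)) ≤ (J' : ℝ) / (6 * (Q : ℝ) ^ 2 * 1099511627776))
    (hta : ta ≤ 100) (ht : t ≤ 100)
    (hca : PM Nb Q c1 J * (cN ta + 1) ≤ 1099511627776 * 1099511627776)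
    (hcb : PM Nb Q c1 J' * (cN t + 1) ≤ 1099511627776 * 1099511627776)
    (hWa : psi Na Nb s0 s1 phi phi Tl Tu + del Na Nb Q mp mn lp ln s0 s1 j ≤
      WN (PM Nb Q c1 J) ta)
    (hWb : psi Na Nb s0 s1 phi phi (Tl + tinc Q (dN Q lp ln j))
      (Tu + (wN Q (dN Q mp mn j) + 1)) + del Na Nb Q mp mn lp ln s0 s1 j ≤ WN (PM Nb Q c1 J') t)
    (hD : 16 * 1099511627776 ≤ mN Q mp mn j * (Q * Q))
    (hG : (G : ℝ) / (Q * (1099511627776 * 1099511627776)) ≤
      RR u ((phi : ℝ) / 1099511627776) (nd Q j)) :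
    ((G + posC Na Nb Q (mN Q mp mn j) (XN (PM Nb Q c1 J) ta + XN (PM Nb Q c1 J') t) : ℕ) : ℝ) /
      (Q * (1099511627776 * 1099511627776)) ≤
      RR u ((phi : ℝ) / 1099511627776) (nd Q (j + 1)) := by
  have hQ' : (0 : ℝ) < Q := Nat.cast_pos.2 H.q
  have hdel := del_pos Na Nb Q mp mn lp ln s0 s1 j
  set dl := del Na Nb Q mp mn lp ln s0 s1 j with hdl
  set psa := psi Na Nb s0 s1 phi phi Tl Tu with hpsa
  set psb := psi Na Nb s0 s1 phi phi (Tl + tinc Q (dN Q lp ln j))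
      (Tu + (wN Q (dN Q mp mn j) + 1)) with hpsb
  have hg : 0 < mN Q mp mn j := by
    rcases Nat.eq_zero_or_pos (mN Q mp mn j) with h | h
    · rw [h, Nat.zero_mul] at hD
      omega
    · exact h
  have hg' : (0 : ℝ) < mN Q mp mn j := by exact_mod_cast hg
  have hlt := nd_lt_succ (j := j) H.q
  have hb1 := nd_lt H.q hj
  have h0 := nd_nonneg Q j
  have hmid := nd_mid (j := j) H.q
  have hggm : 0 < gg (mr mp mn) ((2 * j + 1 : ℕ) / (2 * Q)) := by
    rw [← hmid]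
    exact gg_pos H.mh (by linarith) (by linarith)
  have hcos : ∀ {P t : ℕ}, t ≤ 100 → P * (cN t + 1) ≤ 1099511627776 * 1099511627776 →
      (P : ℝ) / 1099511627776 * Real.cos (t / 64) ≤ 1 := by
    intro P t ht hc
    have hc' : ((P * (cN t + 1) : ℕ) : ℝ) ≤ ((1099511627776 * 1099511627776 : ℕ) : ℝ) := by
      exact_mod_cast hc
    calc (P : ℝ) / 1099511627776 * Real.cos (t / 64) ≤
        (P : ℝ) / 1099511627776 * (((cN t + 1 : ℕ) : ℝ) / 1099511627776) :=
          mul_le_mul_of_nonneg_left (cos_bd ht).2 (by positivity)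
      _ = ((P * (cN t + 1) : ℕ) : ℝ) / (1099511627776 * 1099511627776) := by
          push_cast
          ring
      _ ≤ 1 := by
          rw [div_le_one (by norm_num)]
          push_cast at hc' ⊢
          linarith
  have hW : ∀ {P ps t : ℕ}, t ≤ 100 → ps + dl ≤ WN P t →
      ((ps : ℝ) / 1099511627776 + (dl : ℝ) / 1099511627776) ≤
        (t : ℝ) / 64 - (P : ℝ) / 1099511627776 * Real.sin (t / 64) := by
    intro P ps t ht hw
    refine le_trans ?_ (WN_le ht (by omega))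
    rw [← add_div]
    apply div_le_div_of_nonneg_right _ (by norm_num)
    exact_mod_cast hw
  have hψ : ∀ x ∈ Set.Icc (nd Q j) (nd Q (j + 1)),
      |(phi : ℝ) / 1099511627776 - N * (av u).im * Th (av u).re x| ≤
      ch (nd Q j) (nd Q (j + 1)) ((psa : ℝ) / 1099511627776 + (dl : ℝ) / 1099511627776)
        ((psb : ℝ) / 1099511627776 + (dl : ℝ) / 1099511627776) x := by
    intro x hx
    rw [ch_add_const hlt]
    exact phase H hj I le_rfl le_rfl x hx
  have hD' : 16 * (nd Q (j + 1) - nd Q j) ^ 2 ≤ (mN Q mp mn j : ℝ) / 1099511627776 := by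
    rw [nd_succ H.q]
    have : ((16 * 1099511627776 : ℕ) : ℝ) ≤ ((mN Q mp mn j * (Q * Q) : ℕ) : ℝ) := by
      exact_mod_cast hD
    push_cast at this
    rw [le_div_iff₀ (by norm_num), one_div, inv_pow]
    have e : 16 * ((Q : ℝ) ^ 2)⁻¹ * 1099511627776 = (16 * 1099511627776) / (Q : ℝ) ^ 2 := by
      ring
    rw [e, div_le_iff₀ (by positivity)]
    nlinarith
  have h := cellP H.hN H.hu h0 hlt hb1 hG
    (by positivity : (0 : ℝ) ≤ (ta : ℝ) / 64) (th_lt hta)
    (by positivity : (0 : ℝ) ≤ (t : ℝ) / 64) (th_lt ht)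
    (by positivity : (0 : ℝ) ≤ (PM Nb Q c1 J : ℝ) / 1099511627776)
    (by positivity : (0 : ℝ) ≤ (PM Nb Q c1 J' : ℝ) / 1099511627776)
    (hcos hta hca) (hcos ht hcb) (by positivity) (by positivity) (hW hta hWa) (hW ht hWb)
    (P_cell H hj I.J I') hψ (XN_ge hta) (XN_ge ht)
    (by positivity : 0 < (mN Q mp mn j : ℝ) / 1099511627776)
    (by
      rw [hmid]
      exact (mN_le H.q hggm.le).trans (gg_anti H.h1 (by positivity))) hD'
  refine le_trans ?_ h
  have hp := posC_le (XX := XN (PM Nb Q c1 J) ta + XN (PM Nb Q c1 J') t) H.na1 H.na H.nb H.q hg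
    (X := (XN (PM Nb Q c1 J) ta : ℝ) / 1099511627776 +
      (XN (PM Nb Q c1 J') t : ℝ) / 1099511627776) (by
      rw [← add_div]
      push_cast
      exact le_rfl)
  rw [nd_succ H.q]
  have e : ((G + posC Na Nb Q (mN Q mp mn j)
      (XN (PM Nb Q c1 J) ta + XN (PM Nb Q c1 J') t) : ℕ) : ℝ) /
      (Q * (1099511627776 * 1099511627776)) = (G : ℝ) / (Q * (1099511627776 * 1099511627776)) +
      1 / Q * ((posC Na Nb Q (mN Q mp mn j) (XN (PM Nb Q c1 J) ta + XN (PM Nb Q c1 J') t) : ℝ) /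
        (1099511627776 * 1099511627776)) := by
    push_cast
    field_simp
  rw [e]
  have := mul_le_mul_of_nonneg_left hp (by positivity : (0 : ℝ) ≤ 1 / Q)
  linarith

end ctx

end Pool.Agent.Lib.MP_af3a4a_an.P1.CHK.Curve
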