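import Pool.Agent.Lib.MP_af3a4a_an.P1.CHK.Arith

/-!
# Table of `cos (k/64)`, `sin (k/64)`, `k ≤ 256`, and `-log cos (k/64)`, `k ≤ 100` (council 2, helper62)
-/

set_option autoImplicit false

namespace Pool.Agent.Lib.MP_af3a4a_an.P1.CHK.Curve

open Pool.Agent.Lib.MP_af3a4a_an.P1.CHK.Arith

/-- `|cos (k/64)|` and `|sin (k/64)|`, rounded down, mantissas `2^40`, 48-bit fields, `k ≤ 256` -/
def tabT : ℕ := 30394542571489580235986202359614055143680873779884434138098826448022230499037163011352046680923607316724866180134305368689913242626196072493461057289205010181993657072087360885228888734587267197085981850408213588665076486080412395353138229394227810994050051777862700814527646155590163854397452274775560377213536894982384131487604305825790993908820336526104773576381318772476198581191600711119134565337895552682076970315301490753213297114287017919056573670310053344285363121114973710952661505021966609716248645237600105783236849286351455299931414775182917898206372745093149255108452064236482574935653259999120857633941265780806915546968048176292411038054124001830441783601141283895821338343138195472996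4593802259774668436217466977819117607258414201308063902687436960243577846095099467477701182596991760835245720965870073081909569634990346101686685585229884424228167642959540945751249662565899446520431817319280202384401841804991722011364891805708832493492832724932858907143621213913953686598030505737166077557366719215809382406681291811589822252453403044065777991687965391475539319675514479686946479976548803610145213750311316498124215940226202290025795224152704280117072881512790294080493859985943467243349894928562808127426927672646185615243820930782542595820372265498010191057982416663196055257118101796037483143093250226354024750565900117156677519625347868118886430909056426452414708632227905105713135193079062424384568493980478422845759579739755131421870777129044428378299698718258763233666595822185392092744018205506036341770173941320907492574475428649648987509235961267786211348718231843073370530558961008519968488456313964703497292785686302247581142579199003891917161766555718183345942425001874140213285986700935570084126295420200692252547006008657481040336594805746203401379267463827275721411918838758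1184518226720900603980633401775043981378812248811455121836980314158738422424334577111255633917760288992805269829357837924437230652005445322994661825996943253598539749322826495214438333105247600124463853911734737697674241148628135289754246918927538077624307586630261598304730462652949974963629006110518798000695517518901982747465448146970325188373113473742467171642689898851056269997168733339504224383269177569669962133097173191786770187923042734398443712299675233551988697801854209184740285751142484364558562393887858715806026929029670045230491687732304170473401661741124331690787485193609310381703402864979486935656916703592224591644163142127948440162472460284627403143732241065773187780285089539320807518900383488199960002802869979217292437471038110037371361602836997270249592509730604051785392597650573080049187700991480322730031565053980695245592346884916312078615521577062148575514337292776108500595986791269049902507391841891591589187650444523802248294808606308920617918944817158410180588802276717538438986097750069887474383165321683856674943826032501379530675271660940350341057013926016047197784474620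2597226120343993986866268946650693221824684812188882099434907891479486120048997328504780090303994938631771065811930130016645854932131007432683067318588333292412199800143994650961238239319643963972390114707246369770373621229732130542893680950719796928544935010755397453168163149590026865410897430344328294474933723150257815033329206502442808350025733057325332651177612175856246863911572685300469717462509277124575791458477223985975883812558149742202766498752994518905054045598496603718513409473890365948581312276637477755329796084091653069807074377494977994068906248817893872950950374758551757110529302653939162834507457657617597622066947276793702812513260178056097821016750377658269112032566979896793601189750243091296768987142370857402386565294732399575230142936446895681200818421910590959473271275896961579618770663118451737855740958789298661283340523645044498243657445310471319269100830089135377877359355983473798222860620305460590666480807373166183640832501500618208899876381060840358923184380993699387672171118155564460935335403146775895288602724021700859586914116712437380411972850660956469270094292281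5066542133281426546259348467184247713155390731687691066314387250710242159789889401247858672978917822352616268456032252375592766321671386631510096820787037062428412901156755938121728953189124706221763805898587410997535376504323100888754516044229190824198198610161697409637408585332193120684608532744657854848814835911450760683131247519213755735913697014352849485747563656003242427854645235527575487122730890923436848558581973613387264697203290005412596892250615185154071968565717245765326441707179233148523869886058056285463966523853281711752934516892147703463231174418399930717542137421717079893158408607589986698597783754428591998443663530789487771877147923615768876470153576859814083195436357579133584910409127010917526580922058698825369322072574306659702751234461243945531047778202157656204513699274319559491045391862575330717191288440260677496078592270685860901958106178364983093088042900016895863679548222190066021442196141005556133680513816586342576787586874514562314603562800767168163574100061975387389241503570647809379368684759354178761754200840648940572029621872478015949797136157446742275253404101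6744864820209340815412768050916258591137818274762781530306456372972079135720050796249979120451288946198381868580279452585420706820668798762588806289251407948637667133132413646542879857852213121931113867199018233701557860813190405406040040804217857110839729153790333159924421564079238962317767863723517511487686003175695148797543814554036612985395549976225078292859849452543551049326510294124389686347123921661834489940204216616230905863611405250313167217450817861279221403902589492268423479007724275849850337529373218526201401090395477363121577776903099284602912542953307860402376946023577638596368702815295819945571393119178464654250399896059264385830088812142076099910360306450767631827434988307819293326508556619070507062654749366811801712061054651096673517534251473884052456533822983198047187766534563360511392801303558096494198927784428288176460354716531537701399488557976314028088069281115330339633104741739831128036014030256280277333386963890451304504147023654562623469797574417043455566628666845547649540056143861854505164212423556110973226836238027413108283969291242630457551290734342147149777535485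22557760108632811678625875873990883721532493105679430192680543837814488568348345013023658009982267143523812876595200320960409952773522545747422342459089495162982107715120589171913246049119852480649332784942323188415616821955935631667894791598951798813033425336859868255384206584373828149727950602541541701077039259827248097874608382636615095210402474377353288831910367876957380504035459229446157321926469405580771707974048249937436484040391946548174702868203849300345893368230746204595305216525189417894579558998821507155853781099978855475618282445845878716091480341083345923024071005951330328424256765978672136672093795144233675637052978052965524401598726523308159445220166057449448999895513943243171143292355719610136582026148835322266383844696917171024825260776762992813092138914773741088326170181623229588247077332047725461517974219864704647705240021053209925558475025779287107928999881911727552025030065381248710500986217155083994350845378380566419803517227088349383997122204852120975371250817369655255577065441659925809485376239390162605890192984247663582878335696064285320143662695419789601172764732551311692712066758631162958071410682713911929652654847687540535569799350059008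

/-- upper bounds of `-log cos (k/64)`, 48-bit fields, `k ≤ 100` -/
def tabL : ℕ := 463117982311609078393303252304015165011780900835742763264535844102180435452815715451550905672188500138006130070885087341795941802350837737715129250378235946588363907360492169472488999246421623600437598643783240068428769291114124335106952987832876823270459645883724914915110899448201369380329238332445151180367916477766999105260315750749935886386684920875878765993776040125963651646578082150881710115455344137421944463373463118132369080101630551715220604792677800063586909789779977227355230229823469165937231034694972048683036407203936123023907696656094380528795349817728367965666864555323790864529555369840985543648622693936894691976192611628278203489386282579160299581060175895125793338393359930743644973935964444043406696105575120322772651196511903678108396429187470179620421250528588491183741686166761620908805326352502379952401581515566604097354522012892628083744493124936827420982970449696080436229693351572823891215915564229053122633425692430216181592531322276121218071277976311972405437427305864347933922206979735808091861886598632888580098793424289845849750263488190421425691430880534604333360901087331962643155445978442068978126859225941896692835800378540376880973574633152435243505050430849285664895945653761447133651109348748058470244071401684320178903975903305921906237110037242867295150767431347902501242525226426654200342587855045416479263055793450512009183600842574431035722742148737600824300374171903346238381026640936700504310672080865591808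

/-- `|cos (k/64)|`, rounded down -/
def cN (k : ℕ) : ℕ := Nat.mod (Nat.shiftRight tabT (Nat.mul 96 k)) 281474976710656
/-- `|sin (k/64)|`, rounded down -/
def sN (k : ℕ) : ℕ := Nat.mod (Nat.shiftRight tabT (Nat.add (Nat.mul 96 k) 48)) 281474976710656
/-- `-log cos (k/64)`, upper bound -/
def lN (k : ℕ) : ℕ := Nat.mod (Nat.shiftRight tabL (Nat.mul 48 k)) 281474976710656

/-- `2^96 cos (1/64)` and `2^96 sin (1/64)`, rounded -/
def wc : ℤ := 79218491304471089406828349259
def ws : ℤ := 1237889667991117560200531116

/-- floor of `p / 2^96` -/
def sh96 (p : ℤ) : ℤ := p >>> (96 : ℕ)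

/-- the loop with passing of the pair -/
def tgo : ℕ → ℕ → ℤ → ℤ → Bool
  | 0, _, _, _ => true
  | f + 1, k, a, b =>
    (Nat.ble (cN k * 72057594037927936 + 16 * k) a.natAbs &&
    Nat.ble (a.natAbs + 16 * k) ((cN k + 1) * 72057594037927936) &&
    (Nat.beq (sN k) 0 || Nat.ble (sN k * 72057594037927936 + 16 * k) b.natAbs) &&
    Nat.ble (b.natAbs + 16 * k) ((sN k + 1) * 72057594037927936)) &&
    tgo f (k + 1) (sh96 (a * wc - b * ws)) (sh96 (a * ws + b * wc))

set_option maxRecDepth 100000 in
theorem tgo_ok : tgo 257 0 79228162514264337593543950336 0 = true := by decide +kernel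

/-! ### soundness -/

open Complex in
theorem w_err : ‖((wc : ℂ) + ws * Complex.I) / 2 ^ 96 - Complex.exp (Complex.I / 64)‖ ≤ 1 / 2 ^ 94 := by
  have h1 : ‖Complex.I / 64‖ = 1 / 64 := by
    rw [norm_div, Complex.norm_I]
    norm_num
  have h2 := Complex.exp_bound (x := Complex.I / 64) (by rw [h1]; norm_num) (n := 14) (by norm_num)
  rw [h1] at h2
  set c : ℝ := 1 - (1 / 64) ^ 2 / 2 + (1 / 64) ^ 4 / 24 - (1 / 64) ^ 6 / 720 + (1 / 64) ^ 8 / 40320
    - (1 / 64) ^ 10 / 3628800 + (1 / 64) ^ 12 / 479001600 with hc
  set s : ℝ := 1 / 64 - (1 / 64) ^ 3 / 6 + (1 / 64) ^ 5 / 120 - (1 / 64) ^ 7 / 5040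
    + (1 / 64) ^ 9 / 362880 - (1 / 64) ^ 11 / 39916800 + (1 / 64) ^ 13 / 6227020800 with hs
  have i2 : Complex.I ^ 2 = -1 := Complex.I_sq
  have i3 : Complex.I ^ 3 = -Complex.I := by rw [pow_succ, i2]; ring
  have i4 : Complex.I ^ 4 = 1 := by rw [pow_succ, i3]; ring_nf; rw [i2]; ring
  have i5 : Complex.I ^ 5 = Complex.I := by rw [pow_succ, i4]; ring
  have i6 : Complex.I ^ 6 = -1 := by rw [pow_succ, i5, ← sq, i2]
  have i7 : Complex.I ^ 7 = -Complex.I := by rw [pow_succ, i6]; ring
  have i8 : Complex.I ^ 8 = 1 := by rw [pow_succ, i7]; ring_nf; rw [i2]; ring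
  have i9 : Complex.I ^ 9 = Complex.I := by rw [pow_succ, i8]; ring
  have i10 : Complex.I ^ 10 = -1 := by rw [pow_succ, i9, ← sq, i2]
  have i11 : Complex.I ^ 11 = -Complex.I := by rw [pow_succ, i10]; ring
  have i12 : Complex.I ^ 12 = 1 := by rw [pow_succ, i11]; ring_nf; rw [i2]; ring
  have i13 : Complex.I ^ 13 = Complex.I := by rw [pow_succ, i12]; ring
  have hP : ∑ m ∈ Finset.range 14, (Complex.I / 64) ^ m / (m.factorial : ℂ) = (c : ℂ) + s * Complex.I := by
    simp only [Finset.sum_range_succ, Finset.sum_range_zero, div_pow, Nat.factorial, i2, i3, i4, i5,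
      i6, i7, i8, i9, i10, i11, i12, i13, hc, hs]
    push_cast
    ring
  rw [hP] at h2
  have h3 : ‖((wc : ℂ) + ws * Complex.I) / 2 ^ 96 - ((c : ℂ) + s * Complex.I)‖ ≤ 1 / 2 ^ 95 := by
    have e : ((wc : ℂ) + ws * Complex.I) / 2 ^ 96 - ((c : ℂ) + s * Complex.I) =
        (((wc : ℝ) / 2 ^ 96 - c : ℝ) : ℂ) + (((ws : ℝ) / 2 ^ 96 - s : ℝ) : ℂ) * Complex.I := by
      push_cast
      ring
    rw [e]
    refine (norm_add_le _ _).trans ?_
    rw [norm_mul, Complex.norm_I, mul_one, Complex.norm_real, Complex.norm_real]
    have a1 : |(wc : ℝ) / 2 ^ 96 - c| ≤ 1 / 2 ^ 96 := by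
      rw [hc, abs_le]
      unfold wc
      constructor <;> norm_num
    have a2 : |(ws : ℝ) / 2 ^ 96 - s| ≤ 1 / 2 ^ 96 := by
      rw [hs, abs_le]
      unfold ws
      constructor <;> norm_num
    have e2 : (1 : ℝ) / 2 ^ 95 = 1 / 2 ^ 96 + 1 / 2 ^ 96 := by norm_num
    rw [e2]
    exact add_le_add a1 a2
  have h4 : ((1 : ℝ) / 64) ^ 14 * (((14 : ℕ).succ : ℝ) * (((14 : ℕ).factorial : ℝ) * (14 : ℕ))⁻¹) ≤
      1 / 2 ^ 95 := by
    norm_num [Nat.factorial]
  have h5 : ((wc : ℂ) + ws * Complex.I) / 2 ^ 96 - Complex.exp (Complex.I / 64) =
      (((wc : ℂ) + ws * Complex.I) / 2 ^ 96 - ((c : ℂ) + s * Complex.I)) -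
        (Complex.exp (Complex.I / 64) - ((c : ℂ) + s * Complex.I)) := by ring
  rw [h5]
  refine (norm_sub_le _ _).trans ?_
  have e2 : (1 : ℝ) / 2 ^ 94 = 1 / 2 ^ 95 + 1 / 2 ^ 95 := by norm_num
  rw [e2]
  exact add_le_add h3 (h2.trans h4)

theorem shr_int (p : ℤ) : (sh96 p : ℝ) ≤ (p : ℝ) / 2 ^ 96 ∧
    (p : ℝ) / 2 ^ 96 ≤ (sh96 p : ℝ) + 1 := by
  unfold sh96
  rw [Int.shiftRight_eq_div_pow]
  push_cast
  have h0 : (0 : ℤ) < 2 ^ 96 := by positivity
  have h1 := Int.ediv_mul_le p (b := 2 ^ 96) (by positivity)
  have h2 := Int.lt_ediv_add_one_mul_self p h0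
  have h1' : ((p / 2 ^ 96 : ℤ) : ℝ) * 2 ^ 96 ≤ p := by exact_mod_cast h1
  have h2' : (p : ℝ) < (((p / 2 ^ 96 : ℤ) : ℝ) + 1) * 2 ^ 96 := by exact_mod_cast h2
  constructor
  · rw [le_div_iff₀ (by positivity)]
    exact_mod_cast h1'
  · rw [div_le_iff₀ (by positivity)]
    exact_mod_cast h2'.le

theorem z_step {k : ℕ} (hk : k ≤ 1000) {a b : ℤ}
    (h : ‖((a : ℂ) + b * Complex.I) / 2 ^ 96 - Complex.exp ((k / 64 : ℝ) * Complex.I)‖ ≤
      (k : ℝ) / 2 ^ 92) :
    ‖((sh96 (a * wc - b * ws) : ℂ) + (sh96 (a * ws + b * wc) : ℂ) * Complex.I) /
      2 ^ 96 - Complex.exp (((k + 1 : ℕ) / 64 : ℝ) * Complex.I)‖ ≤ ((k + 1 : ℕ) : ℝ) / 2 ^ 92 := by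
  set Z : ℂ := ((a : ℂ) + b * Complex.I) / 2 ^ 96 with hZ
  set W : ℂ := ((wc : ℂ) + ws * Complex.I) / 2 ^ 96 with hW
  set z := Complex.exp ((k / 64 : ℝ) * Complex.I) with hz
  set w := Complex.exp (Complex.I / 64) with hw
  have hzw : Complex.exp (((k + 1 : ℕ) / 64 : ℝ) * Complex.I) = z * w := by
    rw [hz, hw, ← Complex.exp_add]
    congr 1
    push_cast
    ring
  have nw : ‖w‖ = 1 := by
    have : Complex.I / 64 = ((1 / 64 : ℝ) : ℂ) * Complex.I := by push_cast; ring
    rw [hw, this, Complex.norm_exp_ofReal_mul_I]
  have nz : ‖z‖ = 1 := by rw [hz, Complex.norm_exp_ofReal_mul_I]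
  have hkr : (k : ℝ) ≤ 1000 := by exact_mod_cast hk
  have nZ : ‖Z‖ ≤ 2 := by
    have e : Z = (Z - z) + z := by ring
    rw [e]
    refine (norm_add_le _ _).trans ?_
    rw [nz]
    have : (k : ℝ) / 2 ^ 92 ≤ 1 := by
      rw [div_le_one (by positivity)]
      refine hkr.trans (by norm_num)
    linarith
  -- rounding
  set p := a * wc - b * ws with hp
  set q := a * ws + b * wc with hq
  have hpq : Z * W = (((p : ℝ) / 2 ^ 96 / 2 ^ 96 : ℝ) : ℂ) +
      (((q : ℝ) / 2 ^ 96 / 2 ^ 96 : ℝ) : ℂ) * Complex.I := by
    rw [hZ, hW, hp, hq]
    push_cast
    have := Complex.I_sq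
    linear_combination ((b : ℂ) * ws / 2 ^ 96 / 2 ^ 96) * this
  have hr : ‖((sh96 p : ℂ) + (sh96 q : ℂ) * Complex.I) / 2 ^ 96 - Z * W‖ ≤
      2 / 2 ^ 96 := by
    have e : ((sh96 p : ℂ) + (sh96 q : ℂ) * Complex.I) / 2 ^ 96 - Z * W =
        ((((sh96 p : ℝ) - (p : ℝ) / 2 ^ 96) / 2 ^ 96 : ℝ) : ℂ) +
        ((((sh96 q : ℝ) - (q : ℝ) / 2 ^ 96) / 2 ^ 96 : ℝ) : ℂ) * Complex.I := by
      rw [hpq]
      push_cast
      ring
    rw [e]
    refine (norm_add_le _ _).trans ?_
    rw [norm_mul, Complex.norm_I, mul_one, Complex.norm_real, Complex.norm_real]
    have a1 := shr_int p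
    have a2 := shr_int q
    have b1 : ‖((sh96 p : ℝ) - (p : ℝ) / 2 ^ 96) / 2 ^ 96‖ ≤ 1 / 2 ^ 96 := by
      rw [Real.norm_eq_abs, abs_div, abs_of_pos (by positivity : (0 : ℝ) < 2 ^ 96)]
      apply div_le_div_of_nonneg_right _ (by positivity)
      rw [abs_le]
      constructor <;> linarith [a1.1, a1.2]
    have b2 : ‖((sh96 q : ℝ) - (q : ℝ) / 2 ^ 96) / 2 ^ 96‖ ≤ 1 / 2 ^ 96 := by
      rw [Real.norm_eq_abs, abs_div, abs_of_pos (by positivity : (0 : ℝ) < 2 ^ 96)]
      apply div_le_div_of_nonneg_right _ (by positivity)
      rw [abs_le]
      constructor <;> linarith [a2.1, a2.2]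
    refine (add_le_add b1 b2).trans (le_of_eq ?_)
    ring
  have e3 : ((sh96 p : ℂ) + (sh96 q : ℂ) * Complex.I) / 2 ^ 96 - z * w =
      (((sh96 p : ℂ) + (sh96 q : ℂ) * Complex.I) / 2 ^ 96 - Z * W) +
      (Z * (W - w) + (Z - z) * w) := by ring
  rw [hzw, e3]
  refine (norm_add_le _ _).trans ?_
  have h6 : ‖Z * (W - w) + (Z - z) * w‖ ≤ 2 * (1 / 2 ^ 94) + k / 2 ^ 92 := by
    refine (norm_add_le _ _).trans ?_
    rw [norm_mul, norm_mul, nw, mul_one]
    exact add_le_add (mul_le_mul nZ w_err (norm_nonneg _) (by norm_num)) h
  refine (add_le_add hr h6).trans ?_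
  push_cast
  rw [add_div]
  have : (2 : ℝ) / 2 ^ 96 + 2 * (1 / 2 ^ 94) ≤ 1 / 2 ^ 92 := by norm_num
  linarith

/-- the statement about one entry of the table -/
def TabOK (k : ℕ) : Prop :=
  (cN k : ℝ) / 2 ^ 40 ≤ |Real.cos (k / 64)| ∧ |Real.cos (k / 64)| ≤ ((cN k + 1 : ℕ) : ℝ) / 2 ^ 40 ∧
  (sN k : ℝ) / 2 ^ 40 ≤ |Real.sin (k / 64)| ∧ |Real.sin (k / 64)| ≤ ((sN k + 1 : ℕ) : ℝ) / 2 ^ 40

theorem abs_close {x y e : ℝ} (h : |x - y| ≤ e) : |x| - e ≤ |y| ∧ |y| ≤ |x| + e := by
  have h1 := abs_sub_abs_le_abs_sub x y
  have h2 := abs_sub_abs_le_abs_sub y x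
  rw [abs_sub_comm] at h2
  constructor <;> linarith

theorem entry_ok {k : ℕ} {a b : ℤ}
    (h : ‖((a : ℂ) + b * Complex.I) / 2 ^ 96 - Complex.exp ((k / 64 : ℝ) * Complex.I)‖ ≤
      (k : ℝ) / 2 ^ 92)
    (h1 : cN k * 72057594037927936 + 16 * k ≤ a.natAbs)
    (h2 : a.natAbs + 16 * k ≤ (cN k + 1) * 72057594037927936)
    (h3 : sN k = 0 ∨ sN k * 72057594037927936 + 16 * k ≤ b.natAbs)
    (h4 : b.natAbs + 16 * k ≤ (sN k + 1) * 72057594037927936) : TabOK k := by
  have hre : |(a : ℝ) / 2 ^ 96 - Real.cos (k / 64)| ≤ (k : ℝ) / 2 ^ 92 := by
    refine le_trans (le_of_eq ?_) ((Complex.abs_re_le_norm _).trans h)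
    congr 1
    rw [Complex.sub_re, Complex.exp_ofReal_mul_I_re]
    have : ((a : ℂ) + b * Complex.I) / 2 ^ 96 =
        (((a : ℝ) / 2 ^ 96 : ℝ) : ℂ) + (((b : ℝ) / 2 ^ 96 : ℝ) : ℂ) * Complex.I := by
      push_cast
      ring
    rw [this, Complex.add_re, Complex.ofReal_re, Complex.re_ofReal_mul, Complex.I_re, mul_zero,
      add_zero]
  have him : |(b : ℝ) / 2 ^ 96 - Real.sin (k / 64)| ≤ (k : ℝ) / 2 ^ 92 := by
    refine le_trans (le_of_eq ?_) ((Complex.abs_im_le_norm _).trans h)
    congr 1
    rw [Complex.sub_im, Complex.exp_ofReal_mul_I_im]
    have : ((a : ℂ) + b * Complex.I) / 2 ^ 96 =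
        (((a : ℝ) / 2 ^ 96 : ℝ) : ℂ) + (((b : ℝ) / 2 ^ 96 : ℝ) : ℂ) * Complex.I := by
      push_cast
      ring
    rw [this, Complex.add_im, Complex.ofReal_im, Complex.im_ofReal_mul, Complex.I_im, mul_one,
      zero_add]
  have c1 := abs_close hre
  have c2 := abs_close him
  have ea : |(a : ℝ) / 2 ^ 96| = (a.natAbs : ℝ) / 2 ^ 96 := by
    rw [abs_div, abs_of_pos (by positivity : (0 : ℝ) < 2 ^ 96), Nat.cast_natAbs, Int.cast_abs]
  have eb : |(b : ℝ) / 2 ^ 96| = (b.natAbs : ℝ) / 2 ^ 96 := by
    rw [abs_div, abs_of_pos (by positivity : (0 : ℝ) < 2 ^ 96), Nat.cast_natAbs, Int.cast_abs]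
  rw [ea] at c1
  rw [eb] at c2
  have h1' : (cN k : ℝ) * 72057594037927936 + 16 * k ≤ a.natAbs := by exact_mod_cast h1
  have h2' : (a.natAbs : ℝ) + 16 * k ≤ (cN k + 1) * 72057594037927936 := by exact_mod_cast h2
  have h4' : (b.natAbs : ℝ) + 16 * k ≤ (sN k + 1) * 72057594037927936 := by exact_mod_cast h4
  refine ⟨?_, ?_, ?_, ?_⟩
  · refine le_trans ?_ c1.1
    rw [div_le_iff₀ (by positivity)]
    have : ((a.natAbs : ℝ) / 2 ^ 96 - k / 2 ^ 92) * 2 ^ 40 =
        ((a.natAbs : ℝ) - 16 * k) / 72057594037927936 := by ring
    rw [this, le_div_iff₀ (by norm_num)]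
    linarith
  · refine c1.2.trans ?_
    rw [le_div_iff₀ (by positivity)]
    have : ((a.natAbs : ℝ) / 2 ^ 96 + k / 2 ^ 92) * 2 ^ 40 =
        ((a.natAbs : ℝ) + 16 * k) / 72057594037927936 := by ring
    rw [this, div_le_iff₀ (by norm_num)]
    push_cast
    linarith
  · rcases h3 with h3 | h3
    · rw [h3]
      simp
    · have h3' : (sN k : ℝ) * 72057594037927936 + 16 * k ≤ b.natAbs := by exact_mod_cast h3
      refine le_trans ?_ c2.1
      rw [div_le_iff₀ (by positivity)]
      have : ((b.natAbs : ℝ) / 2 ^ 96 - k / 2 ^ 92) * 2 ^ 40 =
          ((b.natAbs : ℝ) - 16 * k) / 72057594037927936 := by ring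
      rw [this, le_div_iff₀ (by norm_num)]
      linarith
  · refine c2.2.trans ?_
    rw [le_div_iff₀ (by positivity)]
    have : ((b.natAbs : ℝ) / 2 ^ 96 + k / 2 ^ 92) * 2 ^ 40 =
        ((b.natAbs : ℝ) + 16 * k) / 72057594037927936 := by ring
    rw [this, div_le_iff₀ (by norm_num)]
    push_cast
    linarith

theorem tgo_spec : ∀ (f k : ℕ) (a b : ℤ), tgo f k a b = true → k + f ≤ 1000 →
    ‖((a : ℂ) + b * Complex.I) / 2 ^ 96 - Complex.exp ((k / 64 : ℝ) * Complex.I)‖ ≤ (k : ℝ) / 2 ^ 92 →
    ∀ i, i < f → TabOK (k + i) := by
  intro f
  induction f with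
  | zero => intro k a b _ _ _ i hi; omega
  | succ f ih =>
    intro k a b h hkf hz i hi
    simp only [tgo, Bool.and_eq_true, Bool.or_eq_true, Nat.ble_eq, Nat.beq_eq] at h
    obtain ⟨⟨⟨⟨h1, h2⟩, h3⟩, h4⟩, h5⟩ := h
    rcases Nat.eq_zero_or_pos i with hi0 | hi0
    · subst hi0
      exact entry_ok hz h1 h2 h3 h4
    · have := ih (k + 1) _ _ h5 (by omega) (z_step (by omega) hz) (i - 1) (by omega)
      have e : k + 1 + (i - 1) = k + i := by omega
      rwa [e] at this

theorem tab_ok {k : ℕ} (hk : k ≤ 256) : TabOK k := by
  have h := tgo_spec 257 0 79228162514264337593543950336 0 tgo_ok (by norm_num) (by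
    norm_num) k (by omega)
  rwa [zero_add] at h

theorem cos_nonneg_tab {k : ℕ} (hk : k ≤ 100) : 0 ≤ Real.cos (k / 64) := by
  have hk' : (k : ℝ) ≤ 100 := by exact_mod_cast hk
  have := Real.pi_gt_d6
  apply Real.cos_nonneg_of_neg_pi_div_two_le_of_le
  · have : (0 : ℝ) ≤ k := Nat.cast_nonneg k
    have := Real.pi_pos
    linarith
  · linarith

theorem cos_pos_tab {k : ℕ} (hk : k ≤ 100) : 0 < Real.cos (k / 64) := by
  have hk' : (k : ℝ) ≤ 100 := by exact_mod_cast hk
  have := Real.pi_gt_d6
  apply Real.cos_pos_of_mem_Ioo
  constructor
  · have : (0 : ℝ) ≤ k := Nat.cast_nonneg k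
    have := Real.pi_pos
    linarith
  · linarith

theorem cos_nonpos_tab {k : ℕ} (h1 : 101 ≤ k) (h2 : k ≤ 256) : Real.cos (k / 64) ≤ 0 := by
  have h1' : (101 : ℝ) ≤ k := by exact_mod_cast h1
  have h2' : (k : ℝ) ≤ 256 := by exact_mod_cast h2
  have := Real.pi_lt_d6
  have := Real.pi_gt_d6
  apply Real.cos_nonpos_of_pi_div_two_le_of_le
  · linarith
  · linarith

theorem sin_nonneg_tab {k : ℕ} (h2 : k ≤ 201) : 0 ≤ Real.sin (k / 64) := by
  have h2' : (k : ℝ) ≤ 201 := by exact_mod_cast h2
  have := Real.pi_gt_d6
  apply Real.sin_nonneg_of_nonneg_of_le_pi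
  · positivity
  · linarith

theorem sin_nonpos_tab {k : ℕ} (h1 : 202 ≤ k) (h2 : k ≤ 256) : Real.sin (k / 64) ≤ 0 := by
  have h1' : (202 : ℝ) ≤ k := by exact_mod_cast h1
  have h2' : (k : ℝ) ≤ 256 := by exact_mod_cast h2
  have := Real.pi_lt_d6
  have := Real.pi_gt_d6
  have h : 0 ≤ Real.sin (k / 64 - Real.pi) := by
    apply Real.sin_nonneg_of_nonneg_of_le_pi
    · linarith
    · linarith
  rw [Real.sin_sub_pi] at h
  linarith

theorem le_pi_tab {k : ℕ} (h2 : k ≤ 201) : (k : ℝ) / 64 ≤ Real.pi := by
  have h2' : (k : ℝ) ≤ 201 := by exact_mod_cast h2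
  have := Real.pi_gt_d6
  linarith

def lgo : ℕ → ℕ → Bool
  | 0, _ => true
  | f + 1, k => (Nat.ble (em (lN k)) (cN k)) && lgo f (k + 1)

set_option maxRecDepth 100000 in
theorem lgo_ok : lgo 101 0 = true := by decide +kernel

theorem lgo_spec : ∀ (f k : ℕ), lgo f k = true → ∀ i, i < f → em (lN (k + i)) ≤ cN (k + i) := by
  intro f
  induction f with
  | zero => intro k _ i hi; omega
  | succ f ih =>
    intro k h i hi
    simp only [lgo, Bool.and_eq_true, Nat.ble_eq] at h
    rcases Nat.eq_zero_or_pos i with hi0 | hi0
    · subst hi0
      exact h.1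
    · have := ih (k + 1) h.2 (i - 1) (by omega)
      have e : k + 1 + (i - 1) = k + i := by omega
      rwa [e] at this

/-- `-log cos (k/64) ≤ lN k / 2^40` -/
theorem log_tab {k : ℕ} (hk : k ≤ 100) : -Real.log (Real.cos (k / 64)) ≤ (lN k : ℝ) / 2 ^ 40 := by
  have h := lgo_spec 101 0 lgo_ok k (by omega)
  rw [zero_add] at h
  have h1 := em_spec (lN k)
  have h2 : (em (lN k) : ℝ) ≤ cN k := by exact_mod_cast h
  have h3 := (tab_ok (by omega : k ≤ 256)).1
  rw [abs_of_nonneg (cos_nonneg_tab hk)] at h3
  have h4 : (em (lN k) : ℝ) / 2 ^ 40 ≤ (cN k : ℝ) / 2 ^ 40 :=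
    div_le_div_of_nonneg_right h2 (by positivity)
  have h5 := (h1.trans h4).trans h3
  have h6 := Real.log_le_log (Real.exp_pos _) h5
  rw [Real.log_exp] at h6
  linarith

end Pool.Agent.Lib.MP_af3a4a_an.P1.CHK.Curve
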